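import Pool.Agent.U190.SN.Fin

/-!
# No points and no sections
-/

set_option autoImplicit false

namespace Pool.Agent.U190.SN

open Pool.Agent.W620.SC Finset IntermediateField Polynomial

universe u v w y

/-- the equation `N(Λ) = a Q^ℓ` -/
def Eqn {K : Type u} {Ω : Type*} [Field K] [Field Ω] [Algebra K Ω] (G : K[X])
    (Λ : MvPolynomial (Fin 3) K[X]) (a : K) (Q : MvPolynomial (Fin 3) K) (ℓ : ℕ)
    (x : Fin 3 → Ω) : Prop :=
  ((G.map (algebraMap K Ω)).roots.map fun θ => val (algebraMap K Ω) θ x Λ).prod =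
    algebraMap K Ω a * MvPolynomial.eval₂ (algebraMap K Ω) x Q ^ ℓ

/-- `a` is a norm, in an algebraically closed field -/
def NmIn {K : Type u} (B : Type*) [Field K] [Field B] [Algebra K B] (G : K[X]) (a : K) : Prop :=
  ∃ P : K[X], ((G.map (algebraMap K B)).roots.map fun θ => aeval θ P).prod = algebraMap K B a

/-- transversality, in an algebraically closed field -/
def TrIn {K : Type u} (B : Type*) [Field K] [Field B] [Algebra K B] (G : K[X])
    (Λ : MvPolynomial (Fin 3) K[X]) (Q : MvPolynomial (Fin 3) K) : Prop :=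
  ∀ θ θ' : B, aeval θ G = 0 → aeval θ' G = 0 → θ ≠ θ' → ∀ x : Fin 3 → B, x ≠ 0 →
    val (algebraMap K B) θ x Λ = 0 → val (algebraMap K B) θ' x Λ = 0 →
      MvPolynomial.eval₂ (algebraMap K B) x Q ≠ 0

section transfer

variable {K : Type u} {B : Type v} {C : Type w} [Field K] [Field B] [Field C] [Algebra K B]
  [Algebra K C] {G : K[X]}

lemma NmIn.map [IsAlgClosed B] (i : B →ₐ[K] C) {a : K} (h : NmIn B G a) : NmIn C G a := by
  obtain ⟨P, hP⟩ := h
  refine ⟨P, ?_⟩
  rw [roots_ext (i : B →+* C) (by ext c; exact i.commutes c), Multiset.map_map]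
  have h1 := congrArg (i : B →+* C) hP
  rw [map_multiset_prod, Multiset.map_map] at h1
  have h2 : (i : B →+* C) (algebraMap K B a) = algebraMap K C a := i.commutes a
  rw [h2] at h1
  rw [← h1]
  congr 1
  refine Multiset.map_congr rfl fun θ _ => ?_
  exact Polynomial.aeval_algHom_apply i θ P

lemma TrIn.map (i : B →ₐ[K] C) {Λ : MvPolynomial (Fin 3) K[X]} {Q : MvPolynomial (Fin 3) K}
    (h : TrIn C G Λ Q) : TrIn B G Λ Q := by
  intro θ θ' h1 h2 hne x hx g1 g2 g3
  have hi : (i : B →+* C).comp (algebraMap K B) = algebraMap K C := by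
    ext c
    exact i.commutes c
  have e1 : ∀ t : B, val (algebraMap K C) (i t) (fun j => i (x j)) Λ =
      i (val (algebraMap K B) t x Λ) := by
    intro t
    have := val_map (i : B →+* C) (algebraMap K B) t x Λ
    rw [hi] at this
    exact this.symm
  have e2 : ∀ t : B, aeval t G = 0 → aeval (i t) G = 0 := by
    intro t ht
    rw [Polynomial.aeval_algHom_apply i t G, ht, map_zero]
  refine h (i θ) (i θ') (e2 θ h1) (e2 θ' h2) (fun h => hne (i.injective h)) (fun j => i (x j)) ?_
    (by rw [e1, g1, map_zero]) (by rw [e1, g2, map_zero]) ?_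
  · intro h
    apply hx
    funext j
    exact (_root_.map_eq_zero (i : B →+* C)).1 (congrFun h j)
  · have := eval_map' (i : B →+* C) (algebraMap K B) x Q
    rw [hi, g3, map_zero] at this
    exact this.symm

lemma val_base {L : Type y} [Field L] [Algebra K L] [Algebra L B] [IsScalarTower K L B] (θ : B)
    (x : Fin 3 → B) (Λ : MvPolynomial (Fin 3) K[X]) :
    val (algebraMap L B) θ x (MvPolynomial.map (mapRingHom (algebraMap K L)) Λ) =
      val (algebraMap K B) θ x Λ := by
  unfold val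
  rw [MvPolynomial.eval₂_map]
  congr 1
  apply Polynomial.ringHom_ext
  · intro c
    simp [IsScalarTower.algebraMap_apply K L B]
  · simp

lemma eval_base {L : Type y} [Field L] [Algebra K L] [Algebra L B] [IsScalarTower K L B]
    (x : Fin 3 → B) (Q : MvPolynomial (Fin 3) K) :
    MvPolynomial.eval₂ (algebraMap L B) x (MvPolynomial.map (algebraMap K L) Q) =
      MvPolynomial.eval₂ (algebraMap K B) x Q := by
  rw [MvPolynomial.eval₂_map, ← IsScalarTower.algebraMap_eq K L B]

end transfer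

section main

variable {K : Type u} [Field K] [CharZero K] {ℓ : ℕ} {G : K[X]} {L : Type y}
  [Field L] [Algebra K L] [FiniteDimensional K L]

/-- from norms for a subgroup to norms -/
lemma nm_of {A : Type w} [Field A] [Algebra L A] [Algebra K A]
    [IsScalarTower K L A] [IsAlgClosed A] [Algebra.IsAlgebraic L A] (hℓ : 1 < ℓ)
    (hL : Nat.Coprime ℓ (Module.finrank K L)) (hs : G.Separable)
    (hd : G.natDegree ≠ 0) (hfac : ∀ p : K[X], Irreducible p → p ∣ G → p.natDegree = ℓ) (a : K)
    (ha : a ≠ 0) (Γ : Subgroup (A ≃ₐ[L] A)) (hΓ : Nat.Coprime ℓ Γ.index)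
    (h : IsNm Γ (rts G) (algebraMap K A a)) : NmIn (AlgebraicClosure K) G a := by
  have halg : Algebra.IsAlgebraic K A := Algebra.IsAlgebraic.trans K L A
  have h1 : NmIn A G a := exists_poly hs (to_base hℓ hL hs hd hfac a ha Γ hΓ h)
  exact h1.map (IsAlgClosed.lift (R := K) (M := AlgebraicClosure K) (S := A))

omit [CharZero K] in
lemma stable {A : Type w} [Field A] [Algebra L A] [Algebra K A] [IsScalarTower K L A]
    (hG0 : G ≠ 0) (σ : A ≃ₐ[L] A) (θ : A) (hθ : θ ∈ (rts G : Finset A)) :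
    σ θ ∈ (rts G : Finset A) := by
  rw [mem_rts hG0] at hθ ⊢
  have h2 : aeval (σ θ) G = σ (aeval θ G) :=
    Polynomial.aeval_algHom_apply ((σ.restrictScalars K : A ≃ₐ[K] A) : A →ₐ[K] A) θ G
  rw [h2, hθ, map_zero]

omit [CharZero K] in
lemma rts_ne {A : Type w} [Field A] [Algebra K A] [IsAlgClosed A] (hs : G.Separable)
    (hd : G.natDegree ≠ 0) : (rts G : Finset A).Nonempty := by
  rw [← Finset.card_pos, card_rts hs]
  exact Nat.pos_of_ne_zero hd

/-- `M` contains the constants and the `ℓ`-th roots of the ratios of the conjugate forms -/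
def Level (L : Type y) {F : Type v} {Ω : Type w} [Field L] [Field F] [Field Ω] [Algebra K Ω]
    [Algebra L Ω] [Algebra F Ω] (G : K[X]) (Λ : MvPolynomial (Fin 3) K[X]) (ℓ : ℕ)
    (x : Fin 3 → Ω) (M : IntermediateField F Ω) : Prop :=
  (∀ c ∈ algebraicClosure L Ω, c ∈ M) ∧ ∀ θ θ' β : Ω, aeval θ G = 0 → aeval θ' G = 0 →
    val (algebraMap K Ω) θ' x Λ ≠ 0 →
      β ^ ℓ * val (algebraMap K Ω) θ' x Λ = val (algebraMap K Ω) θ x Λ → β ∈ M

/-- **No points and no sections.** -/
theorem both (hℓ : 1 < ℓ) (hn : Odd ℓ) (hL : Nat.Coprime ℓ (Module.finrank K L))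
    (hs : G.Separable) (hd : G.natDegree ≠ 0)
    (hfac : ∀ p : K[X], Irreducible p → p ∣ G → p.natDegree = ℓ)
    (hcase : ℓ.Prime ∨ ∀ p : K[X], Irreducible p → p ∣ G → IsCyclic p.Gal) (a : K)
    (ha : a ≠ 0) (hnot : ¬ NmIn (AlgebraicClosure K) G a)
    (Λ : MvPolynomial (Fin 3) K[X]) (e : ℕ) (hΛ : Λ.IsHomogeneous e)
    (Q : MvPolynomial (Fin 3) K) (q : ℕ) (hQ : Q.IsHomogeneous q)
    (hdeg : G.natDegree * e = ℓ * q) (hT : TrIn (AlgebraicClosure K) G Λ Q) :
    (∀ x : Fin 3 → L, x ≠ 0 →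
      ¬ Eqn G Λ a Q ℓ (fun j => algebraMap L (AlgebraicClosure L) (x j))) ∧
    ∀ (F : Type v) (Ω : Type w) [Field F] [Field Ω] [Algebra L F] [Algebra F Ω] [Algebra L Ω]
      [Algebra K Ω] [IsScalarTower L F Ω] [IsScalarTower K L Ω] [IsAlgClosure F Ω]
      (x : Fin 3 → F), x ≠ 0 → Eqn G Λ a Q ℓ (fun j => algebraMap F Ω (x j)) →
      (∀ M : IntermediateField F Ω, Level L G Λ ℓ (fun j => algebraMap F Ω (x j)) M →
        ∀ s : (algebraicClosure L Ω ≃ₐ[L] algebraicClosure L Ω) →* (M ≃ₐ[F] M), Continuous s →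
        (∀ σ (x : algebraicClosure L Ω) (y : M), (y : Ω) = x → ((s σ y : M) : Ω) = σ x) →
          False) ∧
      ∀ U : Set (ValuationSubring F), (∀ O ∈ U, ∀ c : L, algebraMap L F c ∈ O) →
        Level L G Λ ℓ (fun j => algebraMap F Ω (x j)) (unramified F Ω U) := by
  classical
  have hG0 : G ≠ 0 := hs.ne_zero
  have hczL : CharZero L := charZero_of_injective_algebraMap (algebraMap K L).injective
  have haL : algebraMap K L a ≠ 0 := (_root_.map_ne_zero _).2 ha
  set ΛL := MvPolynomial.map (mapRingHom (algebraMap K L)) Λ with hΛL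
  set QL := MvPolynomial.map (algebraMap K L) Q with hQL
  refine ⟨?_, ?_⟩
  · intro x hx hon
    apply hnot
    have halg : Algebra.IsAlgebraic K (AlgebraicClosure L) :=
      Algebra.IsAlgebraic.trans K L (AlgebraicClosure L)
    have hTA : TrIn (AlgebraicClosure L) G Λ Q :=
      hT.map (IsAlgClosed.lift (R := K) (M := AlgebraicClosure K) (S := AlgebraicClosure L))
    have h1 : IsNm (⊤ : Subgroup (AlgebraicClosure L ≃ₐ[L] AlgebraicClosure L)) (rts G)
        (algebraMap L (AlgebraicClosure L) (algebraMap K L a)) := by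
      refine pt hℓ (rts G) (rts_ne hs hd) (fun σ θ hθ => stable hG0 σ θ hθ) (cj L)
        (fun θ _ ρ => mem_cj) ?_ ΛL QL ?_ x hx (algebraMap K L a) haL ?_
      · intro θ hθ
        rw [card_cj]
        exact deg_root' hL hfac ((mem_rts hG0).1 hθ)
      · intro θ hθ θ' hθ' hne x hx g1 g2
        rw [hΛL, val_base] at g1 g2
        rw [hQL, eval_base]
        exact hTA θ θ' ((mem_rts hG0).1 hθ) ((mem_rts hG0).1 hθ') hne x hx g1 g2
      · rw [hQL, eval_base, prod_rts hs, ← IsScalarTower.algebraMap_apply]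
        rw [← hon]
        congr 1
        refine Multiset.map_congr rfl fun θ _ => ?_
        rw [hΛL, val_base]
    refine nm_of (L := L) (A := AlgebraicClosure L) hℓ hL hs hd hfac a ha ⊤ ?_ ?_
    · rw [Subgroup.index_top]
      exact Nat.coprime_one_right _
    · rw [← IsScalarTower.algebraMap_apply] at h1
      exact h1
  · intro F Ω _ _ _ _ _ _ _ _ _ x hx hon
    have hcl : IsAlgClosed Ω := IsAlgClosure.isAlgClosed F
    have halgF : Algebra.IsAlgebraic F Ω := IsAlgClosure.isAlgebraic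
    have hac : IsAlgClosure L (algebraicClosure L Ω) := inferInstance
    have hkb : IsAlgClosed (algebraicClosure L Ω) := hac.1
    have halg : Algebra.IsAlgebraic K (algebraicClosure L Ω) :=
      Algebra.IsAlgebraic.trans K L (algebraicClosure L Ω)
    have hTA : TrIn (algebraicClosure L Ω) G Λ Q :=
      hT.map (IsAlgClosed.lift (R := K) (M := AlgebraicClosure K) (S := algebraicClosure L Ω))
    have hTL : ∀ θ ∈ (rts G : Finset (algebraicClosure L Ω)), ∀ θ' ∈ rts G, θ ≠ θ' →
        ∀ x : Fin 3 → algebraicClosure L Ω, x ≠ 0 →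
        val (algebraMap L (algebraicClosure L Ω)) θ x ΛL = 0 →
        val (algebraMap L (algebraicClosure L Ω)) θ' x ΛL = 0 →
          MvPolynomial.eval₂ (algebraMap L (algebraicClosure L Ω)) x QL ≠ 0 := by
      intro θ hθ θ' hθ' hne x hx g1 g2
      rw [hΛL, val_base] at g1 g2
      rw [hQL, eval_base]
      exact hTA θ θ' ((mem_rts hG0).1 hθ) ((mem_rts hG0).1 hθ') hne x hx g1 g2
    have hrel : ∏ θ ∈ (rts G : Finset (algebraicClosure L Ω)),
        val (algebraMap L Ω) (θ : Ω) (fun i => algebraMap F Ω (x i)) ΛL =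
        algebraMap L Ω (algebraMap K L a) *
          MvPolynomial.eval₂ (algebraMap L Ω) (fun i => algebraMap F Ω (x i)) QL ^ ℓ := by
      rw [hQL, eval_base, prod_rts hs, ← IsScalarTower.algebraMap_apply]
      have hon' := hon
      unfold Eqn at hon'
      rw [← hon', roots_ext (algebraMap (algebraicClosure L Ω) Ω) (by
        ext c
        rfl), Multiset.map_map]
      congr 1
      refine Multiset.map_congr rfl fun θ _ => ?_
      rw [hΛL, val_base]
      rfl
    have hst : IsScalarTower K (algebraicClosure L Ω) Ω :=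
      IsScalarTower.of_algebraMap_eq (fun _ => rfl)
    have hcoe : ∀ θ : algebraicClosure L Ω, aeval (θ : Ω) G =
        ((aeval θ G : algebraicClosure L Ω) : Ω) :=
      fun θ => Polynomial.aeval_algHom_apply
        (IsScalarTower.toAlgHom K (algebraicClosure L Ω) Ω) θ G
    refine ⟨?_, ?_⟩
    · intro M hM s hsc hcomp
      apply hnot
      obtain ⟨Γ, hΓ, hcyc⟩ := exists_group (K := K) (L := L) (A := algebraicClosure L Ω) hℓ hL hs
        hfac hcase
      have h1 := secM M hM.1 s hsc hcomp hℓ hn (rts G) (rts_ne hs hd)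
        (fun σ θ hθ => stable hG0 σ θ hθ) (cj L) (fun θ _ ρ => mem_cj) (by
          intro θ hθ
          rw [card_cj]
          exact deg_root' hL hfac ((mem_rts hG0).1 hθ)) Γ hcyc ΛL QL hTL x hx
        (algebraMap K L a) haL (by
          intro θ hθ θ' hθ' h0 h0' β hβ
          rw [hΛL, val_base] at h0 h0'
          rw [hΛL, val_base, val_base] at hβ
          refine hM.2 θ θ' β ?_ ?_ h0' ?_
          · rw [hcoe, (mem_rts hG0).1 hθ]
            rfl
          · rw [hcoe, (mem_rts hG0).1 hθ']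
            rfl
          · rw [hβ, div_mul_cancel₀ _ h0']) hrel
      rw [← IsScalarTower.algebraMap_apply] at h1
      exact nm_of hℓ hL hs hd hfac a ha Γ hΓ h1
    · intro U hU
      refine ⟨fun c hc => const_unr U hU c hc, ?_⟩
      intro θ θ' β hθ hθ' h0' hβ
      have hmem : ∀ t : Ω, aeval t G = 0 → t ∈ algebraicClosure L Ω := by
        intro t ht
        have h1 : IsAlgebraic L t :=
          IsAlgebraic.tower_top L (⟨G, hG0, ht⟩ : IsAlgebraic K t)
        exact mem_algebraicClosure_iff.2 h1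
      by_cases h0 : val (algebraMap K Ω) θ (fun j => algebraMap F Ω (x j)) Λ = 0
      · rw [h0] at hβ
        have h1 : β = 0 := IsNilpotent.eq_zero ⟨ℓ, (mul_eq_zero.1 hβ).resolve_right h0'⟩
        rw [h1]
        exact zero_mem _
      · have hr : ∀ t (ht : aeval t G = 0), (⟨t, hmem t ht⟩ : algebraicClosure L Ω) ∈
            (rts G : Finset (algebraicClosure L Ω)) := by
          intro t ht
          rw [mem_rts hG0]
          apply Subtype.ext
          rw [← hcoe]
          exact ht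
        refine root_unr U hU hn.pos (rts G) ΛL e (hΛ.map _) QL q (hQ.map _) hTL x hx
          (by rw [card_rts hs]; exact hdeg) (algebraMap K L a) haL hrel ⟨θ, hmem θ hθ⟩
          ⟨θ', hmem θ' hθ'⟩ (hr θ hθ) (hr θ' hθ') ?_ ?_ β ?_
        · rw [hΛL, val_base]
          exact h0
        · rw [hΛL, val_base]
          exact h0'
        · rw [hΛL, val_base, val_base]
          exact eq_div_of_mul_eq h0' hβ

end main

section converse

variable {K : Type u} [Field K] [CharZero K] {G : K[X]}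

/-- a curve with a rational point -/
theorem converse {ℓ : ℕ} (hℓ : ℓ ≠ 0) (a : K)
    (h : NmIn (AlgebraicClosure K) G a) :
    ∃ (Λ : MvPolynomial (Fin 3) K[X]) (Q : MvPolynomial (Fin 3) K), Λ.IsHomogeneous ℓ ∧
      Q.IsHomogeneous G.natDegree ∧ TrIn (AlgebraicClosure K) G Λ Q ∧
      ∃ x : Fin 3 → K, x ≠ 0 ∧
        Eqn G Λ a Q ℓ (fun j => algebraMap K (AlgebraicClosure K) (x j)) := by
  classical
  obtain ⟨P, hP⟩ := h
  have hev : ∀ (θ : AlgebraicClosure K) (x : Fin 3 → AlgebraicClosure K),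
      val (algebraMap K (AlgebraicClosure K)) θ x
        (MvPolynomial.C P * MvPolynomial.X 0 ^ ℓ + MvPolynomial.X 1 ^ ℓ +
          MvPolynomial.C X * MvPolynomial.X 2 ^ ℓ) =
      aeval θ P * x 0 ^ ℓ + x 1 ^ ℓ + θ * x 2 ^ ℓ := by
    intro θ x
    unfold val
    simp [Polynomial.aeval_def]
  refine ⟨MvPolynomial.C P * MvPolynomial.X 0 ^ ℓ + MvPolynomial.X 1 ^ ℓ +
    MvPolynomial.C X * MvPolynomial.X 2 ^ ℓ, MvPolynomial.X 0 ^ G.natDegree, ?_, ?_, ?_,
    ![1, 0, 0], ?_, ?_⟩
  · have h1 : ∀ (c : K[X]) (i : Fin 3),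
        (MvPolynomial.C c * MvPolynomial.X i ^ ℓ : MvPolynomial (Fin 3) K[X]).IsHomogeneous ℓ := by
      intro c i
      have := (MvPolynomial.isHomogeneous_C (Fin 3) c).mul
        ((MvPolynomial.isHomogeneous_X K[X] i).pow ℓ)
      simpa using this
    have h2 : (MvPolynomial.X 1 ^ ℓ : MvPolynomial (Fin 3) K[X]).IsHomogeneous ℓ := by
      have := (MvPolynomial.isHomogeneous_X K[X] (1 : Fin 3)).pow ℓ
      simpa using this
    exact ((h1 P 0).add h2).add (h1 X 2)
  · have := (MvPolynomial.isHomogeneous_X K (0 : Fin 3)).pow G.natDegree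
    simpa using this
  · intro θ θ' _ _ hne x hx h1 h2 h3
    rw [hev] at h1 h2
    rw [MvPolynomial.eval₂_pow, MvPolynomial.eval₂_X] at h3
    have h0 : x 0 = 0 := IsNilpotent.eq_zero ⟨_, h3⟩
    rw [h0, zero_pow hℓ, mul_zero, zero_add] at h1 h2
    have h4 : (θ - θ') * x 2 ^ ℓ = 0 := by linear_combination h1 - h2
    have h5 : x 2 = 0 := IsNilpotent.eq_zero ⟨ℓ, (mul_eq_zero.1 h4).resolve_left (sub_ne_zero.2 hne)⟩
    rw [h5, zero_pow hℓ, mul_zero, add_zero] at h1
    have h6 : x 1 = 0 := IsNilpotent.eq_zero ⟨ℓ, h1⟩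
    apply hx
    funext i
    fin_cases i
    · exact h0
    · exact h6
    · exact h5
  · intro h
    have := congrFun h 0
    exact one_ne_zero this
  · unfold Eqn
    simp only [hev]
    rw [MvPolynomial.eval₂_pow, MvPolynomial.eval₂_X]
    have e1 : (fun θ : AlgebraicClosure K => aeval θ P *
        algebraMap K (AlgebraicClosure K) ((![1, 0, 0] : Fin 3 → K) 0) ^ ℓ +
        algebraMap K (AlgebraicClosure K) ((![1, 0, 0] : Fin 3 → K) 1) ^ ℓ +
        θ * algebraMap K (AlgebraicClosure K) ((![1, 0, 0] : Fin 3 → K) 2) ^ ℓ) =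
        fun θ => aeval θ P := by
      funext θ
      simp [hℓ]
    rw [e1, hP]
    simp

end converse

end Pool.Agent.U190.SN
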