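import Pool.Agent.U190.SN.Both

/-!
# Forms of degree divisible by the exponent
-/

set_option autoImplicit false

namespace Pool.Agent.U190.SN

open Pool.Agent.W620.SC Pool.Agent.W623.SecC Pool.Agent.TH120.Sec Finset IntermediateField Polynomial

universe u v w y

section prin

variable {k A M : Type*} [Field k] [Field A] [Field M] [Algebra k A] (D : SDat k A M)

/-- one orbit -/
theorem orbit_norm_div [CharZero k] [IsAlgClosed A] [Algebra.IsAlgebraic k A] {ℓ : ℕ} (hℓ : 0 < ℓ)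
    (O : Finset A) (θ : A) (horb : ∀ ρ, ρ ∈ O ↔ ∃ σ : A ≃ₐ[k] A, σ θ = ρ)
    (lam : A → M) (h0 : lam θ ≠ 0) (hlam : ∀ σ : A ≃ₐ[k] A, D.s σ (lam θ) = lam (σ θ))
    (α : M) (hα : α ^ ℓ = lam θ) :
    ∃ (w : A → A) (m : M), (∀ ρ ∈ O, w ρ ≠ 0) ∧
      (∀ σ : A ≃ₐ[k] A, ∀ ρ ∈ O, w (σ ρ) = σ (w ρ)) ∧ m ≠ 0 ∧
      (∀ σ : A ≃ₐ[k] A, D.s σ m = m) ∧
      ∏ ρ ∈ O, lam ρ = D.ι (∏ ρ ∈ O, w ρ) * m ^ ℓ := by
  classical
  have hac : IsAlgClosure k A := ⟨inferInstance, inferInstance⟩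
  have hnorm : Normal k A := IsAlgClosure.normal k A
  set H : Subgroup (A ≃ₐ[k] A) := MulAction.stabilizer (A ≃ₐ[k] A) θ with hH
  have hHm : ∀ σ : A ≃ₐ[k] A, σ ∈ H ↔ σ θ = θ := fun σ => Iff.rfl
  have hα0 : α ≠ 0 := by
    rintro rfl
    rw [zero_pow hℓ.ne'] at hα
    exact h0 hα.symm
  obtain ⟨E, hE, hE'⟩ := D.cont α
  obtain ⟨β, hβ0, hβ⟩ := exists_fixed_multiple D.s D.ι D.hι H α hα0 (by
    intro σ hσ
    have h1 : (D.s σ α / α) ^ ℓ = D.ι 1 := by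
      rw [div_pow, ← map_pow, hα, hlam σ, (hHm σ).1 hσ, div_self h0, map_one]
    obtain ⟨ζ, hζ⟩ := root_mem D.ι hℓ h1
    exact ⟨ζ, by rw [hζ, div_mul_cancel₀ _ hα0]⟩) E hE'
  set γ : M := D.ι β * α with hγ
  have hγ0 : γ ≠ 0 := mul_ne_zero ((_root_.map_ne_zero _).2 hβ0) hα0
  set c : A := (β ^ ℓ)⁻¹ with hc
  have hc0 : c ≠ 0 := inv_ne_zero (pow_ne_zero _ hβ0)
  have hlc : lam θ = D.ι c * γ ^ ℓ := by
    have h1 : D.ι β ^ ℓ ≠ 0 := pow_ne_zero _ ((_root_.map_ne_zero _).2 hβ0)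
    rw [hc, hγ, map_inv₀, map_pow, mul_pow, hα]
    field_simp
  have hcfix : ∀ σ ∈ H, σ c = c := by
    intro σ hσ
    apply D.ι.injective
    rw [← D.hι]
    have h1 : D.ι c = lam θ / γ ^ ℓ := by
      rw [hlc, mul_div_cancel_right₀ _ (pow_ne_zero _ hγ0)]
    rw [h1, map_div₀, map_pow, hlam σ, (hHm σ).1 hσ, hβ σ hσ]
  have hex : ∀ ρ, ρ ∈ O → ∃ σ : A ≃ₐ[k] A, σ θ = ρ := fun ρ hρ => (horb ρ).1 hρ
  choose! g hg using hex
  have hstab : ∀ σ : A ≃ₐ[k] A, ∀ ρ ∈ O, σ ρ ∈ O := by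
    intro σ ρ hρ
    refine (horb _).2 ⟨σ * g ρ, ?_⟩
    change σ (g ρ θ) = σ ρ
    rw [hg ρ hρ]
  have hdiff : ∀ σ : A ≃ₐ[k] A, ∀ ρ ∈ O, (σ * g ρ)⁻¹ * g (σ ρ) ∈ H := by
    intro σ ρ hρ
    rw [hHm]
    change (σ * g ρ)⁻¹ (g (σ ρ) θ) = θ
    rw [hg _ (hstab σ ρ hρ)]
    have h1 : (σ * g ρ) θ = σ ρ := by
      change σ (g ρ θ) = σ ρ
      rw [hg ρ hρ]
    rw [← h1]
    exact (σ * g ρ).symm_apply_apply θ
  have hdec : ∀ σ : A ≃ₐ[k] A, ∀ ρ : A, g (σ ρ) = (σ * g ρ) * ((σ * g ρ)⁻¹ * g (σ ρ)) := by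
    intro σ ρ
    group
  have hwc : ∀ σ : A ≃ₐ[k] A, ∀ ρ ∈ O, g (σ ρ) c = σ (g ρ c) := by
    intro σ ρ hρ
    conv_lhs => rw [hdec σ ρ]
    change (σ * g ρ) (((σ * g ρ)⁻¹ * g (σ ρ)) c) = _
    rw [hcfix _ (hdiff σ ρ hρ)]
    rfl
  have hwγ : ∀ σ : A ≃ₐ[k] A, ∀ ρ ∈ O, D.s (g (σ ρ)) γ = D.s σ (D.s (g ρ) γ) := by
    intro σ ρ hρ
    have h2 : ∀ a b : A ≃ₐ[k] A, D.s (a * b) γ = D.s a (D.s b γ) := by
      intro a b
      rw [D.s.map_mul]
      rfl
    conv_lhs => rw [hdec σ ρ]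
    rw [h2, hβ _ (hdiff σ ρ hρ), h2]
  refine ⟨fun ρ => g ρ c, ∏ ρ ∈ O, D.s (g ρ) γ, ?_, hwc, ?_, ?_, ?_⟩
  · intro ρ _
    exact (_root_.map_ne_zero _).2 hc0
  · exact Finset.prod_ne_zero_iff.2 fun ρ _ => (_root_.map_ne_zero _).2 hγ0
  · intro σ
    rw [map_prod]
    refine Finset.prod_bij (fun ρ _ => σ ρ) (fun ρ hρ => hstab σ ρ hρ)
      (fun ρ _ ρ' _ h => σ.injective h) ?_ (fun ρ hρ => (hwγ σ ρ hρ).symm)
    intro ρ hρ
    exact ⟨σ⁻¹ ρ, hstab _ ρ hρ, σ.apply_symm_apply ρ⟩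
  · rw [map_prod, ← Finset.prod_pow, ← Finset.prod_mul_distrib]
    refine Finset.prod_congr rfl fun ρ hρ => ?_
    have h1 : lam ρ = D.s (g ρ) (lam θ) := by rw [hlam, hg ρ hρ]
    rw [h1, hlc, map_mul, map_pow, D.hι]

/-- the norm principle, if the functions are powers -/
theorem norm_principle_div [CharZero k] [IsAlgClosed A] [Algebra.IsAlgebraic k A] {ℓ : ℕ}
    (hn : 0 < ℓ) (R : Finset A) (hRne : R.Nonempty)
    (hR : ∀ σ : A ≃ₐ[k] A, ∀ θ ∈ R, σ θ ∈ R)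
    (orb : A → Finset A) (horb : ∀ θ ∈ R, ∀ ρ, ρ ∈ orb θ ↔ ∃ σ : A ≃ₐ[k] A, σ θ = ρ)
    (hcard : ∀ θ ∈ R, (orb θ).card = ℓ)
    (lam : A → M) (h0 : ∀ ρ ∈ R, lam ρ ≠ 0)
    (hlam : ∀ σ : A ≃ₐ[k] A, ∀ ρ ∈ R, D.s σ (lam ρ) = lam (σ ρ))
    (hroot : ∀ ρ ∈ R, ∃ α : M, α ^ ℓ = lam ρ)
    (a : A) (ha0 : a ≠ 0) (y : M) (hy0 : y ≠ 0)
    (hy : ∀ σ, D.s σ y = y) (heq : ∏ ρ ∈ R, lam ρ = D.ι a * y ^ ℓ) :
    IsNm (⊤ : Subgroup (A ≃ₐ[k] A)) R a := by
  classical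
  set Γ : Subgroup (A ≃ₐ[k] A) := ⊤ with hΓ
  have htop : ∀ σ : A ≃ₐ[k] A, σ ∈ Γ := fun σ => Subgroup.mem_top σ
  have horbR : ∀ θ ∈ R, orb θ ⊆ R := by
    intro θ hθ ρ hρ
    obtain ⟨σ, rfl⟩ := (horb θ hθ ρ).1 hρ
    exact hR σ θ hθ
  have hself : ∀ θ ∈ R, θ ∈ orb θ := fun θ hθ => (horb θ hθ θ).2 ⟨1, rfl⟩
  have horbeq : ∀ θ ∈ R, ∀ ρ ∈ orb θ, orb ρ = orb θ := by
    intro θ hθ ρ hρ
    obtain ⟨σ, rfl⟩ := (horb θ hθ ρ).1 hρ
    ext x
    rw [horb _ (horbR θ hθ hρ), horb θ hθ]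
    constructor
    · rintro ⟨g, rfl⟩
      exact ⟨g * σ, rfl⟩
    · rintro ⟨g, rfl⟩
      refine ⟨g * σ⁻¹, ?_⟩
      change g (σ⁻¹ (σ θ)) = g θ
      congr 1
      exact σ.symm_apply_apply θ
  have horbst : ∀ θ ∈ R, ∀ σ : A ≃ₐ[k] A, ∀ ρ ∈ orb θ, σ ρ ∈ orb θ := by
    intro θ hθ σ ρ hρ
    rw [← horbeq θ hθ ρ hρ]
    exact (horb ρ (horbR θ hθ hρ) _).2 ⟨σ, rfl⟩
  have hex : ∀ O ∈ R.image orb, ∃ (w : A → A) (m : M), (∀ ρ ∈ O, w ρ ≠ 0) ∧
      (∀ σ ∈ Γ, ∀ ρ ∈ O, w (σ ρ) = σ (w ρ)) ∧ m ≠ 0 ∧ (∀ σ ∈ Γ, D.s σ m = m) ∧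
      ∏ ρ ∈ O, lam ρ = D.ι (∏ ρ ∈ O, w ρ) * m ^ ℓ := by
    intro O hO
    obtain ⟨θ, hθ, rfl⟩ := Finset.mem_image.1 hO
    obtain ⟨α, hα⟩ := hroot θ hθ
    obtain ⟨w, m, g1, g2, g3, g4, g5⟩ := orbit_norm_div D hn (orb θ) θ (horb θ hθ) lam (h0 θ hθ)
      (fun σ => hlam σ θ hθ) α hα
    exact ⟨w, m, g1, fun σ _ => g2 σ, g3, fun σ _ => g4 σ, g5⟩
  choose! W mm hW0 hWΓ hm0 hmΓ hWeq using hex
  have hfib : ∀ θ ∈ R, ∀ ρ, ρ ∈ orb θ ↔ ρ ∈ R ∧ orb ρ = orb θ := by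
    intro θ hθ ρ
    constructor
    · intro hρ
      exact ⟨horbR θ hθ hρ, horbeq θ hθ ρ hρ⟩
    · rintro ⟨hρ, h⟩
      rw [← h]
      exact hself ρ hρ
  set w : A → A := fun ρ => W (orb ρ) ρ with hw
  have hwO : ∀ O ∈ R.image orb, ∀ ρ ∈ O, w ρ = W O ρ := by
    intro O hO ρ hρ
    obtain ⟨θ, hθ, rfl⟩ := Finset.mem_image.1 hO
    rw [hw]
    simp only
    rw [horbeq θ hθ ρ hρ]
  have hNw : IsNm Γ R (∏ ρ ∈ R, w ρ) := by
    refine ⟨w, ?_, ?_, rfl⟩
    · intro ρ hρ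
      exact hW0 _ (Finset.mem_image_of_mem orb hρ) ρ (hself ρ hρ)
    · intro σ hσ ρ hρ
      have h1 : orb (σ ρ) = orb ρ := horbeq ρ hρ _ ((horb ρ hρ _).2 ⟨σ, rfl⟩)
      rw [hw]
      simp only
      rw [h1]
      exact hWΓ _ (Finset.mem_image_of_mem orb hρ) σ hσ ρ (hself ρ hρ)
  set m : M := ∏ O ∈ R.image orb, mm O with hm
  have hmne : m ≠ 0 := Finset.prod_ne_zero_iff.2 fun O hO => hm0 O hO
  have hmfix : ∀ σ ∈ Γ, D.s σ m = m := by
    intro σ hσ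
    rw [hm, map_prod]
    exact Finset.prod_congr rfl fun O hO => hmΓ O hO σ hσ
  have htot : ∏ ρ ∈ R, lam ρ = D.ι (∏ ρ ∈ R, w ρ) * m ^ ℓ := by
    rw [prod_fib R orb hfib lam, prod_fib R orb hfib w, map_prod, hm, ← Finset.prod_pow, ← Finset.prod_mul_distrib]
    refine Finset.prod_congr rfl fun O hO => ?_
    rw [hWeq O hO]
    congr 2
    exact Finset.prod_congr rfl fun ρ hρ => (hwO O hO ρ hρ).symm
  have hιa : D.ι a ≠ 0 := (_root_.map_ne_zero _).2 ha0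
  have hq : (y / m) ^ ℓ = D.ι ((∏ ρ ∈ R, w ρ) / a) := by
    rw [div_pow, map_div₀, div_eq_div_iff (pow_ne_zero _ hmne) hιa]
    rw [heq] at htot
    rw [mul_comm, htot]
  obtain ⟨c, hc⟩ := root_mem D.ι hn hq
  have hc0 : c ≠ 0 := by
    rintro rfl
    rw [map_zero] at hc
    exact div_ne_zero hy0 hmne hc.symm
  have hcfix : ∀ σ ∈ Γ, σ c = c := by
    intro σ hσ
    apply D.ι.injective
    rw [← D.hι, hc, map_div₀, hy, hmfix σ hσ]
  have hcℓ : c ^ ℓ = (∏ ρ ∈ R, w ρ) / a := by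
    apply D.ι.injective
    rw [map_pow, hc, hq]
  obtain ⟨θ0, hθ0⟩ := hRne
  have hNc : IsNm Γ R (c ^ ℓ) := by
    rw [← hcard θ0 hθ0]
    exact IsNm.orbit (horbR θ0 hθ0) (fun σ _ => horbst θ0 hθ0 σ) c hc0 hcfix
  have h1 : a = (∏ ρ ∈ R, w ρ) * (c ^ ℓ)⁻¹ := by
    rw [hcℓ, inv_div, mul_div_assoc', mul_comm, mul_div_assoc, div_self, mul_one]
    intro h
    rw [h, zero_div] at hcℓ
    exact pow_ne_zero _ hc0 hcℓ
  rw [h1]
  exact hNw.mul hNc.inv

end prin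

/-- **Sections.** -/
theorem secD {k : Type u} {F : Type v} {Ω : Type w} [Field k] [Field F] [Field Ω]
    [Algebra k F] [Algebra F Ω] [Algebra k Ω] [IsScalarTower k F Ω] [CharZero k] [IsAlgClosed Ω]
    [Algebra.IsAlgebraic F Ω]
    (M : IntermediateField F Ω) (hM : ∀ c ∈ algebraicClosure k Ω, c ∈ M)
    (s : (algebraicClosure k Ω ≃ₐ[k] algebraicClosure k Ω) →* (M ≃ₐ[F] M)) (hs : Continuous s)
    (hcomp : ∀ σ (x : algebraicClosure k Ω) (y : M), (y : Ω) = x → ((s σ y : M) : Ω) = σ x)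
    {ℓ : ℕ} (hℓ : 1 < ℓ)
    (R : Finset (algebraicClosure k Ω)) (hRne : R.Nonempty)
    (hR : ∀ σ : algebraicClosure k Ω ≃ₐ[k] algebraicClosure k Ω, ∀ θ ∈ R, σ θ ∈ R)
    (orb : algebraicClosure k Ω → Finset (algebraicClosure k Ω))
    (horb : ∀ θ ∈ R, ∀ ρ, ρ ∈ orb θ ↔
      ∃ σ : algebraicClosure k Ω ≃ₐ[k] algebraicClosure k Ω, σ θ = ρ)
    (hcard : ∀ θ ∈ R, (orb θ).card = ℓ)
    (P : MvPolynomial (Fin 3) (Polynomial k)) (Q : MvPolynomial (Fin 3) k)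
    (hT : ∀ θ ∈ R, ∀ θ' ∈ R, θ ≠ θ' → ∀ x : Fin 3 → algebraicClosure k Ω, x ≠ 0 →
      val (algebraMap k (algebraicClosure k Ω)) θ x P = 0 →
      val (algebraMap k (algebraicClosure k Ω)) θ' x P = 0 →
        MvPolynomial.eval₂ (algebraMap k (algebraicClosure k Ω)) x Q ≠ 0)
    (x : Fin 3 → F) (hx : x ≠ 0) (a : k) (ha : a ≠ 0)
    (hroot : ∀ θ ∈ R, ∀ β : Ω,
      β ^ ℓ = val (algebraMap k Ω) (θ : Ω) (fun i => algebraMap F Ω (x i)) P → β ∈ M)
    (hrel : ∏ θ ∈ R, val (algebraMap k Ω) (θ : Ω) (fun i => algebraMap F Ω (x i)) P =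
      algebraMap k Ω a *
        MvPolynomial.eval₂ (algebraMap k Ω) (fun i => algebraMap F Ω (x i)) Q ^ ℓ) :
    IsNm (⊤ : Subgroup (algebraicClosure k Ω ≃ₐ[k] algebraicClosure k Ω)) R
      (algebraMap k (algebraicClosure k Ω) a) := by
  classical
  have hac : IsAlgClosure k (algebraicClosure k Ω) := inferInstance
  have hA : IsAlgClosed (algebraicClosure k Ω) := hac.1
  set j : algebraicClosure k Ω →+* Ω := algebraMap (algebraicClosure k Ω) Ω with hj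
  set g : k →+* algebraicClosure k Ω := algebraMap k (algebraicClosure k Ω) with hg
  have hjg : j.comp g = algebraMap k Ω := rfl
  set x' : Fin 3 → Ω := fun i => algebraMap F Ω (x i) with hx'
  have hx'0 : x' ≠ 0 := by
    intro h
    apply hx
    funext i
    exact (_root_.map_eq_zero _).1 (congrFun h i)
  have ha0 : g a ≠ 0 := (_root_.map_ne_zero _).2 ha
  have horbR : ∀ θ ∈ R, orb θ ⊆ R := by
    intro θ hθ ρ hρ
    obtain ⟨σ, rfl⟩ := (horb θ hθ ρ).1 hρ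
    exact hR σ θ hθ
  set D := mkM M hM s hs hcomp with hD
  set jM : M →+* Ω := algebraMap M Ω with hjM
  set xM : Fin 3 → M := fun i => algebraMap F M (x i) with hxM
  set lam : algebraicClosure k Ω → M := fun ρ => val (D.ι.comp g) (D.ι ρ) xM P with hlam
  have hval : ∀ ρ, jM (lam ρ) = val (j.comp g) (j ρ) x' P := fun ρ =>
    val_map jM (D.ι.comp g) (D.ι ρ) xM P
  have hfixF : ∀ (σ) (z : F), D.s σ (algebraMap F M z) = algebraMap F M z :=
    fun σ z => (s σ).commutes z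
  have hact : ∀ σ ρ, D.s σ (lam ρ) = lam (σ ρ) := by
    intro σ ρ
    have e1 := val_map ((D.s σ : M ≃+* M) : M →+* M) (D.ι.comp g) (D.ι ρ) xM P
    have e2 : ((D.s σ : M ≃+* M) : M →+* M).comp (D.ι.comp g) = D.ι.comp g := by
      ext c : 1
      change D.s σ (D.ι (g c)) = D.ι (g c)
      rw [D.hι, hg, σ.commutes]
    have e3 : (fun i => ((D.s σ : M ≃+* M) : M →+* M) (xM i)) = xM :=
      funext fun i => hfixF σ (x i)
    rw [e2, e3] at e1
    have e4 : ((D.s σ : M ≃+* M) : M →+* M) (D.ι ρ) = D.ι (σ ρ) := D.hι σ ρ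
    rw [e4] at e1
    exact e1
  have hne' : ∀ θ ∈ R, val (j.comp g) (j θ) x' P ≠ 0 := by
    refine form_ne j hℓ R orb horb horbR hcard P Q hT x' hx'0 (g a) ha0 hrel ?_
    intro θ _ h0 σ
    rw [← hval] at h0 ⊢
    rw [← hact]
    have h1 : lam θ = 0 := (_root_.map_eq_zero jM).1 h0
    rw [h1, map_zero, map_zero]
  have hne0 : ∀ θ ∈ R, lam θ ≠ 0 := by
    intro θ hθ h
    apply hne' θ hθ
    rw [← hval, h, map_zero]
  have hQ0 : MvPolynomial.eval₂ (j.comp g) x' Q ≠ 0 := by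
    intro h
    have h1 : ∏ θ ∈ R, val (j.comp g) (j θ) x' P ≠ 0 := Finset.prod_ne_zero_iff.2 hne'
    apply h1
    have h2 : ∏ θ ∈ R, val (j.comp g) (j θ) x' P = j (g a) *
      MvPolynomial.eval₂ (j.comp g) x' Q ^ ℓ := hrel
    rw [h2, h, zero_pow (by omega), mul_zero]
  have hQx : algebraMap F Ω (MvPolynomial.eval₂ (algebraMap k F) x Q) =
      MvPolynomial.eval₂ (j.comp g) x' Q := by
    rw [eval_map', ← IsScalarTower.algebraMap_eq k F Ω]
    rfl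
  refine norm_principle_div D (by omega) R hRne hR orb horb hcard lam hne0 (fun σ ρ _ => hact σ ρ) ?_
    (g a) ha0 (algebraMap F M (MvPolynomial.eval₂ (algebraMap k F) x Q)) ?_
    (fun σ => hfixF σ _) ?_
  · intro ρ hρ
    obtain ⟨β, hβ⟩ := IsAlgClosed.exists_pow_nat_eq (val (j.comp g) (j ρ) x' P)
      (show 0 < ℓ by omega)
    refine ⟨⟨β, hroot ρ hρ β hβ⟩, ?_⟩
    apply jM.injective
    rw [map_pow, hval]
    exact hβ
  · intro h
    apply hQ0
    rw [← hQx]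
    rw [(_root_.map_eq_zero _).1 h, map_zero]
  · apply jM.injective
    rw [map_mul, map_pow, map_prod, Finset.prod_congr rfl fun ρ _ => hval ρ]
    change _ = j (g a) * (algebraMap F Ω (MvPolynomial.eval₂ (algebraMap k F) x Q)) ^ ℓ
    rw [hQx]
    exact hrel

/-- the abstract statement on single functions -/
lemma single_abs {Ω X : Type*} [Field Ω] [DecidableEq X] (W : ValuationSubring Ω) (R : Finset X)
    (Λ : X → Ω) (hΛW : ∀ i ∈ R, Λ i ∈ W) (q c : Ω) (hqW : q ∈ W) (hc : IsU W c) (ℓ : ℕ)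
    (hrel : c * q ^ ℓ = ∏ i ∈ R, Λ i)
    (htwo : ∀ i ∈ R, ∀ i' ∈ R, i ≠ i' → Λ i ∈ W.nonunits → Λ i' ∈ W.nonunits → q ∉ W.nonunits)
    (i : X) (hi : i ∈ R) (hi0 : Λ i ≠ 0) :
    ∃ n : ℕ, (n = 0 ∨ q ≠ 0) ∧ IsU W (Λ i / (q ^ n) ^ ℓ) := by
  by_cases hni : Λ i ∈ W.nonunits
  · have hother : ∀ l' ∈ R, l' ≠ i → IsU W (Λ l') := by
      intro l' hl' hne
      by_contra h
      have h1 : Λ l' ∈ W.nonunits := by
        by_contra h2
        exact h (isU_of_not_nonunit (hΛW l' hl') h2)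
      refine htwo l' hl' i hi hne h1 hni ?_
      by_contra h2
      have h4 : IsU W (c * q ^ ℓ) := hc.mul ((isU_of_not_nonunit hqW h2).pow _)
      rw [hrel, ← Finset.mul_prod_erase R Λ hi] at h4
      refine h4.not_nonunit ?_
      rw [mul_comm]
      exact nonunit_mul (prod_mem fun l hl => hΛW l (Finset.mem_of_mem_erase hl)) hni
    have hP : IsU W (∏ l' ∈ R.erase i, Λ l') :=
      IsU.prod _ _ fun l' hl' => hother l' (Finset.mem_of_mem_erase hl')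
        (Finset.ne_of_mem_erase hl')
    have h1 : c * q ^ ℓ = Λ i * ∏ l' ∈ R.erase i, Λ l' := by
      rw [hrel, Finset.mul_prod_erase R Λ hi]
    by_cases hℓ : ℓ = 0
    · subst hℓ
      exfalso
      rw [pow_zero, mul_one] at h1
      refine hc.not_nonunit ?_
      rw [h1, mul_comm]
      exact nonunit_mul hP.2.1 hni
    have hq0 : q ≠ 0 := by
      intro h
      rw [h, zero_pow hℓ, mul_zero] at h1
      exact mul_ne_zero hi0 hP.1 h1.symm
    refine ⟨1, Or.inr hq0, ?_⟩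
    rw [pow_one]
    have h2 : Λ i / q ^ ℓ = c / ∏ l' ∈ R.erase i, Λ l' := by
      rw [div_eq_div_iff (pow_ne_zero _ hq0) hP.1]
      exact h1.symm
    rw [h2]
    exact hc.div hP
  · refine ⟨0, Or.inl rfl, ?_⟩
    rw [pow_zero, one_pow, div_one]
    exact isU_of_not_nonunit (hΛW i hi) hni

/-- the conjugate forms are `ℓ`-th powers up to units at all places -/
theorem single_form {k Ω A : Type*} [CommRing k] [Field Ω] [Field A] [IsAlgClosed A]
    [DecidableEq A] (f : k →+* A)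
    (j : A →+* Ω) (W : ValuationSubring Ω) (hW : ∀ c, j c ∈ W) (R : Finset A)
    (P : MvPolynomial (Fin 3) (Polynomial k)) (e : ℕ) (hP : P.IsHomogeneous e)
    (Q : MvPolynomial (Fin 3) k) (q : ℕ) (hQ : Q.IsHomogeneous q)
    (hT : ∀ θ ∈ R, ∀ θ' ∈ R, θ ≠ θ' → ∀ x : Fin 3 → A, x ≠ 0 → val f θ x P = 0 →
      val f θ' x P = 0 → MvPolynomial.eval₂ f x Q ≠ 0)
    (x : Fin 3 → Ω) (hx : x ≠ 0) (ℓ : ℕ) (hℓ : 0 < ℓ) (hdeg : R.card * e = ℓ * q)
    (a : A) (ha : a ≠ 0)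
    (hrel : ∏ θ ∈ R, val (j.comp f) (j θ) x P = j a * MvPolynomial.eval₂ (j.comp f) x Q ^ ℓ)
    (e' : ℕ) (he' : e = e' * ℓ) (θ : A) (hθ : θ ∈ R)
    (h0 : val (j.comp f) (j θ) x P ≠ 0) :
    ∃ (t : Ω) (k0 : Fin 3) (n : ℕ),
      t = x k0 ^ e' * (MvPolynomial.eval₂ (j.comp f) x Q / x k0 ^ q) ^ n ∧ t ≠ 0 ∧
      val (j.comp f) (j θ) x P / t ^ ℓ ∈ W ∧ t ^ ℓ / val (j.comp f) (j θ) x P ∈ W := by
  classical
  obtain ⟨k0, hk0⟩ := Finite.exists_max (fun k => W.valuation (x k))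
  have hxk0 : x k0 ≠ 0 := by
    intro h
    apply hx
    funext k
    have h1 := hk0 k
    simp only [h, map_zero, le_zero_iff, map_eq_zero] at h1
    exact h1
  set u : Fin 3 → Ω := fun k => x k / x k0 with hu
  have huW : ∀ k, u k ∈ W := by
    intro k
    rw [← W.valuation_le_one_iff, hu, map_div₀]
    exact div_le_one_of_le₀ (hk0 k) zero_le
  have hu1 : u k0 = 1 := div_self hxk0
  have hxu : x = fun k => x k0 * u k := by
    funext k
    rw [hu]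
    field_simp
  set Λ : A → Ω := fun t => val (j.comp f) (j t) u P with hΛ
  have hΛΛ : ∀ t, val (j.comp f) (j t) x P = x k0 ^ e * Λ t := by
    intro t
    conv_lhs => rw [hxu]
    exact val_smul _ _ _ P e hP _
  set q' : Ω := MvPolynomial.eval₂ (j.comp f) u Q with hq'
  have hqq : MvPolynomial.eval₂ (j.comp f) x Q = x k0 ^ q * q' := by
    conv_lhs => rw [hxu]
    exact Pool.Agent.TH377.NC.eval_smul _ Q q hQ _ _
  have hΛW : ∀ t ∈ R, Λ t ∈ W := fun t _ => val_mem W (j.comp f) (fun c => hW _) _ (hW _) u huW P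
  have hq'W : q' ∈ W := by
    rw [hq', MvPolynomial.eval₂_eq']
    exact sum_mem fun d _ => mul_mem (hW _) (prod_mem fun k _ => pow_mem (huW k) _)
  have hrel' : j a * q' ^ ℓ = ∏ t ∈ R, Λ t := by
    have h1 : ∏ t ∈ R, val (j.comp f) (j t) x P = x k0 ^ (ℓ * q) * ∏ t ∈ R, Λ t := by
      rw [Finset.prod_congr rfl fun t _ => hΛΛ t, Finset.prod_mul_distrib, Finset.prod_const,
        ← hdeg, mul_comm R.card e, pow_mul]
    rw [h1, hqq] at hrel
    have h3 : (x k0 ^ (ℓ * q)) ≠ 0 := pow_ne_zero _ hxk0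
    apply mul_left_cancel₀ h3
    rw [hrel, mul_pow, ← pow_mul, mul_comm q ℓ]
    ring
  have hres : ∀ t t', t ∈ R → t' ∈ R → t ≠ t' → Λ t ∈ W.nonunits → Λ t' ∈ W.nonunits →
      q' ∉ W.nonunits := by
    intro t t' ht ht' hne h1 h2 h3
    let jW : A →+* W := j.codRestrict W.toSubring hW
    let ρ : W →+* IsLocalRing.ResidueField W := IsLocalRing.residue W
    let û : Fin 3 → W := fun i => ⟨u i, huW i⟩
    have hnon : ∀ x : W, (x : Ω) ∈ W.nonunits → ρ x = 0 := by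
      intro x hx
      obtain ⟨hx1, hx2⟩ := (W.mem_nonunits_iff_exists_mem_maximalIdeal).1 hx
      exact (IsLocalRing.residue_eq_zero_iff x).2 hx2
    have hval : ∀ t, ((val (jW.comp f) (jW t) û P : W) : Ω) = Λ t := by
      intro t
      have e1 := val_map W.subtype (jW.comp f) (jW t) û P
      exact e1
    have hρ : ∀ t, Λ t ∈ W.nonunits → val ((ρ.comp jW).comp f) ((ρ.comp jW) t)
        (fun i => ρ (û i)) P = 0 := by
      intro t ht
      have e1 := val_map ρ (jW.comp f) (jW t) û P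
      have e2 : ρ (val (jW.comp f) (jW t) û P) = 0 := hnon _ (by rw [hval]; exact ht)
      rw [e2] at e1
      exact e1.symm
    have hu0 : (fun i => ρ (û i)) ≠ 0 := by
      intro h
      have h1 := congrFun h k0
      have h2 : û k0 = 1 := Subtype.ext hu1
      simp only [h2, map_one, Pi.zero_apply] at h1
      exact one_ne_zero h1
    refine null_val f (ρ.comp jW) P Q t t' (hT t ht t' ht' hne) (fun i => ρ (û i)) hu0
      (hρ t h1) (hρ t' h2) ?_
    have e1 := eval_map' ρ (jW.comp f) û Q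
    have e2 : ((MvPolynomial.eval₂ (jW.comp f) û Q : W) : Ω) = q' :=
      eval_map' W.subtype (jW.comp f) û Q
    have e3 : ρ (MvPolynomial.eval₂ (jW.comp f) û Q) = 0 := hnon _ (by rw [e2]; exact h3)
    rw [e3] at e1
    exact e1.symm
  have hja : IsU W (j a) := ⟨(_root_.map_ne_zero j).2 ha, hW a, by rw [← map_inv₀]; exact hW _⟩
  have hne : ∀ t, val (j.comp f) (j t) x P ≠ 0 → Λ t ≠ 0 := by
    intro t ht h
    rw [hΛΛ, h, mul_zero] at ht
    exact ht rfl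
  obtain ⟨n, hn, hU⟩ := single_abs W R Λ hΛW q' (j a) hq'W hja ℓ hrel'
    (fun i hi i' hi' hne h1 h2 => hres i i' hi hi' hne h1 h2) θ hθ (hne θ h0)
  have hq0 : q' ^ n ≠ 0 := by
    rcases hn with rfl | hn
    · rw [pow_zero]
      exact one_ne_zero
    · exact pow_ne_zero _ hn
  have hxe : x k0 ^ e' ≠ 0 := pow_ne_zero _ hxk0
  have hrat : val (j.comp f) (j θ) x P / (x k0 ^ e' * q' ^ n) ^ ℓ = Λ θ / (q' ^ n) ^ ℓ := by
    rw [hΛΛ, mul_pow, ← pow_mul, ← he', mul_div_mul_left _ _ (pow_ne_zero _ hxk0)]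
  refine ⟨x k0 ^ e' * q' ^ n, k0, n, ?_, mul_ne_zero hxe hq0, ?_, ?_⟩
  · rw [hqq, mul_div_cancel_left₀ _ (pow_ne_zero _ hxk0)]
  · rw [hrat]
    exact hU.2.1
  · have h2 := hU.2.2
    rw [← hrat, inv_div] at h2
    exact h2

/-- the roots of the values are unramified -/
theorem root_unr1 {k : Type u} {F : Type v} {Ω : Type w} [Field k] [Field F] [Field Ω]
    [Algebra k F] [Algebra F Ω] [Algebra k Ω] [IsScalarTower k F Ω] [CharZero k] [IsAlgClosed Ω]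
    (U : Set (ValuationSubring F)) (hU : ∀ O ∈ U, ∀ c : k, algebraMap k F c ∈ O)
    {ℓ : ℕ} (hℓ : 0 < ℓ) (R : Finset (algebraicClosure k Ω))
    (P : MvPolynomial (Fin 3) (Polynomial k)) (e : ℕ) (hP : P.IsHomogeneous e)
    (Q : MvPolynomial (Fin 3) k) (q : ℕ) (hQ : Q.IsHomogeneous q)
    (hT : ∀ θ ∈ R, ∀ θ' ∈ R, θ ≠ θ' → ∀ x : Fin 3 → algebraicClosure k Ω, x ≠ 0 →
      val (algebraMap k (algebraicClosure k Ω)) θ x P = 0 →
      val (algebraMap k (algebraicClosure k Ω)) θ' x P = 0 →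
        MvPolynomial.eval₂ (algebraMap k (algebraicClosure k Ω)) x Q ≠ 0)
    (x : Fin 3 → F) (hx : x ≠ 0) (hdeg : R.card * e = ℓ * q) (a : k) (ha : a ≠ 0)
    (hrel : ∏ θ ∈ R, val (algebraMap k Ω) (θ : Ω) (fun i => algebraMap F Ω (x i)) P =
      algebraMap k Ω a *
        MvPolynomial.eval₂ (algebraMap k Ω) (fun i => algebraMap F Ω (x i)) Q ^ ℓ)
    (e' : ℕ) (he' : e = e' * ℓ) (ρ : algebraicClosure k Ω) (hρ : ρ ∈ R)
    (h0 : val (algebraMap k Ω) (ρ : Ω) (fun i => algebraMap F Ω (x i)) P ≠ 0) (β : Ω)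
    (hβ : β ^ ℓ = val (algebraMap k Ω) (ρ : Ω) (fun i => algebraMap F Ω (x i)) P) :
    β ∈ unramified F Ω U := by
  classical
  have hac : IsAlgClosure k (algebraicClosure k Ω) := inferInstance
  have hA : IsAlgClosed (algebraicClosure k Ω) := hac.1
  have hWk : ∀ W : ValuationSubring Ω, W.comap (algebraMap F Ω) ∈ U →
      ∀ c : k, algebraMap k Ω c ∈ W := by
    intro W hW c
    rw [IsScalarTower.algebraMap_apply k F Ω]
    exact hU _ hW c
  have hWA : ∀ W : ValuationSubring Ω, W.comap (algebraMap F Ω) ∈ U →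
      ∀ c : algebraicClosure k Ω, algebraMap (algebraicClosure k Ω) Ω c ∈ W := by
    intro W hW c
    exact const_mem (hWk W hW) c.2
  set j : algebraicClosure k Ω →+* Ω := algebraMap (algebraicClosure k Ω) Ω with hj
  set g : k →+* algebraicClosure k Ω := algebraMap k (algebraicClosure k Ω) with hg
  have hjg : j.comp g = algebraMap k Ω := rfl
  set x' : Fin 3 → Ω := fun i => algebraMap F Ω (x i) with hx'
  have hx'0 : x' ≠ 0 := by
    intro h
    apply hx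
    funext i
    exact (_root_.map_eq_zero _).1 (congrFun h i)
  have ha0 : g a ≠ 0 := (_root_.map_ne_zero _).2 ha
  have hQx : algebraMap F Ω (MvPolynomial.eval₂ (algebraMap k F) x Q) =
      MvPolynomial.eval₂ (j.comp g) x' Q := by
    rw [eval_map', ← IsScalarTower.algebraMap_eq k F Ω]
    rfl
  have hβ0 : β ≠ 0 := by
    rintro rfl
    rw [zero_pow hℓ.ne'] at hβ
    exact h0 hβ.symm
  rw [mem_unramified]
  intro W hW σ hσ
  obtain ⟨t, k0, n, ht, ht0, h3, h4⟩ := single_form g j W (hWA W hW) R P e hP Q q hQ hT x' hx'0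
    ℓ hℓ hdeg (g a) ha0 hrel e' he' ρ hρ h0
  have h5 : t = algebraMap F Ω (x k0 ^ e' *
      (MvPolynomial.eval₂ (algebraMap k F) x Q / x k0 ^ q) ^ n) := by
    rw [ht, map_mul, map_pow, map_pow, map_div₀, map_pow, hQx]
  have hσρ : ∀ c : algebraicClosure k Ω, σ (j c) = j c := fun c =>
    inertia_const (k := k) (hWk W hW) hσ c.2
  have hσv : ∀ c : algebraicClosure k Ω, σ (val (j.comp g) (j c) x' P) =
      val (j.comp g) (j c) x' P := by
    intro c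
    have e1 := val_map ((σ : Ω ≃+* Ω) : Ω →+* Ω) (j.comp g) (j c) x' P
    have e2 : ((σ : Ω ≃+* Ω) : Ω →+* Ω).comp (j.comp g) = j.comp g := by
      ext c : 1
      exact hσρ (g c)
    have e3 : (fun i => ((σ : Ω ≃+* Ω) : Ω →+* Ω) (x' i)) = x' :=
      funext fun i => σ.commutes (x i)
    rw [e2, e3] at e1
    have e4 : ((σ : Ω ≃+* Ω) : Ω →+* Ω) (j c) = j c := hσρ c
    rw [e4] at e1
    exact e1
  refine inertia_root (k := k) (hWk W hW) hσ hℓ (t := t) ?_ ?_ ht0 hβ0 ?_ ?_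
  · rw [hβ]
    exact hσv ρ
  · rw [h5]
    exact σ.commutes _
  · rw [hβ]
    exact h3
  · rw [hβ]
    exact h4

section main

variable {K : Type u} [Field K] [CharZero K] {ℓ : ℕ} {G : K[X]} {L : Type y}
  [Field L] [Algebra K L] [FiniteDimensional K L]

/-- `M` contains the constants and the `ℓ`-th roots of the values of the conjugate forms -/
def LevelD (L : Type y) {F : Type v} {Ω : Type w} [Field L] [Field F] [Field Ω] [Algebra K Ω]
    [Algebra L Ω] [Algebra F Ω] (G : K[X]) (Λ : MvPolynomial (Fin 3) K[X]) (ℓ : ℕ)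
    (x : Fin 3 → Ω) (M : IntermediateField F Ω) : Prop :=
  (∀ c ∈ algebraicClosure L Ω, c ∈ M) ∧ ∀ θ β : Ω, aeval θ G = 0 →
    β ^ ℓ = val (algebraMap K Ω) θ x Λ → β ∈ M

/-- **No points and no sections.** -/
theorem bothD (hℓ : 1 < ℓ) (hL : Nat.Coprime ℓ (Module.finrank K L))
    (hs : G.Separable) (hd : G.natDegree ≠ 0)
    (hfac : ∀ p : K[X], Irreducible p → p ∣ G → p.natDegree = ℓ)
    (a : K)
    (ha : a ≠ 0) (hnot : ¬ NmIn (AlgebraicClosure K) G a)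
    (Λ : MvPolynomial (Fin 3) K[X]) (e : ℕ) (hΛ : Λ.IsHomogeneous e) (hdiv : ℓ ∣ e)
    (Q : MvPolynomial (Fin 3) K) (q : ℕ) (hQ : Q.IsHomogeneous q)
    (hdeg : G.natDegree * e = ℓ * q) (hT : TrIn (AlgebraicClosure K) G Λ Q) :
    (∀ x : Fin 3 → L, x ≠ 0 →
      ¬ Eqn G Λ a Q ℓ (fun j => algebraMap L (AlgebraicClosure L) (x j))) ∧
    ∀ (F : Type v) (Ω : Type w) [Field F] [Field Ω] [Algebra L F] [Algebra F Ω] [Algebra L Ω]
      [Algebra K Ω] [IsScalarTower L F Ω] [IsScalarTower K L Ω] [IsAlgClosure F Ω]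
      (x : Fin 3 → F), x ≠ 0 → Eqn G Λ a Q ℓ (fun j => algebraMap F Ω (x j)) →
      (∀ M : IntermediateField F Ω, LevelD L G Λ ℓ (fun j => algebraMap F Ω (x j)) M →
        ∀ s : (algebraicClosure L Ω ≃ₐ[L] algebraicClosure L Ω) →* (M ≃ₐ[F] M), Continuous s →
        (∀ σ (x : algebraicClosure L Ω) (y : M), (y : Ω) = x → ((s σ y : M) : Ω) = σ x) →
          False) ∧
      ∀ U : Set (ValuationSubring F), (∀ O ∈ U, ∀ c : L, algebraMap L F c ∈ O) →
        LevelD L G Λ ℓ (fun j => algebraMap F Ω (x j)) (unramified F Ω U) := by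
  classical
  have hG0 : G ≠ 0 := hs.ne_zero
  have hczL : CharZero L := charZero_of_injective_algebraMap (algebraMap K L).injective
  have haL : algebraMap K L a ≠ 0 := (_root_.map_ne_zero _).2 ha
  set ΛL := MvPolynomial.map (mapRingHom (algebraMap K L)) Λ with hΛL
  set QL := MvPolynomial.map (algebraMap K L) Q with hQL
  refine ⟨?_, ?_⟩
  · intro x hx hon
    apply hnot
    have halg : Algebra.IsAlgebraic K (AlgebraicClosure L) :=
      Algebra.IsAlgebraic.trans K L (AlgebraicClosure L)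
    have hTA : TrIn (AlgebraicClosure L) G Λ Q :=
      hT.map (IsAlgClosed.lift (R := K) (M := AlgebraicClosure K) (S := AlgebraicClosure L))
    have h1 : IsNm (⊤ : Subgroup (AlgebraicClosure L ≃ₐ[L] AlgebraicClosure L)) (rts G)
        (algebraMap L (AlgebraicClosure L) (algebraMap K L a)) := by
      refine pt hℓ (rts G) (rts_ne hs hd) (fun σ θ hθ => stable hG0 σ θ hθ) (cj L)
        (fun θ _ ρ => mem_cj) ?_ ΛL QL ?_ x hx (algebraMap K L a) haL ?_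
      · intro θ hθ
        rw [card_cj]
        exact deg_root' hL hfac ((mem_rts hG0).1 hθ)
      · intro θ hθ θ' hθ' hne x hx g1 g2
        rw [hΛL, val_base] at g1 g2
        rw [hQL, eval_base]
        exact hTA θ θ' ((mem_rts hG0).1 hθ) ((mem_rts hG0).1 hθ') hne x hx g1 g2
      · rw [hQL, eval_base, prod_rts hs, ← IsScalarTower.algebraMap_apply]
        rw [← hon]
        congr 1
        refine Multiset.map_congr rfl fun θ _ => ?_
        rw [hΛL, val_base]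
    refine nm_of (L := L) (A := AlgebraicClosure L) hℓ hL hs hd hfac a ha ⊤ ?_ ?_
    · rw [Subgroup.index_top]
      exact Nat.coprime_one_right _
    · rw [← IsScalarTower.algebraMap_apply] at h1
      exact h1
  · intro F Ω _ _ _ _ _ _ _ _ _ x hx hon
    have hcl : IsAlgClosed Ω := IsAlgClosure.isAlgClosed F
    have halgF : Algebra.IsAlgebraic F Ω := IsAlgClosure.isAlgebraic
    have hac : IsAlgClosure L (algebraicClosure L Ω) := inferInstance
    have hkb : IsAlgClosed (algebraicClosure L Ω) := hac.1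
    have halg : Algebra.IsAlgebraic K (algebraicClosure L Ω) :=
      Algebra.IsAlgebraic.trans K L (algebraicClosure L Ω)
    have hTA : TrIn (algebraicClosure L Ω) G Λ Q :=
      hT.map (IsAlgClosed.lift (R := K) (M := AlgebraicClosure K) (S := algebraicClosure L Ω))
    have hTL : ∀ θ ∈ (rts G : Finset (algebraicClosure L Ω)), ∀ θ' ∈ rts G, θ ≠ θ' →
        ∀ x : Fin 3 → algebraicClosure L Ω, x ≠ 0 →
        val (algebraMap L (algebraicClosure L Ω)) θ x ΛL = 0 →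
        val (algebraMap L (algebraicClosure L Ω)) θ' x ΛL = 0 →
          MvPolynomial.eval₂ (algebraMap L (algebraicClosure L Ω)) x QL ≠ 0 := by
      intro θ hθ θ' hθ' hne x hx g1 g2
      rw [hΛL, val_base] at g1 g2
      rw [hQL, eval_base]
      exact hTA θ θ' ((mem_rts hG0).1 hθ) ((mem_rts hG0).1 hθ') hne x hx g1 g2
    have hrel : ∏ θ ∈ (rts G : Finset (algebraicClosure L Ω)),
        val (algebraMap L Ω) (θ : Ω) (fun i => algebraMap F Ω (x i)) ΛL =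
        algebraMap L Ω (algebraMap K L a) *
          MvPolynomial.eval₂ (algebraMap L Ω) (fun i => algebraMap F Ω (x i)) QL ^ ℓ := by
      rw [hQL, eval_base, prod_rts hs, ← IsScalarTower.algebraMap_apply]
      have hon' := hon
      unfold Eqn at hon'
      rw [← hon', roots_ext (algebraMap (algebraicClosure L Ω) Ω) (by
        ext c
        rfl), Multiset.map_map]
      congr 1
      refine Multiset.map_congr rfl fun θ _ => ?_
      rw [hΛL, val_base]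
      rfl
    have hst : IsScalarTower K (algebraicClosure L Ω) Ω :=
      IsScalarTower.of_algebraMap_eq (fun _ => rfl)
    have hcoe : ∀ θ : algebraicClosure L Ω, aeval (θ : Ω) G =
        ((aeval θ G : algebraicClosure L Ω) : Ω) :=
      fun θ => Polynomial.aeval_algHom_apply
        (IsScalarTower.toAlgHom K (algebraicClosure L Ω) Ω) θ G
    refine ⟨?_, ?_⟩
    · intro M hM s hsc hcomp
      apply hnot
      have h1 := secD M hM.1 s hsc hcomp hℓ (rts G) (rts_ne hs hd)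
        (fun σ θ hθ => stable hG0 σ θ hθ) (cj L) (fun θ _ ρ => mem_cj) (by
          intro θ hθ
          rw [card_cj]
          exact deg_root' hL hfac ((mem_rts hG0).1 hθ)) ΛL QL hTL x hx
        (algebraMap K L a) haL (by
          intro θ hθ β hβ
          rw [hΛL, val_base] at hβ
          refine hM.2 θ β ?_ hβ
          rw [hcoe, (mem_rts hG0).1 hθ]
          rfl) hrel
      rw [← IsScalarTower.algebraMap_apply] at h1
      exact nm_of hℓ hL hs hd hfac a ha ⊤ (by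
        rw [Subgroup.index_top]
        exact Nat.coprime_one_right _) h1
    · intro U hU
      refine ⟨fun c hc => const_unr U hU c hc, ?_⟩
      intro θ β hθ hβ
      have hmem : ∀ t : Ω, aeval t G = 0 → t ∈ algebraicClosure L Ω := by
        intro t ht
        have h1 : IsAlgebraic L t :=
          IsAlgebraic.tower_top L (⟨G, hG0, ht⟩ : IsAlgebraic K t)
        exact mem_algebraicClosure_iff.2 h1
      obtain ⟨e', he'⟩ := hdiv
      by_cases h0 : val (algebraMap K Ω) θ (fun j => algebraMap F Ω (x j)) Λ = 0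
      · rw [h0] at hβ
        have h1 : β = 0 := IsNilpotent.eq_zero ⟨ℓ, hβ⟩
        rw [h1]
        exact zero_mem _
      · have hr : ∀ t (ht : aeval t G = 0), (⟨t, hmem t ht⟩ : algebraicClosure L Ω) ∈
            (rts G : Finset (algebraicClosure L Ω)) := by
          intro t ht
          rw [mem_rts hG0]
          apply Subtype.ext
          rw [← hcoe]
          exact ht
        refine root_unr1 U hU (by omega) (rts G) ΛL e (hΛ.map _) QL q (hQ.map _) hTL x hx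
          (by rw [card_rts hs]; exact hdeg) (algebraMap K L a) haL hrel e'
          (by rw [he', mul_comm]) ⟨θ, hmem θ hθ⟩ (hr θ hθ) ?_ β ?_
        · rw [hΛL, val_base]
          exact h0
        · rw [hΛL, val_base]
          exact hβ

end main


end Pool.Agent.U190.SN
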