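import Pool.Agent.U190.SN.Sec

/-!
# Norms from an étale algebra all of whose factors have degree `ℓ`
-/

set_option autoImplicit false

namespace Pool.Agent.U190.SN

open Pool.Agent.W620.SC Finset IntermediateField Polynomial

universe u v w y

section roots

/-- the roots of `G` -/
noncomputable def rts {K B : Type*} [Field K] [Field B] [Algebra K B] (G : K[X]) : Finset B :=
  letI := Classical.decEq B
  ((G.map (algebraMap K B)).roots).toFinset

/-- the conjugates of `θ` -/
noncomputable def cj (k : Type*) {A : Type*} [Field k] [Field A] [Algebra k A] (θ : A) :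
    Finset A :=
  letI := Classical.decEq A
  ((minpoly k θ).aroots A).toFinset

variable {K : Type*} [Field K] {G : K[X]}

lemma mem_rts {B : Type*} [Field B] [Algebra K B] (hG : G ≠ 0) {θ : B} :
    θ ∈ (rts G : Finset B) ↔ aeval θ G = 0 := by
  classical
  unfold rts
  rw [Multiset.mem_toFinset, mem_roots_map hG]
  rfl

lemma prod_rts {B C : Type*} [Field B] [Algebra K B] [CommMonoid C] (hs : G.Separable)
    (g : B → C) : ∏ θ ∈ rts G, g θ = (((G.map (algebraMap K B)).roots).map g).prod := by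
  classical
  have hnd : ((G.map (algebraMap K B)).roots).Nodup := nodup_roots hs.map
  unfold rts
  rw [Finset.prod, Multiset.toFinset_val]
  congr 2
  convert Multiset.dedup_eq_self.2 hnd

lemma card_rts {B : Type*} [Field B] [Algebra K B] [IsAlgClosed B] (hs : G.Separable) :
    (rts G : Finset B).card = G.natDegree := by
  classical
  have hnd : ((G.map (algebraMap K B)).roots).Nodup := nodup_roots hs.map
  have h1 : (rts G : Finset B).card = Multiset.card ((G.map (algebraMap K B)).roots) := by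
    unfold rts
    rw [Finset.card, Multiset.toFinset_val]
    congr 1
    convert Multiset.dedup_eq_self.2 hnd
  rw [h1, ← (IsAlgClosed.splits (G.map (algebraMap K B))).natDegree_eq_card_roots,
    natDegree_map]

/-- roots in a bigger field -/
lemma roots_ext {B C : Type*} [Field B] [Field C] [Algebra K B] [Algebra K C] [IsAlgClosed B]
    (i : B →+* C) (hi : i.comp (algebraMap K B) = algebraMap K C) :
    (G.map (algebraMap K C)).roots = ((G.map (algebraMap K B)).roots).map i := by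
  rw [← (IsAlgClosed.splits (G.map (algebraMap K B))).roots_map i, Polynomial.map_map, hi]

end roots

section conj

variable {k A : Type*} [Field k] [Field A] [Algebra k A] [CharZero k] [IsAlgClosed A]
  [Algebra.IsAlgebraic k A]

lemma mem_cj {θ ρ : A} : ρ ∈ cj k θ ↔ ∃ σ : A ≃ₐ[k] A, σ θ = ρ := by
  classical
  have hac : IsAlgClosure k A := ⟨inferInstance, inferInstance⟩
  have hnorm : Normal k A := IsAlgClosure.normal k A
  have hint : IsIntegral k θ := Algebra.IsIntegral.isIntegral θ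
  have h1 : ρ ∈ cj k θ ↔ aeval ρ (minpoly k θ) = 0 := by
    unfold cj
    rw [Multiset.mem_toFinset, mem_aroots]
    exact ⟨fun h => h.2, fun h => ⟨minpoly.ne_zero hint, h⟩⟩
  rw [h1]
  constructor
  · intro h
    have h2 : minpoly k ρ = minpoly k θ :=
      (minpoly.eq_of_irreducible_of_monic (minpoly.irreducible hint) h (minpoly.monic hint)).symm
    obtain ⟨σ, hσ⟩ := (Normal.minpoly_eq_iff_mem_orbit A).1 h2
    exact ⟨σ, hσ⟩
  · rintro ⟨σ, rfl⟩
    have h2 : aeval (σ θ) (minpoly k θ) = σ (aeval θ (minpoly k θ)) :=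
      Polynomial.aeval_algHom_apply (σ : A →ₐ[k] A) θ (minpoly k θ)
    rw [h2, minpoly.aeval, map_zero]

lemma card_cj (θ : A) : (cj k θ).card = (minpoly k θ).natDegree := by
  classical
  have hint : IsIntegral k θ := Algebra.IsIntegral.isIntegral θ
  have hnd : ((minpoly k θ).aroots A).Nodup :=
    nodup_roots ((minpoly.irreducible hint).separable.map)
  have h1 : (cj k θ).card = Multiset.card ((minpoly k θ).aroots A) := by
    unfold cj
    rw [Finset.card, Multiset.toFinset_val]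
    congr 1
    convert Multiset.dedup_eq_self.2 hnd
  rw [h1, ← (IsAlgClosed.splits ((minpoly k θ).map (algebraMap k A))).natDegree_eq_card_roots,
    natDegree_map]

end conj

section tower

variable {K L A : Type*} [Field K] [Field L] [Field A] [Algebra K L] [Algebra L A] [Algebra K A]
  [IsScalarTower K L A] [CharZero K] [IsAlgClosed A] [Algebra.IsAlgebraic L A]
  [FiniteDimensional K L] {ℓ : ℕ} {G : K[X]}

/-- the degree of a root -/
lemma deg_root (hfac : ∀ p : K[X], Irreducible p → p ∣ G → p.natDegree = ℓ)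
    (hint : Algebra.IsAlgebraic K A) {θ : A} (hθ : aeval θ G = 0) :
    (minpoly K θ).natDegree = ℓ :=
  hfac _ (minpoly.irreducible (Algebra.IsIntegral.isIntegral θ)) (minpoly.dvd K θ hθ)

/-- the degree of a root over an extension of degree prime to `ℓ` -/
lemma deg_root' (hL : Nat.Coprime ℓ (Module.finrank K L))
    (hfac : ∀ p : K[X], Irreducible p → p ∣ G → p.natDegree = ℓ) {θ : A} (hθ : aeval θ G = 0) :
    (minpoly L θ).natDegree = ℓ := by
  have halg : Algebra.IsAlgebraic K A := Algebra.IsAlgebraic.trans K L A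
  have h1 := deg_root hfac halg hθ
  have hint : IsIntegral K θ := Algebra.IsIntegral.isIntegral θ
  have hintL : IsIntegral L θ := Algebra.IsIntegral.isIntegral θ
  have hle : (minpoly L θ).natDegree ≤ ℓ := by
    have h2 : minpoly L θ ∣ (minpoly K θ).map (algebraMap K L) :=
      minpoly.dvd_map_of_isScalarTower K L θ
    have h3 := natDegree_le_of_dvd h2
      ((Polynomial.map_ne_zero_iff (algebraMap K L).injective).2 (minpoly.ne_zero hint))
    rwa [natDegree_map, h1] at h3
  have hpos : 0 < (minpoly L θ).natDegree := minpoly.natDegree_pos hintL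
  have hdvd : ℓ ∣ Module.finrank K L * (minpoly L θ).natDegree := by
    have hfinL : FiniteDimensional L L⟮θ⟯ := adjoin.finiteDimensional hintL
    have h2 : Module.finrank L L⟮θ⟯ = (minpoly L θ).natDegree := adjoin.finrank hintL
    have h3 : Module.finrank K K⟮θ⟯ = ℓ := by rw [adjoin.finrank hint, h1]
    have h4 : K⟮θ⟯ ≤ (L⟮θ⟯).restrictScalars K := by
      rw [adjoin_simple_le_iff]
      exact mem_adjoin_simple_self L θ
    have h5 := finrank_dvd_of_le_right h4
    rw [h3] at h5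
    have h6 : Module.finrank K ((L⟮θ⟯).restrictScalars K) = Module.finrank K L⟮θ⟯ := rfl
    rw [h6, ← Module.finrank_mul_finrank K L L⟮θ⟯, h2] at h5
    exact h5
  have h7 : ℓ ∣ (minpoly L θ).natDegree := hL.dvd_of_dvd_mul_left hdvd
  exact le_antisymm hle (Nat.le_of_dvd hpos h7)

/-- from `L` to `K` -/
theorem to_base (hℓ : 1 < ℓ) (hL : Nat.Coprime ℓ (Module.finrank K L)) (hs : G.Separable)
    (hd : G.natDegree ≠ 0) (hfac : ∀ p : K[X], Irreducible p → p ∣ G → p.natDegree = ℓ) (a : K)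
    (ha : a ≠ 0) (Γ : Subgroup (A ≃ₐ[L] A)) (hΓ : Nat.Coprime ℓ Γ.index)
    (h : IsNm Γ (rts G) (algebraMap K A a)) :
    IsNm (⊤ : Subgroup (A ≃ₐ[K] A)) (rts G) (algebraMap K A a) := by
  classical
  have hG0 : G ≠ 0 := hs.ne_zero
  have halg : Algebra.IsAlgebraic K A := Algebra.IsAlgebraic.trans K L A
  have hac : IsAlgClosure K A := ⟨inferInstance, inferInstance⟩
  have hnorm : Normal K A := IsAlgClosure.normal K A
  have hgal : IsGalois K A := ⟨⟩
  set φ : (A ≃ₐ[L] A) →* (A ≃ₐ[K] A) := AlgEquiv.restrictScalarsHom K with hφ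
  have hφinj : Function.Injective φ := AlgEquiv.restrictScalars_injective K
  set L' : IntermediateField K A := (IsScalarTower.toAlgHom K L A).fieldRange with hL'
  have hrange : φ.range = L'.fixingSubgroup := by
    ext σ
    rw [IntermediateField.mem_fixingSubgroup_iff]
    constructor
    · rintro ⟨τ, rfl⟩ x hx
      obtain ⟨c, rfl⟩ := hx
      exact τ.commutes c
    · intro hσ
      refine ⟨{ (σ : A ≃+* A) with commutes' := fun c => hσ _ ⟨c, rfl⟩ }, ?_⟩
      ext x
      rfl
  have hfr : Module.finrank K L' = Module.finrank K L :=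
    ((AlgEquiv.ofInjectiveField (IsScalarTower.toAlgHom K L A)).toLinearEquiv.finrank_eq).symm
  have hidx : (Γ.map φ).index = Γ.index * Module.finrank K L := by
    rw [Subgroup.index_map, (MonoidHom.ker_eq_bot_iff φ).2 hφinj, sup_bot_eq, hrange,
      ← finrank_eq_fixingSubgroup_index, hfr]
  have hnd : Nat.Coprime ℓ (Γ.map φ).index := by
    rw [hidx]
    exact hΓ.mul_right hL
  have hnm : IsNm (Γ.map φ) (rts G) (algebraMap K A a) := by
    obtain ⟨w, h1, h2, h3⟩ := h
    refine ⟨w, h1, ?_, h3⟩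
    rintro _ ⟨σ, hσ, rfl⟩ θ hθ
    exact h2 σ hσ θ hθ
  have hR : ∀ σ : A ≃ₐ[K] A, ∀ θ ∈ (rts G : Finset A), σ θ ∈ (rts G : Finset A) := by
    intro σ θ hθ
    rw [mem_rts hG0] at hθ ⊢
    have h2 : aeval (σ θ) G = σ (aeval θ G) :=
      Polynomial.aeval_algHom_apply (σ : A →ₐ[K] A) θ G
    rw [h2, hθ, map_zero]
  have hne : (rts G : Finset A).Nonempty := by
    rw [← Finset.card_pos, card_rts hs]
    exact Nat.pos_of_ne_zero hd
  obtain ⟨θ0, hθ0⟩ := hne
  refine IsNm.of_coprime (O := cj K θ0) hℓ hnd hR ?_ ?_ ?_ ((_root_.map_ne_zero _).2 ha) hnm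
    (fun σ => σ.commutes a)
  · intro ρ hρ
    obtain ⟨σ, rfl⟩ := mem_cj.1 hρ
    exact hR σ θ0 hθ0
  · intro σ ρ hρ
    obtain ⟨τ, rfl⟩ := mem_cj.1 hρ
    exact mem_cj.2 ⟨σ * τ, rfl⟩
  · rw [card_cj]
    exact deg_root hfac halg ((mem_rts hG0).1 hθ0)

/-- the roots are permuted by a group of index prime to `n` through regular cyclic groups -/
theorem exists_group {n : ℕ} (hn : 1 < n) (hL : Nat.Coprime n (Module.finrank K L))
    (hs : G.Separable)
    (hfac : ∀ p : K[X], Irreducible p → p ∣ G → p.natDegree = n)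
    (hcase : n.Prime ∨ ∀ p : K[X], Irreducible p → p ∣ G → IsCyclic p.Gal) :
    ∃ Γ : Subgroup (A ≃ₐ[L] A), Nat.Coprime n Γ.index ∧
      ∀ θ ∈ (rts G : Finset A), ∃ τ, Cyc Γ (cj L θ) θ τ n := by
  classical
  have hG0 : G ≠ 0 := hs.ne_zero
  have hczL : CharZero L := charZero_of_injective_algebraMap (algebraMap K L).injective
  have halg : Algebra.IsAlgebraic K A := Algebra.IsAlgebraic.trans K L A
  have hR : ∀ σ : A ≃ₐ[L] A, ∀ θ ∈ (rts G : Finset A), σ θ ∈ (rts G : Finset A) := by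
    intro σ θ hθ
    rw [mem_rts hG0] at hθ ⊢
    have h2 : aeval (σ θ) G = σ (aeval θ G) :=
      Polynomial.aeval_algHom_apply ((σ.restrictScalars K : A ≃ₐ[K] A) : A →ₐ[K] A) θ G
    rw [h2, hθ, map_zero]
  have hself : ∀ θ : A, θ ∈ cj L θ := fun θ => mem_cj.2 ⟨1, rfl⟩
  have hst : ∀ θ : A, ∀ σ : A ≃ₐ[L] A, ∀ ρ ∈ cj L θ, σ ρ ∈ cj L θ := by
    intro θ σ ρ hρ
    obtain ⟨τ, rfl⟩ := mem_cj.1 hρ
    exact mem_cj.2 ⟨σ * τ, rfl⟩
  have hcR : ∀ θ ∈ (rts G : Finset A), cj L θ ⊆ rts G := by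
    intro θ hθ ρ hρ
    obtain ⟨σ, rfl⟩ := mem_cj.1 hρ
    exact hR σ θ hθ
  have hcard : ∀ θ ∈ (rts G : Finset A), (cj L θ).card = n := by
    intro θ hθ
    rw [card_cj]
    exact deg_root' hL hfac ((mem_rts hG0).1 hθ)
  rcases hcase with hp | hcyc
  · have : Fact n.Prime := ⟨hp⟩
    obtain ⟨Γ, hΓi, hΓ⟩ := exists_sylow n (rts G : Finset A) hR
    refine ⟨Γ, (Nat.Prime.coprime_iff_not_dvd hp).2 hΓi, fun θ hθ => ?_⟩
    obtain ⟨τ, hτ, hne⟩ := exists_moves (cj L θ) (hst θ) (hcard θ hθ) Γ hΓi θ (hself θ)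
      (fun ρ hρ => mem_cj.1 hρ)
    exact ⟨τ, orbit_struct hp (rts G) (cj L θ) (hcR θ hθ) (hst θ) (hcard θ hθ) Γ hΓ θ (hself θ)
      τ hτ hne⟩
  · refine ⟨⊤, by rw [Subgroup.index_top]; exact Nat.coprime_one_right n, fun θ hθ => ?_⟩
    have hint : IsIntegral K θ := Algebra.IsIntegral.isIntegral θ
    set p : K[X] := minpoly K θ with hp
    have hpc : IsCyclic p.Gal :=
      hcyc p (minpoly.irreducible hint) (minpoly.dvd K θ ((mem_rts hG0).1 hθ))
    have hsp : Fact ((p.map (algebraMap K A)).Splits) := ⟨IsAlgClosed.splits _⟩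
    set φ : (A ≃ₐ[L] A) →* p.Gal := (Polynomial.Gal.restrict p A).comp
      (AlgEquiv.restrictScalarsHom K) with hφ
    obtain ⟨⟨g, hg⟩, hgen⟩ := IsCyclic.exists_generator (α := φ.range)
    obtain ⟨τ, rfl⟩ := hg
    refine ⟨τ, cyc_of (cj L θ) (hst θ) (hcard θ hθ) θ (hself θ) (fun ρ hρ => mem_cj.1 hρ) τ ?_⟩
    intro σ
    have h1 := mem_powers_iff_mem_zpowers.2 (hgen ⟨φ σ, σ, rfl⟩)
    obtain ⟨i, hi⟩ := h1
    have h2 : φ (τ ^ i) = φ σ := by
      rw [map_pow]
      exact congrArg Subtype.val hi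
    refine ⟨i, fun ρ hρ => ?_⟩
    have hρp : ρ ∈ rootSet p A := by
      obtain ⟨κ, rfl⟩ := mem_cj.1 hρ
      rw [mem_rootSet]
      refine ⟨minpoly.ne_zero hint, ?_⟩
      have h3 : aeval (κ θ) p = κ (aeval θ p) :=
        Polynomial.aeval_algHom_apply ((κ.restrictScalars K : A ≃ₐ[K] A) : A →ₐ[K] A) θ p
      rw [h3, hp, minpoly.aeval, map_zero]
    have h4 := Polynomial.Gal.restrict_smul (p := p) (E := A)
      (AlgEquiv.restrictScalarsHom K σ) ⟨ρ, hρp⟩
    have h5 := Polynomial.Gal.restrict_smul (p := p) (E := A)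
      (AlgEquiv.restrictScalarsHom K (τ ^ i)) ⟨ρ, hρp⟩
    have h6 : Polynomial.Gal.restrict p A (AlgEquiv.restrictScalarsHom K (τ ^ i)) =
        Polynomial.Gal.restrict p A (AlgEquiv.restrictScalarsHom K σ) := h2
    rw [h6, h4] at h5
    exact h5

end tower

section interp

variable {K A : Type*} [Field K] [Field A] [Algebra K A] [CharZero K] [IsAlgClosed A]
  [Algebra.IsAlgebraic K A] {G : K[X]}

/-- equivariant functions are polynomials -/
theorem exists_poly (hs : G.Separable) {a : A}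
    (h : IsNm (⊤ : Subgroup (A ≃ₐ[K] A)) (rts G) a) :
    ∃ P : K[X], (((G.map (algebraMap K A)).roots).map fun θ => aeval θ P).prod = a := by
  classical
  have hac : IsAlgClosure K A := ⟨inferInstance, inferInstance⟩
  have hnorm : Normal K A := IsAlgClosure.normal K A
  have hgal : IsGalois K A := ⟨⟩
  have hG0 : G ≠ 0 := hs.ne_zero
  obtain ⟨w, -, h2, h3⟩ := h
  set R : Finset A := rts G with hR
  have hinj : Set.InjOn (id : A → A) R := Function.injective_id.injOn
  set PA : A[X] := Lagrange.interpolate R id w with hPA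
  have hev : ∀ θ ∈ R, PA.eval θ = w θ := fun θ hθ => Lagrange.eval_interpolate_at_node w hinj hθ
  have hdeg : PA.degree < (R.card : WithBot ℕ) := Lagrange.degree_interpolate_lt w hinj
  have hRst : ∀ σ : A ≃ₐ[K] A, ∀ θ ∈ R, σ θ ∈ R := by
    intro σ θ hθ
    rw [hR, mem_rts hG0] at hθ ⊢
    have h2 : aeval (σ θ) G = σ (aeval θ G) :=
      Polynomial.aeval_algHom_apply (σ : A →ₐ[K] A) θ G
    rw [h2, hθ, map_zero]
  have hinv : ∀ σ : A ≃ₐ[K] A, PA.map ((σ : A ≃+* A) : A →+* A) = PA := by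
    intro σ
    refine eq_of_degrees_lt_of_eval_finset_eq R ?_ hdeg ?_
    · rw [degree_map]
      exact hdeg
    · intro ρ hρ
      have h4 := hRst σ⁻¹ ρ hρ
      have h5 : ρ = σ (σ⁻¹ ρ) := (σ.apply_symm_apply ρ).symm
      have h6 : (PA.map ((σ : A ≃+* A) : A →+* A)).eval (σ (σ⁻¹ ρ)) = σ (PA.eval (σ⁻¹ ρ)) := by
        rw [Polynomial.eval_map]
        exact (Polynomial.hom_eval₂ PA (RingHom.id A) ((σ : A ≃+* A) : A →+* A) (σ⁻¹ ρ)).symm
      rw [h5, h6, hev _ h4, ← h2 σ trivial _ h4, ← h5, hev ρ hρ]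
  have hcoef : ∀ n, ∃ c : K, algebraMap K A c = PA.coeff n := by
    intro n
    have h4 : PA.coeff n ∈ (⊥ : IntermediateField K A) := by
      apply mem_of_fixed
      intro σ _
      have h5 := congrArg (fun p : A[X] => p.coeff n) (hinv σ)
      simp only [coeff_map] at h5
      exact h5
    exact mem_bot.1 h4
  obtain ⟨P, hP⟩ : ∃ P : K[X], P.map (algebraMap K A) = PA := by
    have h5 : PA ∈ Polynomial.lifts (algebraMap K A) := by
      rw [Polynomial.lifts_iff_coeff_lifts]
      intro n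
      obtain ⟨c, hc⟩ := hcoef n
      exact ⟨c, hc⟩
    obtain ⟨P, hP⟩ := h5
    exact ⟨P, hP⟩
  refine ⟨P, ?_⟩
  rw [← prod_rts hs, ← h3]
  refine Finset.prod_congr rfl fun θ hθ => ?_
  rw [← hev θ hθ, ← hP, Polynomial.eval_map]
  rfl

end interp

end Pool.Agent.U190.SN
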