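import Pool.Agent.U190.SN.Nm
import Pool.Agent.TH377.NC.Vec
import Pool.Agent.TH120.Sec.Gal

/-!
# Forms with coefficients in an étale algebra at the places of a plane curve
-/

set_option autoImplicit false

namespace Pool.Agent.U190.SN

open Pool.Agent.W620.SC Pool.Agent.W623.SecC Pool.Agent.TH120.Sec Finset

universe u v w

/-- a common zero of three forms over a bigger field -/
theorem null {A κ : Type*} [Field A] [IsAlgClosed A] [Field κ] (j : A →+* κ)
    (P1 P2 P3 : MvPolynomial (Fin 3) A)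
    (h : ∀ x : Fin 3 → A, x ≠ 0 → MvPolynomial.eval x P1 = 0 → MvPolynomial.eval x P2 = 0 →
      MvPolynomial.eval x P3 ≠ 0) (x : Fin 3 → κ) (hx : x ≠ 0)
    (h1 : MvPolynomial.eval₂ j x P1 = 0) (h2 : MvPolynomial.eval₂ j x P2 = 0) :
    MvPolynomial.eval₂ j x P3 ≠ 0 := by
  intro h3
  apply hx
  set I : Ideal (MvPolynomial (Fin 3) A) := Ideal.span {P1, P2, P3} with hI
  have hX : ∀ i, (MvPolynomial.X i : MvPolynomial (Fin 3) A) ∈ I.radical := by
    intro i
    rw [← MvPolynomial.vanishingIdeal_zeroLocus_eq_radical (k := A) (K := A),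
      MvPolynomial.mem_vanishingIdeal_iff]
    intro y hy
    have g1 := hy P1 (Ideal.subset_span (by simp))
    have g2 := hy P2 (Ideal.subset_span (by simp))
    have g3 := hy P3 (Ideal.subset_span (by simp))
    by_cases hy0 : y = 0
    · rw [hy0, MvPolynomial.aeval_X]
      rfl
    · exact absurd g3 (h y hy0 g1 g2)
  have hle : I ≤ RingHom.ker (MvPolynomial.eval₂Hom j x) := by
    rw [hI, Ideal.span_le]
    rintro p (rfl | rfl | rfl)
    · exact h1
    · exact h2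
    · exact h3
  funext i
  obtain ⟨n, hn⟩ := hX i
  have h4 : MvPolynomial.eval₂Hom j x ((MvPolynomial.X i) ^ n) = 0 := hle hn
  rw [map_pow, MvPolynomial.coe_eval₂Hom, MvPolynomial.eval₂_X] at h4
  exact IsNilpotent.eq_zero ⟨n, h4⟩

/-- the value of a form over `k[T]` at `T = θ` and a vector -/
noncomputable def val {k B : Type*} [CommRing k] [CommRing B] (f : k →+* B) (θ : B)
    (x : Fin 3 → B) (P : MvPolynomial (Fin 3) (Polynomial k)) : B :=
  MvPolynomial.eval₂ (Polynomial.eval₂RingHom f θ) x P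

lemma val_map {k B B' : Type*} [CommRing k] [CommRing B] [CommRing B'] (j : B →+* B')
    (f : k →+* B) (θ : B) (x : Fin 3 → B) (P : MvPolynomial (Fin 3) (Polynomial k)) :
    j (val f θ x P) = val (j.comp f) (j θ) (fun i => j (x i)) P := by
  unfold val
  rw [MvPolynomial.hom_eval₂]
  congr 1
  apply Polynomial.ringHom_ext
  · intro a
    simp
  · simp

lemma eval_map' {R B B' : Type*} [CommRing R] [CommRing B] [CommRing B'] (j : B →+* B')
    (f : R →+* B) (x : Fin 3 → B) (Q : MvPolynomial (Fin 3) R) :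
    j (MvPolynomial.eval₂ f x Q) = MvPolynomial.eval₂ (j.comp f) (fun i => j (x i)) Q := by
  rw [MvPolynomial.hom_eval₂]

lemma val_smul {k B : Type*} [CommRing k] [CommRing B] (f : k →+* B) (θ : B)
    (x : Fin 3 → B) (P : MvPolynomial (Fin 3) (Polynomial k)) (e : ℕ) (hP : P.IsHomogeneous e)
    (c : B) : val f θ (fun i => c * x i) P = c ^ e * val f θ x P :=
  Pool.Agent.TH377.NC.eval_smul _ P e hP c x

/-- transversality over a bigger field -/
theorem null_val {k A κ : Type*} [CommRing k] [Field A] [IsAlgClosed A] [Field κ] (f : k →+* A)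
    (j : A →+* κ) (P : MvPolynomial (Fin 3) (Polynomial k)) (Q : MvPolynomial (Fin 3) k)
    (θ θ' : A) (h : ∀ x : Fin 3 → A, x ≠ 0 → val f θ x P = 0 → val f θ' x P = 0 →
      MvPolynomial.eval₂ f x Q ≠ 0) (x : Fin 3 → κ) (hx : x ≠ 0)
    (h1 : val (j.comp f) (j θ) x P = 0) (h2 : val (j.comp f) (j θ') x P = 0) :
    MvPolynomial.eval₂ (j.comp f) x Q ≠ 0 := by
  have e1 : ∀ (B : Type _) [Field B] (i : A →+* B) (y : Fin 3 → B) (t : A),
      MvPolynomial.eval₂ i y (MvPolynomial.map (Polynomial.eval₂RingHom f t) P) =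
        val (i.comp f) (i t) y P := by
    intro B _ i y t
    rw [MvPolynomial.eval₂_map]
    unfold val
    congr 1
    apply Polynomial.ringHom_ext
    · intro a
      simp
    · simp
  have e1' : ∀ (y : Fin 3 → A) (t : A),
      MvPolynomial.eval y (MvPolynomial.map (Polynomial.eval₂RingHom f t) P) = val f t y P := by
    intro y t
    have h5 : MvPolynomial.eval y (MvPolynomial.map (Polynomial.eval₂RingHom f t) P) =
      MvPolynomial.eval₂ (RingHom.id A) y (MvPolynomial.map (Polynomial.eval₂RingHom f t) P) := rfl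
    rw [h5, MvPolynomial.eval₂_map]
    rfl
  have e2 : ∀ (y : Fin 3 → A), MvPolynomial.eval y (MvPolynomial.map f Q) =
      MvPolynomial.eval₂ f y Q := by
    intro y
    have h5 : MvPolynomial.eval y (MvPolynomial.map f Q) =
      MvPolynomial.eval₂ (RingHom.id A) y (MvPolynomial.map f Q) := rfl
    rw [h5, MvPolynomial.eval₂_map]
    rfl
  have h3 := null j (MvPolynomial.map (Polynomial.eval₂RingHom f θ) P)
    (MvPolynomial.map (Polynomial.eval₂RingHom f θ') P) (MvPolynomial.map f Q) (by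
      intro y hy g1 g2
      rw [e1'] at g1 g2
      rw [e2]
      exact h y hy g1 g2) x hx (by rw [e1]; exact h1) (by rw [e1]; exact h2)
  rwa [MvPolynomial.eval₂_map] at h3

/-- the abstract statement on ratios -/
lemma ratio_abs {Ω X : Type*} [Field Ω] [DecidableEq X] (W : ValuationSubring Ω) (R : Finset X)
    (Λ : X → Ω) (hΛW : ∀ i ∈ R, Λ i ∈ W) (q c : Ω) (hqW : q ∈ W) (hc : IsU W c) (ℓ : ℕ)
    (hℓ : 0 < ℓ) (hrel : c * q ^ ℓ = ∏ i ∈ R, Λ i)
    (htwo : ∀ i ∈ R, ∀ i' ∈ R, i ≠ i' → Λ i ∈ W.nonunits → Λ i' ∈ W.nonunits → q ∉ W.nonunits)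
    (i i' : X) (hi : i ∈ R) (hi' : i' ∈ R) (hi0 : Λ i ≠ 0) (hi'0 : Λ i' ≠ 0) :
    ∃ n : ℤ, (n = 0 ∨ q ≠ 0) ∧ IsU W (Λ i / Λ i' / (q ^ n) ^ ℓ) := by
  have hother : ∀ l ∈ R, Λ l ∈ W.nonunits → ∀ l' ∈ R, l' ≠ l → IsU W (Λ l') := by
    intro l hl hln l' hl' hne
    by_contra h
    have h1 : Λ l' ∈ W.nonunits := by
      by_contra h2
      exact h (isU_of_not_nonunit (hΛW l' hl') h2)
    refine htwo l' hl' l hl hne h1 hln ?_
    by_contra h2
    have h4 : IsU W (c * q ^ ℓ) := hc.mul ((isU_of_not_nonunit hqW h2).pow _)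
    rw [hrel, ← Finset.mul_prod_erase R Λ hl] at h4
    refine h4.not_nonunit ?_
    rw [mul_comm]
    exact nonunit_mul (prod_mem fun l hl => hΛW l (Finset.mem_of_mem_erase hl)) hln
  have hkey : ∀ l ∈ R, Λ l ≠ 0 → Λ l ∈ W.nonunits → q ≠ 0 ∧ IsU W (Λ l / q ^ ℓ) := by
    intro l hlR hl0 hl
    have hP : IsU W (∏ l' ∈ R.erase l, Λ l') :=
      IsU.prod _ _ fun l' hl' => hother l hlR hl l' (Finset.mem_of_mem_erase hl')
        (Finset.ne_of_mem_erase hl')
    have h1 : c * q ^ ℓ = Λ l * ∏ l' ∈ R.erase l, Λ l' := by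
      rw [hrel, Finset.mul_prod_erase R Λ hlR]
    have hq0 : q ≠ 0 := by
      intro h
      rw [h, zero_pow hℓ.ne', mul_zero] at h1
      exact mul_ne_zero hl0 hP.1 h1.symm
    refine ⟨hq0, ?_⟩
    have h2 : Λ l / q ^ ℓ = c / ∏ l' ∈ R.erase l, Λ l' := by
      rw [div_eq_div_iff (pow_ne_zero _ hq0) hP.1]
      exact h1.symm
    rw [h2]
    exact hc.div hP
  by_cases hii : i = i'
  · subst hii
    refine ⟨0, Or.inl rfl, ?_⟩
    rw [div_self hi0, zpow_zero, one_pow, div_one]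
    exact isU_one
  by_cases hni : Λ i ∈ W.nonunits
  · obtain ⟨hq0, hab⟩ := hkey i hi hi0 hni
    refine ⟨1, Or.inr hq0, ?_⟩
    rw [zpow_one, div_right_comm]
    exact hab.div (hother i hi hni i' hi' (Ne.symm hii))
  · by_cases hni' : Λ i' ∈ W.nonunits
    · obtain ⟨hq0, hab⟩ := hkey i' hi' hi'0 hni'
      refine ⟨-1, Or.inr hq0, ?_⟩
      have h1 : Λ i / Λ i' / (q ^ (-1 : ℤ)) ^ ℓ = Λ i / (Λ i' / q ^ ℓ) := by
        rw [zpow_neg, zpow_one, inv_pow, div_inv_eq_mul, div_mul_eq_mul_div,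
          div_div_eq_mul_div]
      rw [h1]
      exact (hother i' hi' hni' i hi hii).div hab
    · refine ⟨0, Or.inl rfl, ?_⟩
      rw [zpow_zero, one_pow, div_one]
      exact (isU_of_not_nonunit (hΛW i hi) hni).div (isU_of_not_nonunit (hΛW i' hi') hni')

/-- values of polynomials in a valuation ring -/
lemma val_mem {k Ω : Type*} [CommRing k] [Field Ω] (W : ValuationSubring Ω) (f : k →+* Ω)
    (hf : ∀ c, f c ∈ W) (θ : Ω) (hθ : θ ∈ W) (x : Fin 3 → Ω) (hx : ∀ i, x i ∈ W)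
    (P : MvPolynomial (Fin 3) (Polynomial k)) : val f θ x P ∈ W := by
  unfold val
  rw [MvPolynomial.eval₂_eq']
  refine sum_mem fun d _ => mul_mem ?_ (prod_mem fun i _ => pow_mem (hx i) _)
  rw [Polynomial.coe_eval₂RingHom, Polynomial.eval₂_eq_sum_range]
  exact sum_mem fun n _ => mul_mem (hf _) (pow_mem hθ _)

/-- ratios of the conjugate forms are `ℓ`-th powers up to units at all places -/
theorem ratio_form {k Ω A : Type*} [CommRing k] [Field Ω] [Field A] [IsAlgClosed A]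
    [DecidableEq A] (f : k →+* A)
    (j : A →+* Ω) (W : ValuationSubring Ω) (hW : ∀ c, j c ∈ W) (R : Finset A)
    (P : MvPolynomial (Fin 3) (Polynomial k)) (e : ℕ) (hP : P.IsHomogeneous e)
    (Q : MvPolynomial (Fin 3) k) (q : ℕ) (hQ : Q.IsHomogeneous q)
    (hT : ∀ θ ∈ R, ∀ θ' ∈ R, θ ≠ θ' → ∀ x : Fin 3 → A, x ≠ 0 → val f θ x P = 0 →
      val f θ' x P = 0 → MvPolynomial.eval₂ f x Q ≠ 0)
    (x : Fin 3 → Ω) (hx : x ≠ 0) (ℓ : ℕ) (hℓ : 0 < ℓ) (hdeg : R.card * e = ℓ * q)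
    (a : A) (ha : a ≠ 0)
    (hrel : ∏ θ ∈ R, val (j.comp f) (j θ) x P = j a * MvPolynomial.eval₂ (j.comp f) x Q ^ ℓ)
    (θ θ' : A) (hθ : θ ∈ R) (hθ' : θ' ∈ R)
    (h0 : val (j.comp f) (j θ) x P ≠ 0) (h0' : val (j.comp f) (j θ') x P ≠ 0) :
    ∃ (t : Ω) (k0 : Fin 3) (n : ℤ),
      t = (MvPolynomial.eval₂ (j.comp f) x Q / x k0 ^ q) ^ n ∧ t ≠ 0 ∧
      val (j.comp f) (j θ) x P / val (j.comp f) (j θ') x P / t ^ ℓ ∈ W ∧
      t ^ ℓ / (val (j.comp f) (j θ) x P / val (j.comp f) (j θ') x P) ∈ W := by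
  classical
  obtain ⟨k0, hk0⟩ := Finite.exists_max (fun k => W.valuation (x k))
  have hxk0 : x k0 ≠ 0 := by
    intro h
    apply hx
    funext k
    have h1 := hk0 k
    simp only [h, map_zero, le_zero_iff, map_eq_zero] at h1
    exact h1
  set u : Fin 3 → Ω := fun k => x k / x k0 with hu
  have huW : ∀ k, u k ∈ W := by
    intro k
    rw [← W.valuation_le_one_iff, hu, map_div₀]
    exact div_le_one_of_le₀ (hk0 k) zero_le
  have hu1 : u k0 = 1 := div_self hxk0
  have hxu : x = fun k => x k0 * u k := by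
    funext k
    rw [hu]
    field_simp
  set Λ : A → Ω := fun t => val (j.comp f) (j t) u P with hΛ
  have hΛΛ : ∀ t, val (j.comp f) (j t) x P = x k0 ^ e * Λ t := by
    intro t
    conv_lhs => rw [hxu]
    exact val_smul _ _ _ P e hP _
  set q' : Ω := MvPolynomial.eval₂ (j.comp f) u Q with hq'
  have hqq : MvPolynomial.eval₂ (j.comp f) x Q = x k0 ^ q * q' := by
    conv_lhs => rw [hxu]
    exact Pool.Agent.TH377.NC.eval_smul _ Q q hQ _ _
  have hΛW : ∀ t ∈ R, Λ t ∈ W := fun t _ => val_mem W (j.comp f) (fun c => hW _) _ (hW _) u huW P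
  have hq'W : q' ∈ W := by
    rw [hq', MvPolynomial.eval₂_eq']
    exact sum_mem fun d _ => mul_mem (hW _) (prod_mem fun k _ => pow_mem (huW k) _)
  have hrel' : j a * q' ^ ℓ = ∏ t ∈ R, Λ t := by
    have h1 : ∏ t ∈ R, val (j.comp f) (j t) x P = x k0 ^ (ℓ * q) * ∏ t ∈ R, Λ t := by
      rw [Finset.prod_congr rfl fun t _ => hΛΛ t, Finset.prod_mul_distrib, Finset.prod_const,
        ← hdeg, mul_comm R.card e, pow_mul]
    rw [h1, hqq] at hrel
    have h3 : (x k0 ^ (ℓ * q)) ≠ 0 := pow_ne_zero _ hxk0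
    apply mul_left_cancel₀ h3
    rw [hrel, mul_pow, ← pow_mul, mul_comm q ℓ]
    ring
  have hres : ∀ t t', t ∈ R → t' ∈ R → t ≠ t' → Λ t ∈ W.nonunits → Λ t' ∈ W.nonunits →
      q' ∉ W.nonunits := by
    intro t t' ht ht' hne h1 h2 h3
    let jW : A →+* W := j.codRestrict W.toSubring hW
    let ρ : W →+* IsLocalRing.ResidueField W := IsLocalRing.residue W
    let û : Fin 3 → W := fun i => ⟨u i, huW i⟩
    have hnon : ∀ x : W, (x : Ω) ∈ W.nonunits → ρ x = 0 := by
      intro x hx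
      obtain ⟨hx1, hx2⟩ := (W.mem_nonunits_iff_exists_mem_maximalIdeal).1 hx
      exact (IsLocalRing.residue_eq_zero_iff x).2 hx2
    have hval : ∀ t, ((val (jW.comp f) (jW t) û P : W) : Ω) = Λ t := by
      intro t
      have e1 := val_map W.subtype (jW.comp f) (jW t) û P
      exact e1
    have hρ : ∀ t, Λ t ∈ W.nonunits → val ((ρ.comp jW).comp f) ((ρ.comp jW) t)
        (fun i => ρ (û i)) P = 0 := by
      intro t ht
      have e1 := val_map ρ (jW.comp f) (jW t) û P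
      have e2 : ρ (val (jW.comp f) (jW t) û P) = 0 := hnon _ (by rw [hval]; exact ht)
      rw [e2] at e1
      exact e1.symm
    have hu0 : (fun i => ρ (û i)) ≠ 0 := by
      intro h
      have h1 := congrFun h k0
      have h2 : û k0 = 1 := Subtype.ext hu1
      simp only [h2, map_one, Pi.zero_apply] at h1
      exact one_ne_zero h1
    refine null_val f (ρ.comp jW) P Q t t' (hT t ht t' ht' hne) (fun i => ρ (û i)) hu0
      (hρ t h1) (hρ t' h2) ?_
    have e1 := eval_map' ρ (jW.comp f) û Q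
    have e2 : ((MvPolynomial.eval₂ (jW.comp f) û Q : W) : Ω) = q' :=
      eval_map' W.subtype (jW.comp f) û Q
    have e3 : ρ (MvPolynomial.eval₂ (jW.comp f) û Q) = 0 := hnon _ (by rw [e2]; exact h3)
    rw [e3] at e1
    exact e1.symm
  have hja : IsU W (j a) := ⟨(_root_.map_ne_zero j).2 ha, hW a, by rw [← map_inv₀]; exact hW _⟩
  have hne : ∀ t, val (j.comp f) (j t) x P ≠ 0 → Λ t ≠ 0 := by
    intro t ht h
    rw [hΛΛ, h, mul_zero] at ht
    exact ht rfl
  obtain ⟨n, hn, hU⟩ := ratio_abs W R Λ hΛW q' (j a) hq'W hja ℓ hℓ hrel'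
    (fun i hi i' hi' hne h1 h2 => hres i i' hi hi' hne h1 h2) θ θ' hθ hθ' (hne θ h0) (hne θ' h0')
  have hrat : val (j.comp f) (j θ) x P / val (j.comp f) (j θ') x P = Λ θ / Λ θ' := by
    rw [hΛΛ, hΛΛ θ', mul_div_mul_left _ _ (pow_ne_zero _ hxk0)]
  refine ⟨q' ^ n, k0, n, ?_, ?_, ?_, ?_⟩
  · rw [hqq, mul_div_cancel_left₀ _ (pow_ne_zero _ hxk0)]
  · rcases hn with rfl | hn
    · rw [zpow_zero]
      exact one_ne_zero
    · exact zpow_ne_zero _ hn
  · rw [hrat]
    exact hU.2.1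
  · rw [hrat]
    have := hU.2.2
    rwa [inv_div] at this

end Pool.Agent.U190.SN
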