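import Mathlib

/-!
# A divisibility
-/

set_option autoImplicit false

namespace Pool.Agent.U190.SN

open Finset

/-- the valuation of `k` at an odd prime is less than `k - 1` -/
lemma val_lt {ℓ : ℕ} (hℓ : 3 ≤ ℓ) (k v : ℕ) (hk : 2 ≤ k) (hv : ℓ ^ v ∣ k) : v ≤ k - 2 := by
  by_contra h
  push Not at h
  have h1 : ℓ ^ (k - 1) ≤ k := by
    refine Nat.le_of_dvd (by omega) (dvd_trans (pow_dvd_pow ℓ (by omega)) hv)
  have h2 : 3 ^ (k - 1) ≤ ℓ ^ (k - 1) := Nat.pow_le_pow_left hℓ _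
  have h3 : k < 3 ^ (k - 1) := by
    obtain ⟨m, rfl⟩ : ∃ m, k = m + 2 := ⟨k - 2, by omega⟩
    have h4 : ∀ m : ℕ, m + 2 < 3 ^ (m + 1) := by
      intro m
      induction m with
      | zero => norm_num
      | succ m ih =>
        rw [pow_succ]
        omega
    have := h4 m
    have h5 : m + 2 - 1 = m + 1 := by omega
    rw [h5]
    exact this
  omega

/-- the terms of the binomial expansion -/
lemma term_dvd {ℓ n w k : ℕ} (hℓ : ℓ.Prime) (h3 : 3 ≤ ℓ) (hw : ℓ ^ w ∣ n) (hk : 2 ≤ k) (u : ℤ)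
    (hu : (ℓ : ℤ) ∣ u) : ((ℓ ^ w : ℕ) : ℤ) ∣ (n.choose k : ℤ) * u ^ (k - 2) := by
  obtain ⟨v, k', hk', hkv⟩ := Nat.exists_eq_pow_mul_and_not_dvd (show k ≠ 0 by omega) ℓ hℓ.ne_one
  have h1 : n ∣ n.choose k * k := by
    obtain ⟨m, rfl⟩ : ∃ m, k = m + 1 := ⟨k - 1, by omega⟩
    rcases Nat.eq_zero_or_pos n with rfl | hn
    · simp
    · obtain ⟨n', rfl⟩ : ∃ n', n = n' + 1 := ⟨n - 1, by omega⟩
      rw [← Nat.add_one_mul_choose_eq]
      exact Dvd.intro _ rfl
  have h2 : ℓ ^ w ∣ ℓ ^ v * n.choose k := by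
    have h4 : ℓ ^ w ∣ (ℓ ^ v * n.choose k) * k' := by
      have h5 : (ℓ ^ v * n.choose k) * k' = n.choose k * k := by
        rw [hkv]
        ring
      rw [h5]
      exact hw.trans h1
    exact (Nat.Coprime.pow_left w ((Nat.Prime.coprime_iff_not_dvd hℓ).2 hk')).dvd_of_dvd_mul_right h4
  have h5 : ((ℓ ^ v : ℕ) : ℤ) ∣ u ^ (k - 2) := by
    have h6 : v ≤ k - 2 := val_lt h3 k v hk (hkv ▸ Dvd.intro _ rfl)
    push_cast
    exact (pow_dvd_pow _ h6).trans (pow_dvd_pow_of_dvd hu _)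
  have h7 : ((ℓ ^ w : ℕ) : ℤ) ∣ ((ℓ ^ v * n.choose k : ℕ) : ℤ) := Int.natCast_dvd_natCast.2 h2
  refine h7.trans ?_
  rw [Nat.cast_mul, mul_comm]
  exact mul_dvd_mul_left _ h5

/-- the double geometric sum -/
theorem double_sum_dvd (n N c : ℕ) (hn : Odd n) (hN : N ∣ n) (hT : N ∣ ∑ j ∈ range n, c ^ j) :
    N ∣ ∑ i ∈ range n, ∑ j ∈ range i, c ^ j := by
  rw [Nat.dvd_iff_prime_pow_dvd_dvd]
  intro ℓ w hℓ hw
  have hwn : ℓ ^ w ∣ n := hw.trans hN
  rcases Nat.eq_zero_or_pos w with rfl | hw0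
  · rw [pow_zero]
    exact one_dvd _
  have h3 : 3 ≤ ℓ := by
    have h4 : ℓ ∣ n := (dvd_pow_self ℓ hw0.ne').trans hwn
    have h5 : ℓ ≠ 2 := by
      rintro rfl
      exact (Nat.not_even_iff_odd.2 hn) (even_iff_two_dvd.2 h4)
    have := hℓ.two_le
    omega
  set u : ℤ := (c : ℤ) - 1 with hu
  set S : ℤ := ∑ i ∈ range n, ∑ j ∈ range i, (c : ℤ) ^ j with hS
  have hgeom : ∀ i : ℕ, (∑ j ∈ range i, (c : ℤ) ^ j) * u = (c : ℤ) ^ i - 1 := fun i =>
    geom_sum_mul _ _
  have hSu : S * u = (∑ j ∈ range n, (c : ℤ) ^ j) - n := by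
    rw [hS, Finset.sum_mul, Finset.sum_congr rfl fun i _ => hgeom i, Finset.sum_sub_distrib]
    simp
  have hgoal : ((ℓ ^ w : ℕ) : ℤ) ∣ S := by
    by_cases hlu : (ℓ : ℤ) ∣ u
    · by_cases hu0 : u = 0
      · have hc : (c : ℤ) = 1 := by omega
        have hS' : S = ((∑ i ∈ range n, i : ℕ) : ℤ) := by
          rw [hS, hc]
          push_cast
          exact Finset.sum_congr rfl fun i _ => by simp
        rw [hS', Int.natCast_dvd_natCast]
        obtain ⟨r, hr⟩ := hn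
        have h1 := Finset.sum_range_id_mul_two n
        have h2 : n - 1 = 2 * r := by omega
        rw [h2] at h1
        have h4 : ∑ i ∈ range n, i = n * r := by
          have h5 : (∑ i ∈ range n, i) * 2 = (n * r) * 2 := by
            rw [h1]
            ring
          exact Nat.eq_of_mul_eq_mul_right two_pos h5
        rw [h4]
        exact hwn.trans (Dvd.intro _ rfl)
      · have hexp : (c : ℤ) ^ n = ∑ k ∈ range (n + 1), (n.choose k : ℤ) * u ^ k := by
          have h1 : (c : ℤ) = u + 1 := by rw [hu]; ring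
          rw [h1, add_pow]
          exact Finset.sum_congr rfl fun k _ => by rw [one_pow]; ring
        have hS2 : S * u * u = (c : ℤ) ^ n - 1 - n * u := by
          rw [hSu, sub_mul, hgeom]
        obtain ⟨m, hm⟩ : ∃ m, n = m + 1 := by
          obtain ⟨r, hr⟩ := hn
          exact ⟨2 * r, hr⟩
        have hS3 : S * u * u = (∑ k ∈ range m, (n.choose (k + 2) : ℤ) * u ^ k) * u * u := by
          rw [hS2, hexp, hm, Finset.sum_range_succ', Finset.sum_range_succ']
          rw [Finset.sum_mul, Finset.sum_mul]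
          have e1 : ∑ k ∈ range m, ((m + 1).choose (k + 1 + 1) : ℤ) * u ^ (k + 1 + 1) =
              ∑ k ∈ range m, ((m + 1).choose (k + 2) : ℤ) * u ^ k * u * u :=
            Finset.sum_congr rfl fun k _ => by
              rw [pow_succ, pow_succ]
              ring
          rw [e1]
          simp
        have hS4 : S = ∑ k ∈ range m, (n.choose (k + 2) : ℤ) * u ^ k := by
          have h1 := mul_right_cancel₀ hu0 hS3
          exact mul_right_cancel₀ hu0 h1
        rw [hS4]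
        refine Finset.dvd_sum fun k _ => ?_
        exact term_dvd (k := k + 2) hℓ h3 hwn (by omega) u hlu
    · have h1 : ((ℓ ^ w : ℕ) : ℤ) ∣ S * u := by
        rw [hSu]
        refine dvd_sub ?_ (Int.natCast_dvd_natCast.2 hwn)
        have h4 : ((∑ j ∈ range n, c ^ j : ℕ) : ℤ) = ∑ j ∈ range n, (c : ℤ) ^ j := by push_cast; rfl
        rw [← h4]
        exact Int.natCast_dvd_natCast.2 (hw.trans hT)
      have h2 : IsCoprime ((ℓ ^ w : ℕ) : ℤ) u := by
        push_cast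
        exact ((Nat.prime_iff_prime_int.1 hℓ).coprime_iff_not_dvd.2 hlu).pow_left
      exact h2.dvd_of_dvd_mul_right h1
  have hfin : ((∑ i ∈ range n, ∑ j ∈ range i, c ^ j : ℕ) : ℤ) = S := by
    rw [hS]
    push_cast
    rfl
  rw [← hfin] at hgoal
  exact Int.natCast_dvd_natCast.1 hgoal

end Pool.Agent.U190.SN
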