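import Pool.Agent.W620.SC.Norm
import Pool.Agent.U190.SN.Num

/-!
# The norm principle for functions whose ratios are `ℓ`-th powers

`s` is an action of `Gal(A/k)` on a field `M ⊇ A`; `τ` generates a cyclic quotient of odd order `ℓ`
with kernel `H`.  If `lam ∈ M` is fixed by `H` and `lam/s(τ)lam` is an `ℓ`-th power in `M`, then the norm
of `lam` is a norm of a constant times an `ℓ`-th power of an invariant element.
-/

set_option autoImplicit false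

namespace Pool.Agent.U190.SN

open Pool.Agent.W620.SC Finset

/-- an action of the Galois group on a field that contains the algebraic closure -/
structure SDat (k A M : Type*) [Field k] [Field A] [Field M] [Algebra k A] where
  s : (A ≃ₐ[k] A) →* RingAut M
  ι : A →+* M
  hι : ∀ σ a, s σ (ι a) = ι (σ a)
  cont : ∀ w : M, ∃ E : IntermediateField k A, FiniteDimensional k E ∧
    ∀ σ ∈ E.fixingSubgroup, s σ w = w

section gen

variable {G M : Type*} [Group G] [Field M] (s : G →* RingAut M) (H : Subgroup G) (τ : G)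
  (hτH : ∀ σ ∈ H, τ⁻¹ * σ * τ ∈ H)

include hτH

lemma fix_pow (m : M) (hm : ∀ σ ∈ H, s σ m = m) (i : ℕ) :
    ∀ σ ∈ H, s σ (s (τ ^ i) m) = s (τ ^ i) m := by
  induction i with
  | zero =>
    intro σ hσ
    rw [pow_zero, map_one]
    exact hm σ hσ
  | succ i ih =>
    intro σ hσ
    have h1 : s (τ ^ (i + 1)) m = s τ (s (τ ^ i) m) := by
      rw [pow_succ', map_mul]
      rfl
    have h2 : s σ (s τ (s (τ ^ i) m)) = s τ (s (τ⁻¹ * σ * τ) (s (τ ^ i) m)) := by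
      change (s σ * s τ) (s (τ ^ i) m) = (s τ * s (τ⁻¹ * σ * τ)) (s (τ ^ i) m)
      rw [← map_mul, ← map_mul]
      congr 2
      group
    rw [h1, h2, ih _ (hτH σ hσ)]

omit hτH

lemma s_succ (m : M) (i : ℕ) : s (τ ^ (i + 1)) m = s τ (s (τ ^ i) m) := by
  rw [pow_succ', map_mul]
  rfl

lemma s_succ' (m : M) (i : ℕ) : s (τ ^ (i + 1)) m = s (τ ^ i) (s τ m) := by
  rw [pow_succ, map_mul]
  rfl

/-- the norm is invariant under `τ` -/
lemma norm_inv (ℓ : ℕ) (hτℓ : τ ^ ℓ ∈ H) (m : M) (h0 : m ≠ 0) (hm : ∀ σ ∈ H, s σ m = m) :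
    s τ (∏ i ∈ range ℓ, s (τ ^ i) m) = ∏ i ∈ range ℓ, s (τ ^ i) m := by
  have h1 : s τ (∏ i ∈ range ℓ, s (τ ^ i) m) * m = (∏ i ∈ range ℓ, s (τ ^ i) m) * m := by
    have h2 : ∏ i ∈ range (ℓ + 1), s (τ ^ i) m = s τ (∏ i ∈ range ℓ, s (τ ^ i) m) * m := by
      rw [Finset.prod_range_succ', map_prod, pow_zero, map_one]
      congr 1
      exact Finset.prod_congr rfl fun i _ => s_succ s τ m i
    have h3 : ∏ i ∈ range (ℓ + 1), s (τ ^ i) m = (∏ i ∈ range ℓ, s (τ ^ i) m) * m := by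
      rw [Finset.prod_range_succ, hm _ hτℓ]
    rw [← h2, h3]
  exact mul_right_cancel₀ h0 h1

/-- the norm of `m / τ m` -/
lemma norm_ratio (ℓ : ℕ) (hτℓ : τ ^ ℓ ∈ H) (m : M) (h0 : m ≠ 0) (hm : ∀ σ ∈ H, s σ m = m) :
    ∏ i ∈ range ℓ, s (τ ^ i) (m / s τ m) = 1 := by
  have h1 : ∏ i ∈ range ℓ, s (τ ^ i) (m / s τ m) =
      (∏ i ∈ range ℓ, s (τ ^ i) m) / s τ (∏ i ∈ range ℓ, s (τ ^ i) m) := by
    rw [map_prod, ← Finset.prod_div_distrib]
    refine Finset.prod_congr rfl fun i _ => ?_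
    rw [map_div₀, ← s_succ', ← s_succ]
  rw [h1, norm_inv s H τ ℓ hτℓ m h0 hm]
  exact div_self (Finset.prod_ne_zero_iff.2 fun i _ => (_root_.map_ne_zero _).2 h0)

end gen

/-- the action on the field itself -/
def autHom (k A : Type*) [Field k] [Field A] [Algebra k A] : (A ≃ₐ[k] A) →* RingAut A where
  toFun := fun e => e.toRingEquiv
  map_one' := rfl
  map_mul' := fun _ _ => rfl

section h90

variable {k A : Type*} [Field k] [Field A] [Algebra k A] (H : Subgroup (A ≃ₐ[k] A))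
  (τ : A ≃ₐ[k] A) (hτH : ∀ σ ∈ H, τ⁻¹ * σ * τ ∈ H) (ℓ : ℕ) (hτℓ : τ ^ ℓ ∈ H) (θ : A)
  (hθ : ∀ σ ∈ H, σ θ = θ)
  (hinj : ∀ i j : ℕ, i < ℓ → j < ℓ → (τ ^ i) θ = (τ ^ j) θ → i = j)

include hτH hτℓ hθ hinj

/-- Hilbert 90 -/
theorem h90 (hℓ : 0 < ℓ) (c : A) (hc : ∀ σ ∈ H, σ c = c) (hN : ∏ i ∈ range ℓ, (τ ^ i) c = 1) :
    ∃ b : A, b ≠ 0 ∧ (∀ σ ∈ H, σ b = b) ∧ c * τ b = b := by
  classical
  have hc0 : c ≠ 0 := by
    rintro rfl
    have h1 : ∏ i ∈ range ℓ, (τ ^ i) (0 : A) = 0 :=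
      Finset.prod_eq_zero (Finset.mem_range.2 hℓ) (map_zero _)
    rw [h1] at hN
    exact zero_ne_one hN
  set L : IntermediateField k A := IntermediateField.fixedField H with hL
  have hmemL : ∀ x : A, x ∈ L ↔ ∀ σ ∈ H, σ x = x := fun x => IntermediateField.mem_fixedField_iff _ _
  set g : ℕ → A := fun i => ∏ j ∈ range i, (τ ^ j) c with hg
  have hg0 : ∀ i, g i ≠ 0 := fun i => Finset.prod_ne_zero_iff.2 fun j _ =>
    (_root_.map_ne_zero _).2 hc0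
  have hex : ∃ x : L, ∑ i : Fin ℓ, g i * (τ ^ (i : ℕ)) (x : A) ≠ 0 := by
    by_contra hcon
    push Not at hcon
    have hli := linearIndependent_monoidHom L A
    set f : Fin ℓ → (L →* A) := fun i =>
      (((τ ^ (i : ℕ) : A ≃ₐ[k] A) : A →+* A).comp (algebraMap L A) : L →+* A) with hf
    have hfinj : Function.Injective f := by
      intro i j h
      have h1 := DFunLike.congr_fun h ⟨θ, (hmemL θ).2 hθ⟩
      exact Fin.ext (hinj i j i.2 j.2 h1)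
    have hli' := hli.comp f hfinj
    rw [Fintype.linearIndependent_iff] at hli'
    have h1 := hli' (fun i => g i) (by
      funext x
      simp only [Finset.sum_apply, Pi.smul_apply, smul_eq_mul, Function.comp_apply, Pi.zero_apply]
      exact hcon x)
    exact hg0 0 (h1 ⟨0, hℓ⟩)
  obtain ⟨x, hx⟩ := hex
  set h : ℕ → A := fun i => g i * (τ ^ i) (x : A) with hh
  have hsum : ∑ i : Fin ℓ, g i * (τ ^ (i : ℕ)) (x : A) = ∑ i ∈ range ℓ, h i :=
    Fin.sum_univ_eq_sum_range h ℓ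
  rw [hsum] at hx
  refine ⟨_, hx, ?_, ?_⟩
  · intro σ hσ
    rw [map_sum]
    refine Finset.sum_congr rfl fun i _ => ?_
    rw [hh]
    simp only
    rw [map_mul, hg]
    simp only
    rw [map_prod]
    congr 1
    · refine Finset.prod_congr rfl fun j _ => ?_
      exact fix_pow (autHom k A) H τ hτH c hc j σ hσ
    · exact fix_pow (autHom k A) H τ hτH (x : A) ((hmemL _).1 x.2) i σ hσ
  · have h1 : c * τ (∑ i ∈ range ℓ, h i) = ∑ i ∈ range ℓ, h (i + 1) := by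
      rw [map_sum, Finset.mul_sum]
      refine Finset.sum_congr rfl fun i _ => ?_
      rw [hh, hg]
      simp only
      rw [map_mul, map_prod, Finset.prod_range_succ', ← mul_assoc, pow_zero]
      have e1 : ∀ y : A, τ ((τ ^ i) y) = (τ ^ (i + 1)) y := by
        intro y
        rw [pow_succ']
        rfl
      rw [e1]
      congr 1
      rw [mul_comm]
      congr 1
      refine Finset.prod_congr rfl fun j _ => ?_
      rw [pow_succ']
      rfl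
    rw [h1]
    have h2 : h ℓ = h 0 := by
      rw [hh, hg]
      simp only
      rw [hN, Finset.prod_range_zero, pow_zero, one_mul, one_mul]
      exact ((hmemL _).1 x.2) _ hτℓ
    have h3 : ∑ i ∈ range ℓ, h (i + 1) + h 0 = ∑ i ∈ range ℓ, h i + h ℓ := by
      rw [← Finset.sum_range_succ', Finset.sum_range_succ]
    rw [h2] at h3
    exact add_right_cancel h3

end h90

section root

variable {k A : Type*} [Field k] [Field A] [Algebra k A]

/-- the double product of the conjugates of a root of unity of norm 1 -/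
lemma root_double {ℓ : ℕ} (hn : Odd ℓ) (τ : A ≃ₐ[k] A) (ζ : A) (hζ : ζ ^ ℓ = 1)
    (hN : ∏ j ∈ range ℓ, (τ ^ j) ζ = 1) :
    ∏ i ∈ range ℓ, ∏ j ∈ range i, (τ ^ j) ζ = 1 := by
  have hdvd : orderOf ζ ∣ ℓ := orderOf_dvd_of_pow_eq_one hζ
  have hpos : 0 < orderOf ζ := Nat.pos_of_dvd_of_pos hdvd hn.pos
  have hpr : IsPrimitiveRoot ζ (orderOf ζ) := IsPrimitiveRoot.orderOf ζ
  have : NeZero (orderOf ζ) := ⟨hpos.ne'⟩
  obtain ⟨c, -, hc⟩ := hpr.eq_pow_of_pow_eq_one (ξ := τ ζ)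
    (by rw [← map_pow, pow_orderOf_eq_one, map_one])
  have hpow : ∀ n : ℕ, (τ ^ n) ζ = ζ ^ c ^ n := by
    intro n
    induction n with
    | zero => rw [pow_zero, pow_zero, pow_one]; rfl
    | succ n ih =>
      have e1 : (τ ^ (n + 1)) ζ = τ ((τ ^ n) ζ) := by
        rw [pow_succ']
        rfl
      rw [e1, ih, map_pow, ← hc, ← pow_mul, pow_succ, mul_comm]
  have hin : ∀ i : ℕ, ∏ j ∈ range i, (τ ^ j) ζ = ζ ^ ∑ j ∈ range i, c ^ j := by
    intro i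
    rw [Finset.prod_congr rfl fun j _ => hpow j, Finset.prod_pow_eq_pow_sum]
  rw [hin] at hN
  rw [Finset.prod_congr rfl fun i _ => hin i, Finset.prod_pow_eq_pow_sum]
  exact orderOf_dvd_iff_pow_eq_one.1
    (double_sum_dvd ℓ (orderOf ζ) c hn hdvd (orderOf_dvd_iff_pow_eq_one.2 hN))

lemma sum_odd {ℓ r : ℕ} (hr : ℓ = 2 * r + 1) : ∑ i ∈ range ℓ, i = r * ℓ := by
  have h1 := Finset.sum_range_id_mul_two ℓ
  have h2 : ℓ - 1 = 2 * r := by omega
  rw [h2] at h1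
  have h3 : (∑ i ∈ range ℓ, i) * 2 = (r * ℓ) * 2 := by
    rw [h1]
    ring
  exact Nat.eq_of_mul_eq_mul_right two_pos h3

end root

section key

variable {k A M : Type*} [Field k] [Field A] [Field M] [Algebra k A] (D : SDat k A M)

/-- **The key lemma.** -/
theorem key [CharZero k] [IsAlgClosed A] [Algebra.IsAlgebraic k A] {ℓ : ℕ} (hn : Odd ℓ)
    (H : Subgroup (A ≃ₐ[k] A)) (τ : A ≃ₐ[k] A)
    (hτH : ∀ σ ∈ H, τ⁻¹ * σ * τ ∈ H) (hτℓ : τ ^ ℓ ∈ H) (θ : A) (hθ : ∀ σ ∈ H, σ θ = θ)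
    (hinj : ∀ i j : ℕ, i < ℓ → j < ℓ → (τ ^ i) θ = (τ ^ j) θ → i = j)
    (lam : M) (h0 : lam ≠ 0) (hlam : ∀ σ ∈ H, D.s σ lam = lam)
    (α : M) (hα : α ^ ℓ = lam / D.s τ lam) :
    ∃ z : A, z ≠ 0 ∧ (∀ σ ∈ H, σ z = z) ∧ ∃ m : M, m ≠ 0 ∧ (∀ σ ∈ H, D.s σ m = m) ∧
      D.s τ m = m ∧
      ∏ i ∈ range ℓ, D.s (τ ^ i) lam = D.ι (∏ i ∈ range ℓ, (τ ^ i) z) * m ^ ℓ := by
  classical
  have hac : IsAlgClosure k A := ⟨inferInstance, inferInstance⟩
  have hnorm : Normal k A := IsAlgClosure.normal k A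
  have hℓ0 : 0 < ℓ := hn.pos
  obtain ⟨r, hr⟩ := id hn
  have hsum := sum_odd hr
  have hfixι : ∀ (x : A), (∀ σ ∈ H, D.s σ (D.ι x) = D.ι x) → ∀ σ ∈ H, σ x = x := by
    intro x hx σ hσ
    apply D.ι.injective
    rw [← D.hι]
    exact hx σ hσ
  have hιne : ∀ x : A, x ≠ 0 → D.ι x ≠ 0 := fun x hx => (_root_.map_ne_zero _).2 hx
  have hNι : ∀ z : A, D.ι (∏ i ∈ range ℓ, (τ ^ i) z) = ∏ i ∈ range ℓ, D.s (τ ^ i) (D.ι z) := by
    intro z
    rw [map_prod]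
    exact Finset.prod_congr rfl fun i _ => (D.hι _ _).symm
  have hNpow : ∀ x : M, ∀ n : ℕ, ∏ i ∈ range ℓ, D.s (τ ^ i) (x ^ n) =
      (∏ i ∈ range ℓ, D.s (τ ^ i) x) ^ n := by
    intro x n
    rw [← Finset.prod_pow]
    exact Finset.prod_congr rfl fun i _ => map_pow _ _ _
  have hNmul : ∀ x y : M, ∏ i ∈ range ℓ, D.s (τ ^ i) (x * y) =
      (∏ i ∈ range ℓ, D.s (τ ^ i) x) * ∏ i ∈ range ℓ, D.s (τ ^ i) y := by
    intro x y
    rw [← Finset.prod_mul_distrib]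
    exact Finset.prod_congr rfl fun i _ => map_mul _ _ _
  have hlam1 : ∀ σ ∈ H, D.s σ (D.s τ lam) = D.s τ lam := by
    have := fix_pow D.s H τ hτH lam hlam 1
    rwa [pow_one] at this
  have hlam10 : D.s τ lam ≠ 0 := (_root_.map_ne_zero _).2 h0
  -- step 1: Kummer theory
  set ρ : M := lam / D.s τ lam with hρ
  have hρ0 : ρ ≠ 0 := div_ne_zero h0 hlam10
  have hρfix : ∀ σ ∈ H, D.s σ ρ = ρ := by
    intro σ hσ
    rw [hρ, map_div₀, hlam σ hσ, hlam1 σ hσ]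
  have hα0 : α ≠ 0 := by
    rintro rfl
    rw [zero_pow hℓ0.ne'] at hα
    exact hρ0 hα.symm
  obtain ⟨E, hE, hE'⟩ := D.cont α
  obtain ⟨β, hβ0, hβ⟩ := exists_fixed_multiple D.s D.ι D.hι H α hα0 (by
    intro σ hσ
    have h1 : (D.s σ α / α) ^ ℓ = D.ι 1 := by
      rw [div_pow, ← map_pow, hα, hρfix σ hσ, div_self hρ0, map_one]
    obtain ⟨ζ, hζ⟩ := root_mem D.ι hℓ0 h1
    exact ⟨ζ, by rw [hζ, div_mul_cancel₀ _ hα0]⟩) E hE'
  set γ : M := D.ι β * α with hγ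
  have hγ0 : γ ≠ 0 := mul_ne_zero (hιne β hβ0) hα0
  set c : A := (β ^ ℓ)⁻¹ with hc
  have hc0 : c ≠ 0 := inv_ne_zero (pow_ne_zero _ hβ0)
  have hρc : ρ = D.ι c * γ ^ ℓ := by
    have h1 : D.ι β ^ ℓ ≠ 0 := pow_ne_zero _ (hιne β hβ0)
    rw [hc, hγ, map_inv₀, map_pow, mul_pow, hα]
    field_simp
  have hcfix : ∀ σ ∈ H, σ c = c := by
    apply hfixι
    intro σ hσ
    have h1 : D.ι c = ρ / γ ^ ℓ := by
      rw [hρc, mul_div_cancel_right₀ _ (pow_ne_zero _ hγ0)]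
    rw [h1, map_div₀, map_pow, hρfix σ hσ, hβ σ hσ]
  -- step 2: the norm of `γ`
  have hN1 : (1 : M) = D.ι (∏ i ∈ range ℓ, (τ ^ i) c) * (∏ i ∈ range ℓ, D.s (τ ^ i) γ) ^ ℓ := by
    rw [← norm_ratio D.s H τ ℓ hτℓ lam h0 hlam, hNι, ← hNpow, ← hNmul, ← hρc]
  have hNc0 : ∏ i ∈ range ℓ, (τ ^ i) c ≠ 0 :=
    Finset.prod_ne_zero_iff.2 fun i _ => (_root_.map_ne_zero _).2 hc0
  obtain ⟨e, he⟩ := root_mem D.ι hℓ0 (h := ∏ i ∈ range ℓ, D.s (τ ^ i) γ)
    (b := (∏ i ∈ range ℓ, (τ ^ i) c)⁻¹) (by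
      rw [map_inv₀]
      exact eq_inv_of_mul_eq_one_right hN1.symm)
  have hNγ0 : ∏ i ∈ range ℓ, D.s (τ ^ i) γ ≠ 0 :=
    Finset.prod_ne_zero_iff.2 fun i _ => (_root_.map_ne_zero _).2 hγ0
  have he0 : e ≠ 0 := by
    rintro rfl
    rw [map_zero] at he
    exact hNγ0 he.symm
  have heH : ∀ σ ∈ H, σ e = e := by
    apply hfixι
    intro σ hσ
    rw [he, map_prod]
    exact Finset.prod_congr rfl fun i _ => fix_pow D.s H τ hτH γ hβ i σ hσ
  have heτ : τ e = e := by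
    apply D.ι.injective
    rw [← D.hι, he, norm_inv D.s H τ ℓ hτℓ γ hγ0 hβ]
  have heτi : ∀ i : ℕ, (τ ^ i) e = e := by
    intro i
    induction i with
    | zero => rfl
    | succ i ih =>
      rw [pow_succ']
      change τ ((τ ^ i) e) = e
      rw [ih, heτ]
  have hNce : (∏ i ∈ range ℓ, (τ ^ i) (c * e)) = 1 := by
    have h1 : ∏ i ∈ range ℓ, (τ ^ i) (c * e) = (∏ i ∈ range ℓ, (τ ^ i) c) * e ^ ℓ := by
      rw [← Finset.card_range ℓ, ← Finset.prod_const, Finset.card_range,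
        ← Finset.prod_mul_distrib]
      refine Finset.prod_congr rfl fun i _ => ?_
      rw [map_mul, heτi]
    apply D.ι.injective
    rw [h1, map_mul, map_pow, he, ← hN1, map_one]
  obtain ⟨b, hb0, hbH, hb⟩ := h90 H τ hτH ℓ hτℓ θ hθ hinj hℓ0 (c * e)
    (fun σ hσ => by rw [map_mul, hcfix σ hσ, heH σ hσ]) hNce
  -- step 3: the function `μ`
  set μ : M := lam / D.ι b with hμ
  have hμ0 : μ ≠ 0 := div_ne_zero h0 (hιne b hb0)
  have hμH : ∀ σ ∈ H, D.s σ μ = μ := by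
    intro σ hσ
    rw [hμ, map_div₀, hlam σ hσ, D.hι, hbH σ hσ]
  have hτμ : D.s τ μ = μ * D.ι e / γ ^ ℓ := by
    have hτb0 : D.ι (τ b) ≠ 0 := hιne _ ((_root_.map_ne_zero _).2 hb0)
    have h1 : lam * D.ι (τ b) * D.ι e = D.ι b * γ ^ ℓ * D.s τ lam * D.ι e / (D.ι e) := by
      rw [mul_div_cancel_right₀ _ (hιne e he0)]
      have h2 : lam = D.ι c * γ ^ ℓ * D.s τ lam := by
        rw [← hρc, hρ, div_mul_cancel₀ _ hlam10]
      have h3 : D.ι c * D.ι e * D.ι (τ b) = D.ι b := by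
        rw [← map_mul, ← map_mul, hb]
      rw [← h3]
      nth_rewrite 1 [h2]
      ring
    rw [mul_div_cancel_right₀ _ (hιne e he0)] at h1
    rw [hμ, map_div₀, D.hι, div_eq_div_iff hτb0 (pow_ne_zero _ hγ0), div_mul_eq_mul_div,
      div_mul_eq_mul_div, eq_div_iff (hιne b hb0)]
    linear_combination -h1
  -- step 4: the norm of `μ` is an `ℓ`-th power
  set g : ℕ → M := fun i => ∏ j ∈ range i, D.s (τ ^ j) γ with hg
  have hg0 : ∀ i, g i ≠ 0 := fun i =>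
    Finset.prod_ne_zero_iff.2 fun j _ => (_root_.map_ne_zero _).2 hγ0
  have hgsucc : ∀ i, g (i + 1) = g i * D.s (τ ^ i) γ := fun i => Finset.prod_range_succ _ _
  have hpow : ∀ i, D.s (τ ^ i) μ = μ * D.ι e ^ i / g i ^ ℓ := by
    intro i
    induction i with
    | zero =>
      have e0 : g 0 = 1 := Finset.prod_range_zero _
      rw [e0, pow_zero, pow_zero, one_pow, div_one, mul_one, map_one]
      rfl
    | succ i ih =>
      rw [s_succ', hτμ, map_div₀, map_mul, map_pow (D.s (τ ^ i)) γ ℓ, ih, D.hι, heτi, hgsucc,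
        pow_succ (D.ι e) i, mul_pow (g i)]
      have h1 := hg0 i
      have h2 : D.s (τ ^ i) γ ≠ 0 := (_root_.map_ne_zero _).2 hγ0
      field_simp
  set δ : M := μ * D.ι e ^ r / ∏ i ∈ range ℓ, g i with hδ
  have hG0 : ∏ i ∈ range ℓ, g i ≠ 0 := Finset.prod_ne_zero_iff.2 fun i _ => hg0 i
  have hδ0 : δ ≠ 0 := div_ne_zero (mul_ne_zero hμ0 (pow_ne_zero _ (hιne e he0))) hG0
  have hNμ : ∏ i ∈ range ℓ, D.s (τ ^ i) μ = δ ^ ℓ := by
    have h1 : δ ^ ℓ = μ ^ ℓ * D.ι e ^ (r * ℓ) / (∏ i ∈ range ℓ, g i) ^ ℓ := by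
      rw [hδ, div_pow (μ * D.ι e ^ r) _ ℓ, mul_pow μ _ ℓ, ← pow_mul]
    rw [h1, Finset.prod_congr rfl fun i _ => hpow i, Finset.prod_div_distrib,
      Finset.prod_mul_distrib, Finset.prod_const, Finset.card_range,
      Finset.prod_pow_eq_pow_sum, hsum, Finset.prod_pow]
  have hgH : ∀ i, ∀ σ ∈ H, D.s σ (g i) = g i := by
    intro i σ hσ
    rw [hg]
    simp only
    rw [map_prod]
    exact Finset.prod_congr rfl fun j _ => fix_pow D.s H τ hτH γ hβ j σ hσ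
  have hδH : ∀ σ ∈ H, D.s σ δ = δ := by
    intro σ hσ
    rw [hδ, map_div₀, map_mul, map_pow, hμH σ hσ, D.hι, heH σ hσ, map_prod]
    congr 1
    exact Finset.prod_congr rfl fun i _ => hgH i σ hσ
  -- step 5: the root of unity
  obtain ⟨ζ, hζ⟩ := root_mem D.ι hℓ0 (h := D.s τ δ / δ) (b := 1) (by
    rw [div_pow, ← map_pow, ← hNμ, norm_inv D.s H τ ℓ hτℓ μ hμ0 hμH, map_one]
    exact div_self (Finset.prod_ne_zero_iff.2 fun i _ => (_root_.map_ne_zero _).2 hμ0))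
  have hζ1 : ζ ^ ℓ = 1 := by
    apply D.ι.injective
    rw [map_pow, hζ, div_pow, ← map_pow, ← hNμ, norm_inv D.s H τ ℓ hτℓ μ hμ0 hμH, map_one]
    exact div_self (Finset.prod_ne_zero_iff.2 fun i _ => (_root_.map_ne_zero _).2 hμ0)
  have hδ1 : ∀ σ ∈ H, D.s σ (D.s τ δ) = D.s τ δ := by
    have := fix_pow D.s H τ hτH δ hδH 1
    rwa [pow_one] at this
  have hζH : ∀ σ ∈ H, σ ζ = ζ := by
    apply hfixι
    intro σ hσ
    rw [hζ, map_div₀, hδ1 σ hσ, hδH σ hσ]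
  have hsδ : D.s τ δ = D.ι ζ * δ := by rw [hζ, div_mul_cancel₀ _ hδ0]
  have hδi : ∀ i : ℕ, D.s (τ ^ i) δ = D.ι (∏ j ∈ range i, (τ ^ j) ζ) * δ := by
    intro i
    induction i with
    | zero =>
      rw [Finset.prod_range_zero, pow_zero, map_one, map_one, one_mul]
      rfl
    | succ i ih =>
      rw [s_succ', hsδ, map_mul, D.hι, ih, Finset.prod_range_succ, map_mul]
      ring
  have hNζ : ∏ j ∈ range ℓ, (τ ^ j) ζ = 1 := by
    have h1 := hδi ℓ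
    rw [hδH _ hτℓ] at h1
    apply D.ι.injective
    rw [map_one]
    exact (mul_right_cancel₀ hδ0 (by rw [one_mul]; exact h1)).symm
  obtain ⟨ε, hε0, hεH, hε⟩ := h90 H τ hτH ℓ hτℓ θ hθ hinj hℓ0 ζ hζH hNζ
  have hτε : ∀ i : ℕ, (∏ j ∈ range i, (τ ^ j) ζ) * (τ ^ i) ε = ε := by
    intro i
    induction i with
    | zero => rw [Finset.prod_range_zero, one_mul]; rfl
    | succ i ih =>
      have e1 : (τ ^ (i + 1)) ε = (τ ^ i) (τ ε) := by
        rw [pow_succ]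
        rfl
      rw [Finset.prod_range_succ, e1, mul_assoc, ← map_mul, hε, ih]
  have hNε : ∏ i ∈ range ℓ, (τ ^ i) ε = ε ^ ℓ := by
    have h1 : ∏ i ∈ range ℓ, ((∏ j ∈ range i, (τ ^ j) ζ) * (τ ^ i) ε) = ε ^ ℓ := by
      rw [Finset.prod_congr rfl fun i _ => hτε i, Finset.prod_const, Finset.card_range]
    rw [Finset.prod_mul_distrib, root_double hn τ ζ hζ1 hNζ, one_mul] at h1
    exact h1
  refine ⟨b / ε, div_ne_zero hb0 hε0, fun σ hσ => by rw [map_div₀, hbH σ hσ, hεH σ hσ],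
    δ * D.ι ε, mul_ne_zero hδ0 (hιne ε hε0), ?_, ?_, ?_⟩
  · intro σ hσ
    rw [map_mul, hδH σ hσ, D.hι, hεH σ hσ]
  · rw [map_mul, hsδ, D.hι]
    have h1 : D.ι ζ * D.ι (τ ε) = D.ι ε := by rw [← map_mul, hε]
    linear_combination δ * h1
  · have h1 : lam = D.ι b * μ := by
      rw [hμ, mul_div_cancel₀ _ (hιne b hb0)]
    rw [Finset.prod_congr rfl fun i _ => by rw [h1], hNmul, hNμ, ← hNι]
    have h2 : ∏ i ∈ range ℓ, (τ ^ i) (b / ε) = (∏ i ∈ range ℓ, (τ ^ i) b) / ε ^ ℓ := by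
      rw [← hNε, ← Finset.prod_div_distrib]
      exact Finset.prod_congr rfl fun i _ => map_div₀ _ _ _
    rw [h2, map_div₀, map_pow, mul_pow]
    have h3 : D.ι ε ^ ℓ ≠ 0 := pow_ne_zero _ (hιne ε hε0)
    field_simp

end key

end Pool.Agent.U190.SN
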