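import Pool.Agent.U190.SN.Orb

/-!
# Norms as products of equivariant functions, and the norm principle
-/

set_option autoImplicit false

namespace Pool.Agent.U190.SN

open Pool.Agent.W620.SC Finset

section nm

variable {k A : Type*} [Field k] [Field A] [Algebra k A]

/-- `a` is the product over `R` of a function which is equivariant under `Γ` -/
def IsNm (Γ : Subgroup (A ≃ₐ[k] A)) (R : Finset A) (a : A) : Prop :=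
  ∃ w : A → A, (∀ θ ∈ R, w θ ≠ 0) ∧ (∀ σ ∈ Γ, ∀ θ ∈ R, w (σ θ) = σ (w θ)) ∧ ∏ θ ∈ R, w θ = a

lemma IsNm.mul {Γ : Subgroup (A ≃ₐ[k] A)} {R : Finset A} {a b : A} (ha : IsNm Γ R a)
    (hb : IsNm Γ R b) : IsNm Γ R (a * b) := by
  obtain ⟨w, h1, h2, h3⟩ := ha
  obtain ⟨v, g1, g2, g3⟩ := hb
  refine ⟨fun θ => w θ * v θ, fun θ hθ => mul_ne_zero (h1 θ hθ) (g1 θ hθ), ?_, ?_⟩
  · intro σ hσ θ hθ
    change w (σ θ) * v (σ θ) = σ (w θ * v θ)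
    rw [h2 σ hσ θ hθ, g2 σ hσ θ hθ, map_mul]
  · rw [Finset.prod_mul_distrib, h3, g3]

lemma IsNm.inv {Γ : Subgroup (A ≃ₐ[k] A)} {R : Finset A} {a : A} (ha : IsNm Γ R a) :
    IsNm Γ R a⁻¹ := by
  obtain ⟨w, h1, h2, h3⟩ := ha
  refine ⟨fun θ => (w θ)⁻¹, fun θ hθ => inv_ne_zero (h1 θ hθ), ?_, ?_⟩
  · intro σ hσ θ hθ
    change (w (σ θ))⁻¹ = σ (w θ)⁻¹
    rw [h2 σ hσ θ hθ, map_inv₀]
  · rw [Finset.prod_inv_distrib, h3]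

lemma IsNm.one {Γ : Subgroup (A ≃ₐ[k] A)} {R : Finset A} : IsNm Γ R (1 : A) :=
  ⟨fun _ => 1, fun _ _ => one_ne_zero, fun σ _ _ _ => (map_one σ).symm, Finset.prod_const_one⟩

lemma IsNm.pow {Γ : Subgroup (A ≃ₐ[k] A)} {R : Finset A} {a : A} (ha : IsNm Γ R a) (n : ℕ) :
    IsNm Γ R (a ^ n) := by
  induction n with
  | zero => rw [pow_zero]; exact IsNm.one
  | succ n ih => rw [pow_succ]; exact ih.mul ha

lemma IsNm.zpow {Γ : Subgroup (A ≃ₐ[k] A)} {R : Finset A} {a : A} (ha : IsNm Γ R a) (n : ℤ) :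
    IsNm Γ R (a ^ n) := by
  rcases n with n | n
  · rw [Int.ofNat_eq_natCast, zpow_natCast]; exact ha.pow n
  · rw [zpow_negSucc]; exact (ha.pow _).inv

/-- powers of exponent the length of an orbit -/
lemma IsNm.orbit {Γ : Subgroup (A ≃ₐ[k] A)} {R O : Finset A} (hOR : O ⊆ R)
    (hO : ∀ σ ∈ Γ, ∀ θ ∈ O, σ θ ∈ O) (c : A) (hc0 : c ≠ 0) (hc : ∀ σ ∈ Γ, σ c = c) :
    IsNm Γ R (c ^ O.card) := by
  classical
  refine ⟨fun θ => if θ ∈ O then c else 1, ?_, ?_, ?_⟩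
  · intro θ _
    simp only
    split_ifs
    · exact hc0
    · exact one_ne_zero
  · intro σ hσ θ _
    simp only
    have h1 : σ θ ∈ O ↔ θ ∈ O := by
      constructor
      · intro h
        have h2 := hO σ⁻¹ (inv_mem hσ) _ h
        have h3 : σ⁻¹ (σ θ) = θ := σ.symm_apply_apply θ
        rwa [h3] at h2
      · exact hO σ hσ θ
    by_cases h : θ ∈ O
    · rw [if_pos (h1.2 h), if_pos h, hc σ hσ]
    · rw [if_neg (fun h' => h (h1.1 h')), if_neg h, map_one]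
  · rw [Finset.prod_ite, Finset.prod_const_one, mul_one, Finset.prod_const]
    congr 2
    ext x
    rw [Finset.mem_filter]
    exact ⟨fun h => h.2, fun h => ⟨hOR h, h⟩⟩

/-- the norm from `Γ` to the whole group -/
theorem IsNm.descend {Γ : Subgroup (A ≃ₐ[k] A)} (hΓ : Γ.index ≠ 0) {R : Finset A}
    (hR : ∀ σ : A ≃ₐ[k] A, ∀ θ ∈ R, σ θ ∈ R) {a : A} (ha : IsNm Γ R a)
    (hfix : ∀ σ : A ≃ₐ[k] A, σ a = a) :
    IsNm (⊤ : Subgroup (A ≃ₐ[k] A)) R (a ^ Γ.index) := by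
  classical
  have : Γ.FiniteIndex := ⟨hΓ⟩
  have : Finite ((A ≃ₐ[k] A) ⧸ Γ) := inferInstance
  have : Fintype ((A ≃ₐ[k] A) ⧸ Γ) := Fintype.ofFinite _
  obtain ⟨w, h1, h2, h3⟩ := ha
  set f : (A ≃ₐ[k] A) → A → A := fun g θ => g (w (g⁻¹ θ)) with hf
  have hfΓ : ∀ g g' : A ≃ₐ[k] A, g⁻¹ * g' ∈ Γ → ∀ θ ∈ R, f g θ = f g' θ := by
    intro g g' hg θ hθ
    have e1 : g⁻¹ θ = (g⁻¹ * g') (g'⁻¹ θ) := by
      change g⁻¹ θ = g⁻¹ (g' (g'⁻¹ θ))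
      congr 1
      exact (g'.apply_symm_apply θ).symm
    rw [hf]
    simp only
    rw [e1, h2 _ hg _ (hR _ _ hθ)]
    change g (g⁻¹ (g' (w (g'⁻¹ θ)))) = _
    exact g.apply_symm_apply _
  have hout : ∀ g : A ≃ₐ[k] A, ∀ θ ∈ R, f (Quotient.out (g : (A ≃ₐ[k] A) ⧸ Γ)) θ = f g θ := by
    intro g θ hθ
    refine hfΓ _ _ ?_ θ hθ
    rw [← QuotientGroup.eq]
    exact QuotientGroup.out_eq' _
  refine ⟨fun θ => ∏ q : (A ≃ₐ[k] A) ⧸ Γ, f q.out θ, ?_, ?_, ?_⟩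
  · intro θ hθ
    exact Finset.prod_ne_zero_iff.2 fun q _ => (_root_.map_ne_zero _).2 (h1 _ (hR _ _ hθ))
  · intro σ _ θ hθ
    simp only
    rw [map_prod]
    symm
    refine Fintype.prod_equiv (MulAction.toPerm σ) _ _ fun q => ?_
    have e1 : MulAction.toPerm σ q = ((σ * q.out : A ≃ₐ[k] A) : (A ≃ₐ[k] A) ⧸ Γ) := by
      conv_lhs => rw [← QuotientGroup.out_eq' q]
      rfl
    rw [e1, hout _ _ (hR σ θ hθ)]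
    rw [hf]
    simp only
    have e2 : (σ * q.out)⁻¹ (σ θ) = (q.out)⁻¹ θ := by
      rw [mul_inv_rev]
      change (q.out)⁻¹ (σ⁻¹ (σ θ)) = _
      congr 1
      exact σ.symm_apply_apply θ
    rw [e2]
    rfl
  · rw [Finset.prod_comm]
    have e1 : ∀ q : (A ≃ₐ[k] A) ⧸ Γ, ∏ θ ∈ R, f q.out θ = a := by
      intro q
      have e2 : ∏ θ ∈ R, w ((q.out)⁻¹ θ) = a := by
        rw [← h3]
        refine Finset.prod_nbij' (fun θ => (q.out)⁻¹ θ) (fun θ => q.out θ)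
          (fun θ hθ => hR _ _ hθ) (fun θ hθ => hR _ _ hθ) ?_ ?_ (fun θ _ => rfl)
        · intro θ _
          exact q.out.apply_symm_apply θ
        · intro θ _
          exact q.out.symm_apply_apply θ
      rw [hf]
      simp only
      rw [← map_prod, e2, hfix]
    rw [Finset.prod_congr rfl fun q _ => e1 q, Finset.prod_const, Finset.card_univ]
    congr 1
    rw [← Nat.card_eq_fintype_card]
    rfl

/-- norms for a subgroup of index prime to the length of an orbit are norms -/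
theorem IsNm.of_coprime {ℓ : ℕ} {Γ : Subgroup (A ≃ₐ[k] A)} (hℓ : 1 < ℓ)
    (hcop : Nat.Coprime ℓ Γ.index)
    {R O : Finset A} (hR : ∀ σ : A ≃ₐ[k] A, ∀ θ ∈ R, σ θ ∈ R) (hOR : O ⊆ R)
    (hO : ∀ σ : A ≃ₐ[k] A, ∀ θ ∈ O, σ θ ∈ O) (hcard : O.card = ℓ) {a : A} (ha0 : a ≠ 0)
    (ha : IsNm Γ R a) (hfix : ∀ σ : A ≃ₐ[k] A, σ a = a) :
    IsNm (⊤ : Subgroup (A ≃ₐ[k] A)) R a := by
  have h0 : Γ.index ≠ 0 := by
    intro h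
    rw [h, Nat.coprime_zero_right] at hcop
    exact hℓ.ne' hcop
  have h1 := ha.descend h0 hR hfix
  have h2 : IsNm (⊤ : Subgroup (A ≃ₐ[k] A)) R (a ^ ℓ) := by
    rw [← hcard]
    exact IsNm.orbit hOR (fun σ _ => hO σ) a ha0 (fun σ _ => hfix σ)
  have h3 : IsNm (⊤ : Subgroup (A ≃ₐ[k] A)) R
      ((a ^ ℓ) ^ (Nat.gcdA ℓ Γ.index) * (a ^ Γ.index) ^ (Nat.gcdB ℓ Γ.index)) :=
    (h2.zpow _).mul (h1.zpow _)
  have h4 : (a ^ ℓ) ^ (Nat.gcdA ℓ Γ.index) * (a ^ Γ.index) ^ (Nat.gcdB ℓ Γ.index) = a := by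
    rw [← zpow_natCast, ← zpow_natCast, ← zpow_mul, ← zpow_mul, ← zpow_add₀ ha0,
      ← Nat.gcd_eq_gcd_ab, hcop.gcd_eq_one, Nat.cast_one, zpow_one]
  rwa [h4] at h3

end nm

section orbit

variable {k A M : Type*} [Field k] [Field A] [Field M] [Algebra k A] (D : SDat k A M)

omit [Field M] in
lemma prod_orbit [CommMonoid M] {ℓ : ℕ} {O : Finset A} (τ : A ≃ₐ[k] A) (θ : A) (idx : A → ℕ)
    (h1 : ∀ ρ ∈ O, idx ρ < ℓ) (h2 : ∀ ρ ∈ O, (τ ^ idx ρ) θ = ρ)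
    (h3 : ∀ i < ℓ, idx ((τ ^ i) θ) = i) (h4 : ∀ i : ℕ, (τ ^ i) θ ∈ O) (g : A → M) :
    ∏ ρ ∈ O, g ρ = ∏ i ∈ range ℓ, g ((τ ^ i) θ) := by
  refine Finset.prod_nbij' idx (fun i => (τ ^ i) θ) ?_ ?_ ?_ ?_ ?_
  · intro ρ hρ
    exact Finset.mem_range.2 (h1 ρ hρ)
  · intro i _
    exact h4 i
  · intro ρ hρ
    exact h2 ρ hρ
  · intro i hi
    exact h3 i (Finset.mem_range.1 hi)
  · intro ρ hρ
    rw [h2 ρ hρ]

omit [Field k] [Field M] [Field A] [Algebra k A] in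
lemma prod_fib [DecidableEq A] [CommMonoid M] (R : Finset A) (orb : A → Finset A)
    (hfib : ∀ θ ∈ R, ∀ ρ, ρ ∈ orb θ ↔ ρ ∈ R ∧ orb ρ = orb θ) (g : A → M) :
    ∏ ρ ∈ R, g ρ = ∏ O ∈ R.image orb, ∏ ρ ∈ O, g ρ := by
  classical
  rw [← Finset.prod_fiberwise_of_maps_to (g := orb)
    (fun ρ hρ => Finset.mem_image_of_mem orb hρ)]
  refine Finset.prod_congr rfl fun O hO => ?_
  obtain ⟨θ, hθ, rfl⟩ := Finset.mem_image.1 hO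
  refine Finset.prod_congr ?_ fun _ _ => rfl
  ext ρ
  rw [Finset.mem_filter, hfib θ hθ]

/-- the norm principle for one orbit -/
theorem orbit_norm [CharZero k] [IsAlgClosed A] [Algebra.IsAlgebraic k A] {ℓ : ℕ} (hn : Odd ℓ)
    (R O : Finset A) (hOR : O ⊆ R)
    (hO : ∀ σ : A ≃ₐ[k] A, ∀ θ ∈ O, σ θ ∈ O) (θ : A) (hθ : θ ∈ O)
    (Γ : Subgroup (A ≃ₐ[k] A)) (τ : A ≃ₐ[k] A) (hcyc : Cyc Γ O θ τ ℓ)
    (lam : A → M) (h0 : ∀ ρ ∈ R, lam ρ ≠ 0)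
    (hlam : ∀ σ : A ≃ₐ[k] A, ∀ ρ ∈ R, D.s σ (lam ρ) = lam (σ ρ))
    (hroot : ∀ ρ ∈ R, ∀ ρ' ∈ R, ∃ α : M, α ^ ℓ = lam ρ / lam ρ') :
    ∃ (w : A → A) (m : M), (∀ ρ ∈ O, w ρ ≠ 0) ∧ (∀ σ ∈ Γ, ∀ ρ ∈ O, w (σ ρ) = σ (w ρ)) ∧
      m ≠ 0 ∧ (∀ σ ∈ Γ, D.s σ m = m) ∧
      ∏ ρ ∈ O, lam ρ = D.ι (∏ ρ ∈ O, w ρ) * m ^ ℓ := by
  classical
  obtain ⟨hτ, s1, s2, s3, s4, s5⟩ := hcyc
  set H := Γ ⊓ MulAction.stabilizer (A ≃ₐ[k] A) θ with hH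
  have hHθ : ∀ σ ∈ H, σ θ = θ := fun σ hσ => hσ.2
  obtain ⟨α, hα⟩ := hroot θ (hOR hθ) (τ θ) (hOR (hO τ θ hθ))
  obtain ⟨z, hz0, hzH, m, hm0, hmH, hmτ, heq⟩ := key D hn H τ s1 s2 θ hHθ s3 (lam θ)
    (h0 θ (hOR hθ)) (fun σ hσ => by rw [hlam σ θ (hOR hθ), hHθ σ hσ]) α
    (by rw [hα, hlam τ θ (hOR hθ)])
  choose! idx hidx hidx' using s4
  have hidxpow : ∀ i < ℓ, idx ((τ ^ i) θ) = i := fun i hi =>
    s3 _ _ (hidx _ (hO _ _ hθ)) hi (hidx' _ (hO _ _ hθ))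
  have hmpow : ∀ i : ℕ, D.s (τ ^ i) m = m := by
    intro i
    induction i with
    | zero => rw [pow_zero, map_one]; rfl
    | succ i ih => rw [s_succ', hmτ, ih]
  refine ⟨fun ρ => (τ ^ idx ρ) z, m, ?_, ?_, hm0, ?_, ?_⟩
  · intro ρ _
    exact (_root_.map_ne_zero _).2 hz0
  · intro σ hσ ρ hρ
    have h1 : (τ ^ idx (σ ρ)) θ = σ ((τ ^ idx ρ) θ) := by
      rw [hidx' _ (hO σ ρ hρ), hidx' ρ hρ]
    have h2 : (τ ^ idx (σ ρ))⁻¹ * (σ * τ ^ idx ρ) ∈ H := by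
      refine Subgroup.mem_inf.2 ⟨Γ.mul_mem (Γ.inv_mem (Γ.pow_mem hτ _))
        (Γ.mul_mem hσ (Γ.pow_mem hτ _)), ?_⟩
      change (τ ^ idx (σ ρ))⁻¹ (σ ((τ ^ idx ρ) θ)) = θ
      rw [← h1]
      exact (τ ^ idx (σ ρ)).symm_apply_apply θ
    have h3 := hzH _ h2
    have h4 : (τ ^ idx (σ ρ)) ((τ ^ idx (σ ρ))⁻¹ (σ ((τ ^ idx ρ) z))) = (τ ^ idx (σ ρ)) z :=
      congrArg _ h3
    simp only
    rw [← h4]
    exact (τ ^ idx (σ ρ)).apply_symm_apply _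
  · intro σ hσ
    obtain ⟨i, h, hh, rfl⟩ := s5 σ hσ
    rw [map_mul]
    change D.s (τ ^ i) (D.s h m) = m
    rw [hmH h hh, hmpow]
  · rw [prod_orbit τ θ idx hidx hidx' hidxpow (fun i => hO _ _ hθ) lam,
      prod_orbit τ θ idx hidx hidx' hidxpow (fun i => hO _ _ hθ) fun ρ => (τ ^ idx ρ) z]
    have h1 : ∏ i ∈ range ℓ, lam ((τ ^ i) θ) = ∏ i ∈ range ℓ, D.s (τ ^ i) (lam θ) :=
      Finset.prod_congr rfl fun i _ => (hlam _ θ (hOR hθ)).symm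
    have h2 : ∏ i ∈ range ℓ, (τ ^ idx ((τ ^ i) θ)) z = ∏ i ∈ range ℓ, (τ ^ i) z :=
      Finset.prod_congr rfl fun i hi => by rw [hidxpow i (Finset.mem_range.1 hi)]
    rw [h1, h2, heq]

/-- **the norm principle** -/
theorem norm_principle' [CharZero k] [IsAlgClosed A] [Algebra.IsAlgebraic k A] {ℓ : ℕ}
    (hn : Odd ℓ) (R : Finset A) (hRne : R.Nonempty)
    (hR : ∀ σ : A ≃ₐ[k] A, ∀ θ ∈ R, σ θ ∈ R)
    (orb : A → Finset A) (horb : ∀ θ ∈ R, ∀ ρ, ρ ∈ orb θ ↔ ∃ σ : A ≃ₐ[k] A, σ θ = ρ)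
    (hcard : ∀ θ ∈ R, (orb θ).card = ℓ) (Γ : Subgroup (A ≃ₐ[k] A))
    (hcyc : ∀ θ ∈ R, ∃ τ, Cyc Γ (orb θ) θ τ ℓ)
    (lam : A → M) (h0 : ∀ ρ ∈ R, lam ρ ≠ 0)
    (hlam : ∀ σ : A ≃ₐ[k] A, ∀ ρ ∈ R, D.s σ (lam ρ) = lam (σ ρ))
    (hroot : ∀ ρ ∈ R, ∀ ρ' ∈ R, ∃ α : M, α ^ ℓ = lam ρ / lam ρ')
    (a : A) (ha0 : a ≠ 0) (y : M) (hy0 : y ≠ 0)
    (hy : ∀ σ, D.s σ y = y) (heq : ∏ ρ ∈ R, lam ρ = D.ι a * y ^ ℓ) :
    IsNm Γ R a := by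
  classical
  have horbR : ∀ θ ∈ R, orb θ ⊆ R := by
    intro θ hθ ρ hρ
    obtain ⟨σ, rfl⟩ := (horb θ hθ ρ).1 hρ
    exact hR σ θ hθ
  have hself : ∀ θ ∈ R, θ ∈ orb θ := fun θ hθ => (horb θ hθ θ).2 ⟨1, rfl⟩
  have horbeq : ∀ θ ∈ R, ∀ ρ ∈ orb θ, orb ρ = orb θ := by
    intro θ hθ ρ hρ
    obtain ⟨σ, rfl⟩ := (horb θ hθ ρ).1 hρ
    ext x
    rw [horb _ (horbR θ hθ hρ), horb θ hθ]
    constructor
    · rintro ⟨g, rfl⟩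
      exact ⟨g * σ, rfl⟩
    · rintro ⟨g, rfl⟩
      refine ⟨g * σ⁻¹, ?_⟩
      change g (σ⁻¹ (σ θ)) = g θ
      congr 1
      exact σ.symm_apply_apply θ
  have horbst : ∀ θ ∈ R, ∀ σ : A ≃ₐ[k] A, ∀ ρ ∈ orb θ, σ ρ ∈ orb θ := by
    intro θ hθ σ ρ hρ
    rw [← horbeq θ hθ ρ hρ]
    exact (horb ρ (horbR θ hθ hρ) _).2 ⟨σ, rfl⟩
  have hex : ∀ O ∈ R.image orb, ∃ (w : A → A) (m : M), (∀ ρ ∈ O, w ρ ≠ 0) ∧
      (∀ σ ∈ Γ, ∀ ρ ∈ O, w (σ ρ) = σ (w ρ)) ∧ m ≠ 0 ∧ (∀ σ ∈ Γ, D.s σ m = m) ∧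
      ∏ ρ ∈ O, lam ρ = D.ι (∏ ρ ∈ O, w ρ) * m ^ ℓ := by
    intro O hO
    obtain ⟨θ, hθ, rfl⟩ := Finset.mem_image.1 hO
    obtain ⟨τ, hτ⟩ := hcyc θ hθ
    exact orbit_norm D hn R (orb θ) (horbR θ hθ) (horbst θ hθ) θ (hself θ hθ)
      Γ τ hτ lam h0 hlam hroot
  choose! W mm hW0 hWΓ hm0 hmΓ hWeq using hex
  have hfib : ∀ θ ∈ R, ∀ ρ, ρ ∈ orb θ ↔ ρ ∈ R ∧ orb ρ = orb θ := by
    intro θ hθ ρ
    constructor
    · intro hρ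
      exact ⟨horbR θ hθ hρ, horbeq θ hθ ρ hρ⟩
    · rintro ⟨hρ, h⟩
      rw [← h]
      exact hself ρ hρ
  set w : A → A := fun ρ => W (orb ρ) ρ with hw
  have hwO : ∀ O ∈ R.image orb, ∀ ρ ∈ O, w ρ = W O ρ := by
    intro O hO ρ hρ
    obtain ⟨θ, hθ, rfl⟩ := Finset.mem_image.1 hO
    rw [hw]
    simp only
    rw [horbeq θ hθ ρ hρ]
  have hNw : IsNm Γ R (∏ ρ ∈ R, w ρ) := by
    refine ⟨w, ?_, ?_, rfl⟩
    · intro ρ hρ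
      exact hW0 _ (Finset.mem_image_of_mem orb hρ) ρ (hself ρ hρ)
    · intro σ hσ ρ hρ
      have h1 : orb (σ ρ) = orb ρ := horbeq ρ hρ _ ((horb ρ hρ _).2 ⟨σ, rfl⟩)
      rw [hw]
      simp only
      rw [h1]
      exact hWΓ _ (Finset.mem_image_of_mem orb hρ) σ hσ ρ (hself ρ hρ)
  set m : M := ∏ O ∈ R.image orb, mm O with hm
  have hmne : m ≠ 0 := Finset.prod_ne_zero_iff.2 fun O hO => hm0 O hO
  have hmfix : ∀ σ ∈ Γ, D.s σ m = m := by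
    intro σ hσ
    rw [hm, map_prod]
    exact Finset.prod_congr rfl fun O hO => hmΓ O hO σ hσ
  have htot : ∏ ρ ∈ R, lam ρ = D.ι (∏ ρ ∈ R, w ρ) * m ^ ℓ := by
    rw [prod_fib R orb hfib lam, prod_fib R orb hfib w, map_prod, hm, ← Finset.prod_pow, ← Finset.prod_mul_distrib]
    refine Finset.prod_congr rfl fun O hO => ?_
    rw [hWeq O hO]
    congr 2
    exact Finset.prod_congr rfl fun ρ hρ => (hwO O hO ρ hρ).symm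
  have hιa : D.ι a ≠ 0 := (_root_.map_ne_zero _).2 ha0
  have hq : (y / m) ^ ℓ = D.ι ((∏ ρ ∈ R, w ρ) / a) := by
    rw [div_pow, map_div₀, div_eq_div_iff (pow_ne_zero _ hmne) hιa]
    rw [heq] at htot
    rw [mul_comm, htot]
  obtain ⟨c, hc⟩ := root_mem D.ι hn.pos hq
  have hc0 : c ≠ 0 := by
    rintro rfl
    rw [map_zero] at hc
    exact div_ne_zero hy0 hmne hc.symm
  have hcfix : ∀ σ ∈ Γ, σ c = c := by
    intro σ hσ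
    apply D.ι.injective
    rw [← D.hι, hc, map_div₀, hy, hmfix σ hσ]
  have hcℓ : c ^ ℓ = (∏ ρ ∈ R, w ρ) / a := by
    apply D.ι.injective
    rw [map_pow, hc, hq]
  obtain ⟨θ0, hθ0⟩ := hRne
  have hNc : IsNm Γ R (c ^ ℓ) := by
    rw [← hcard θ0 hθ0]
    exact IsNm.orbit (horbR θ0 hθ0) (fun σ _ => horbst θ0 hθ0 σ) c hc0 hcfix
  have h1 : a = (∏ ρ ∈ R, w ρ) * (c ^ ℓ)⁻¹ := by
    rw [hcℓ, inv_div, mul_div_assoc', mul_comm, mul_div_assoc, div_self, mul_one]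
    intro h
    rw [h, zero_div] at hcℓ
    exact pow_ne_zero _ hc0 hcℓ
  rw [h1]
  exact hNw.mul hNc.inv

end orbit

end Pool.Agent.U190.SN
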