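import Pool.Agent.U190.SN.Key

/-!
# A subgroup of index prime to `ℓ` that acts through an `ℓ`-group on roots in orbits of length `ℓ`
-/

set_option autoImplicit false

namespace Pool.Agent.U190.SN

open Finset

variable {k A : Type*} [Field k] [Field A] [Algebra k A]

/-- `Γ` acts on the orbit `O` of `θ` through a cyclic group of order `n`, generated by `τ`, that acts
simply transitively -/
structure Cyc (Γ : Subgroup (A ≃ₐ[k] A)) (O : Finset A) (θ : A) (τ : A ≃ₐ[k] A) (n : ℕ) :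
    Prop where
  mem : τ ∈ Γ
  conj : ∀ σ ∈ Γ ⊓ MulAction.stabilizer (A ≃ₐ[k] A) θ,
    τ⁻¹ * σ * τ ∈ Γ ⊓ MulAction.stabilizer (A ≃ₐ[k] A) θ
  pow : τ ^ n ∈ Γ ⊓ MulAction.stabilizer (A ≃ₐ[k] A) θ
  inj : ∀ i j : ℕ, i < n → j < n → (τ ^ i) θ = (τ ^ j) θ → i = j
  surj : ∀ ρ ∈ O, ∃ i < n, (τ ^ i) θ = ρ
  gen : ∀ σ ∈ Γ, ∃ i : ℕ, ∃ h ∈ Γ ⊓ MulAction.stabilizer (A ≃ₐ[k] A) θ, σ = τ ^ i * h

/-- the action on a stable finite set -/
def permHom (R : Finset A) (hR : ∀ σ : A ≃ₐ[k] A, ∀ θ ∈ R, σ θ ∈ R) :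
    (A ≃ₐ[k] A) →* Equiv.Perm {x // x ∈ R} where
  toFun σ :=
    { toFun := fun x => ⟨σ x.1, hR σ x.1 x.2⟩
      invFun := fun x => ⟨σ⁻¹ x.1, hR σ⁻¹ x.1 x.2⟩
      left_inv := fun x => Subtype.ext (σ.symm_apply_apply x.1)
      right_inv := fun x => Subtype.ext (σ.apply_symm_apply x.1) }
  map_one' := rfl
  map_mul' := fun _ _ => rfl

/-- a subgroup of index prime to `ℓ` whose elements act with order a power of `ℓ` -/
lemma exists_sylow (ℓ : ℕ) [Fact ℓ.Prime] (R : Finset A)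
    (hR : ∀ σ : A ≃ₐ[k] A, ∀ θ ∈ R, σ θ ∈ R) :
    ∃ Γ : Subgroup (A ≃ₐ[k] A), ¬ ℓ ∣ Γ.index ∧
      ∀ σ ∈ Γ, ∃ n : ℕ, ∀ θ ∈ R, (σ ^ ℓ ^ n) θ = θ := by
  classical
  set φ := permHom R hR with hφ
  have hfin : Finite φ.range := inferInstance
  obtain ⟨P⟩ : Nonempty (Sylow ℓ φ.range) := inferInstance
  refine ⟨(P : Subgroup φ.range).comap φ.rangeRestrict, ?_, ?_⟩
  · rw [Subgroup.index_comap_of_surjective _ φ.rangeRestrict_surjective]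
    exact P.not_dvd_index
  · intro σ hσ
    have h1 : φ.rangeRestrict σ ∈ (P : Subgroup φ.range) := hσ
    obtain ⟨n, hn⟩ := P.isPGroup' ⟨_, h1⟩
    refine ⟨n, fun θ hθ => ?_⟩
    have h2 : (φ.rangeRestrict σ) ^ ℓ ^ n = 1 := congrArg Subtype.val hn
    have h3 : φ (σ ^ ℓ ^ n) = 1 := by
      rw [map_pow]
      exact congrArg Subtype.val h2
    have h4 := DFunLike.congr_fun h3 (⟨θ, hθ⟩ : {x // x ∈ R})
    exact congrArg Subtype.val h4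

section orbit

variable {ℓ : ℕ} (hℓ : ℓ.Prime) (R O : Finset A) (hOR : O ⊆ R)
  (hO : ∀ σ : A ≃ₐ[k] A, ∀ θ ∈ O, σ θ ∈ O) (hcard : O.card = ℓ)

/-- powers of an element, as iterates -/
lemma pow_iter (σ : A ≃ₐ[k] A) (n : ℕ) (θ : A) : (σ ^ n) θ = (σ^[n]) θ := by
  induction n with
  | zero => rfl
  | succ n ih =>
    rw [Function.iterate_succ_apply', pow_succ', ← ih]
    rfl

include hℓ hOR hO hcard

/-- the length of a cycle is 1 or `ℓ` -/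
lemma period (σ : A ≃ₐ[k] A) (n : ℕ) (hσ : ∀ θ ∈ R, (σ ^ ℓ ^ n) θ = θ) (θ : A) (hθ : θ ∈ O) :
    Function.minimalPeriod σ θ = 1 ∨ (Function.minimalPeriod σ θ = ℓ ∧
      ∀ ρ ∈ O, ∃ i < ℓ, (σ ^ i) θ = ρ) := by
  classical
  have hper : Function.IsPeriodicPt σ (ℓ ^ n) θ := by
    change (σ^[ℓ ^ n]) θ = θ
    rw [← pow_iter]
    exact hσ θ (hOR hθ)
  obtain ⟨j, -, hj⟩ := (Nat.dvd_prime_pow hℓ).1 hper.minimalPeriod_dvd
  rcases Nat.eq_zero_or_pos j with rfl | hj0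
  · left
    rw [hj, pow_zero]
  · right
    have hℓle : ℓ ≤ Function.minimalPeriod σ θ := by
      rw [hj]
      calc ℓ = ℓ ^ 1 := (pow_one ℓ).symm
        _ ≤ ℓ ^ j := Nat.pow_le_pow_right hℓ.pos hj0
    have hinj : Set.InjOn (fun i : ℕ => (σ ^ i) θ) (range (Function.minimalPeriod σ θ)) := by
      intro a ha b hb hab
      simp only [pow_iter] at hab
      exact Function.iterate_injOn_Iio_minimalPeriod (Finset.mem_range.1 ha)
        (Finset.mem_range.1 hb) hab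
    have hmaps : ∀ i ∈ range (Function.minimalPeriod σ θ), (σ ^ i) θ ∈ O := fun i _ => hO _ θ hθ
    have hle : Function.minimalPeriod σ θ ≤ ℓ := by
      rw [← hcard, ← Finset.card_range (Function.minimalPeriod σ θ)]
      exact Finset.card_le_card_of_injOn _ hmaps hinj
    have heq : Function.minimalPeriod σ θ = ℓ := le_antisymm hle hℓle
    refine ⟨heq, ?_⟩
    rw [heq] at hinj hmaps
    have hsurj := Finset.surj_on_of_inj_on_of_card_le (s := range ℓ) (t := O)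
      (fun i _ => (σ ^ i) θ) (fun i hi => hmaps i hi)
      (fun a b ha hb hab => hinj (Finset.mem_coe.2 ha) (Finset.mem_coe.2 hb) hab)
      (by rw [hcard, Finset.card_range])
    intro ρ hρ
    obtain ⟨i, hi, h⟩ := hsurj ρ hρ
    exact ⟨i, Finset.mem_range.1 hi, h.symm⟩

/-- an element that fixes one element of the orbit fixes all -/
lemma fix_all (σ : A ≃ₐ[k] A) (n : ℕ) (hσ : ∀ θ ∈ R, (σ ^ ℓ ^ n) θ = θ) (θ : A) (hθ : θ ∈ O)
    (hfix : σ θ = θ) (ρ : A) (hρ : ρ ∈ O) : σ ρ = ρ := by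
  rcases period hℓ R O hOR hO hcard σ n hσ ρ hρ with h | ⟨-, h⟩
  · have h1 := Function.iterate_minimalPeriod (f := σ) (x := ρ)
    rw [h] at h1
    exact h1
  · obtain ⟨i, -, hi⟩ := h θ hθ
    have h2 : (σ ^ i) (σ ρ) = (σ ^ i) ρ := by
      have h3 : (σ ^ i) (σ ρ) = σ ((σ ^ i) ρ) := by
        change ((σ ^ i) * σ) ρ = (σ * σ ^ i) ρ
        rw [← pow_succ, ← pow_succ']
      rw [h3, hi, hfix]
    exact (σ ^ i).injective h2

/-- the structure of an orbit -/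
theorem orbit_struct (Γ : Subgroup (A ≃ₐ[k] A))
    (hΓ : ∀ σ ∈ Γ, ∃ n : ℕ, ∀ θ ∈ R, (σ ^ ℓ ^ n) θ = θ) (θ : A) (hθ : θ ∈ O)
    (τ : A ≃ₐ[k] A) (hτ : τ ∈ Γ) (hne : τ θ ≠ θ) : Cyc Γ O θ τ ℓ := by
  obtain ⟨n, hn⟩ := hΓ τ hτ
  have hmem : ∀ σ : A ≃ₐ[k] A, σ ∈ Γ ⊓ MulAction.stabilizer (A ≃ₐ[k] A) θ ↔ σ ∈ Γ ∧ σ θ = θ :=
    fun σ => Iff.rfl
  have hper : Function.minimalPeriod τ θ = ℓ ∧ ∀ ρ ∈ O, ∃ i < ℓ, (τ ^ i) θ = ρ := by
    rcases period hℓ R O hOR hO hcard τ n hn θ hθ with h | h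
    · exfalso
      have h1 := Function.iterate_minimalPeriod (f := τ) (x := θ)
      rw [h] at h1
      exact hne h1
    · exact h
  refine ⟨hτ, ?_, ?_, ?_, hper.2, ?_⟩
  · intro σ hσ
    rw [hmem] at hσ ⊢
    obtain ⟨m, hm⟩ := hΓ σ hσ.1
    refine ⟨mul_mem (mul_mem (inv_mem hτ) hσ.1) hτ, ?_⟩
    have h1 : σ (τ θ) = τ θ := fix_all hℓ R O hOR hO hcard σ m hm θ hθ hσ.2 (τ θ) (hO τ θ hθ)
    change τ⁻¹ (σ (τ θ)) = θ
    rw [h1]
    exact τ.symm_apply_apply θ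
  · rw [hmem]
    refine ⟨pow_mem hτ ℓ, ?_⟩
    rw [pow_iter, ← hper.1]
    exact Function.iterate_minimalPeriod
  · intro i j hi hj hij
    rw [← hper.1] at hi hj
    simp only [pow_iter] at hij
    exact Function.iterate_injOn_Iio_minimalPeriod hi hj hij
  · intro σ hσ
    obtain ⟨i, -, hi⟩ := hper.2 (σ θ) (hO σ θ hθ)
    refine ⟨i, (τ ^ i)⁻¹ * σ, ?_, by group⟩
    rw [hmem]
    refine ⟨mul_mem (inv_mem (pow_mem hτ i)) hσ, ?_⟩
    change (τ ^ i)⁻¹ (σ θ) = θ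
    rw [← hi]
    exact (τ ^ i).symm_apply_apply θ

omit hOR hℓ in
/-- some element of `Γ` moves `θ` -/
lemma exists_moves (Γ : Subgroup (A ≃ₐ[k] A)) (hΓ : ¬ ℓ ∣ Γ.index) (θ : A) (hθ : θ ∈ O)
    (htr : ∀ ρ ∈ O, ∃ σ : A ≃ₐ[k] A, σ θ = ρ) : ∃ τ ∈ Γ, τ θ ≠ θ := by
  by_contra hcon
  push Not at hcon
  have h1 : Γ ≤ MulAction.stabilizer (A ≃ₐ[k] A) θ := fun τ hτ => hcon τ hτ
  have h2 := Subgroup.index_dvd_of_le h1
  have h3 : (MulAction.stabilizer (A ≃ₐ[k] A) θ).index = ℓ := by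
    rw [MulAction.index_stabilizer]
    have h4 : MulAction.orbit (A ≃ₐ[k] A) θ = (O : Set A) := by
      ext ρ
      constructor
      · rintro ⟨σ, rfl⟩
        exact hO σ θ hθ
      · intro hρ
        obtain ⟨σ, hσ⟩ := htr ρ hρ
        exact ⟨σ, hσ⟩
    rw [h4, Set.ncard_coe_finset, hcard]
  rw [h3] at h2
  exact hΓ h2

end orbit

/-- the cyclic case -/
theorem cyc_of {n : ℕ} (O : Finset A) (hO : ∀ σ : A ≃ₐ[k] A, ∀ θ ∈ O, σ θ ∈ O)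
    (hcard : O.card = n) (θ : A) (hθ : θ ∈ O) (htr : ∀ ρ ∈ O, ∃ σ : A ≃ₐ[k] A, σ θ = ρ)
    (τ : A ≃ₐ[k] A) (hτ : ∀ σ : A ≃ₐ[k] A, ∃ i : ℕ, ∀ ρ ∈ O, σ ρ = (τ ^ i) ρ) :
    Cyc ⊤ O θ τ n := by
  classical
  have hmem : ∀ σ : A ≃ₐ[k] A, σ ∈ (⊤ : Subgroup (A ≃ₐ[k] A)) ⊓
      MulAction.stabilizer (A ≃ₐ[k] A) θ ↔ σ θ = θ := fun σ =>
    ⟨fun h => h.2, fun h => ⟨trivial, h⟩⟩
  have hpos : 0 < Function.minimalPeriod τ θ := by
    obtain ⟨i, hi⟩ := hτ τ⁻¹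
    have h1 : (τ ^ (i + 1)) θ = θ := by
      rw [pow_succ]
      change (τ ^ i) (τ θ) = θ
      rw [← hi _ (hO τ θ hθ)]
      exact τ.symm_apply_apply θ
    have h2 : Function.IsPeriodicPt τ (i + 1) θ := by
      change (τ^[i + 1]) θ = θ
      rw [← pow_iter]
      exact h1
    exact h2.minimalPeriod_pos (Nat.succ_pos i)
  have hsurj : ∀ ρ ∈ O, ∃ i < Function.minimalPeriod τ θ, (τ ^ i) θ = ρ := by
    intro ρ hρ
    obtain ⟨σ, rfl⟩ := htr ρ hρ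
    obtain ⟨i, hi⟩ := hτ σ
    refine ⟨i % Function.minimalPeriod τ θ, Nat.mod_lt _ hpos, ?_⟩
    rw [hi θ hθ, pow_iter, pow_iter, Function.iterate_mod_minimalPeriod_eq]
  have hinj : ∀ i j : ℕ, i < Function.minimalPeriod τ θ → j < Function.minimalPeriod τ θ →
      (τ ^ i) θ = (τ ^ j) θ → i = j := by
    intro i j hi hj hij
    simp only [pow_iter] at hij
    exact Function.iterate_injOn_Iio_minimalPeriod hi hj hij
  have heq : Function.minimalPeriod τ θ = n := by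
    rw [← hcard, ← Finset.card_range (Function.minimalPeriod τ θ)]
    refine Finset.card_bij (fun i _ => (τ ^ i) θ) ?_ ?_ ?_
    · intro i _
      exact hO _ θ hθ
    · intro i hi j hj hij
      exact hinj i j (Finset.mem_range.1 hi) (Finset.mem_range.1 hj) hij
    · intro ρ hρ
      obtain ⟨i, hi, h⟩ := hsurj ρ hρ
      exact ⟨i, Finset.mem_range.2 hi, h⟩
  rw [heq] at hsurj hinj
  refine ⟨trivial, ?_, ?_, hinj, hsurj, ?_⟩
  · intro σ hσ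
    rw [hmem] at hσ ⊢
    obtain ⟨i, hi⟩ := hτ σ
    have h1 : σ (τ θ) = τ θ := by
      rw [hi _ (hO τ θ hθ)]
      have h2 : (τ ^ i) (τ θ) = τ ((τ ^ i) θ) := by
        change ((τ ^ i) * τ) θ = (τ * τ ^ i) θ
        rw [← pow_succ, ← pow_succ']
      rw [h2, ← hi θ hθ, hσ]
    change τ⁻¹ (σ (τ θ)) = θ
    rw [h1]
    exact τ.symm_apply_apply θ
  · rw [hmem, pow_iter, ← heq]
    exact Function.iterate_minimalPeriod
  · intro σ _
    obtain ⟨i, hi⟩ := hτ σ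
    refine ⟨i, (τ ^ i)⁻¹ * σ, ?_, by group⟩
    rw [hmem]
    change (τ ^ i)⁻¹ (σ θ) = θ
    rw [hi θ hθ]
    exact (τ ^ i).symm_apply_apply θ

end Pool.Agent.U190.SN
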