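import Pool.Agent.U190.SN.Both
import Mathlib.RingTheory.Polynomial.Resultant.Basic

/-!
# Norms and rational places

If `K` has a valuation ring over `k` with residue field `k`, then irreducible polynomials over `k`
stay irreducible over `K`, and elements of `k` that become norms over `K` are norms.
-/

set_option autoImplicit false

open Polynomial

namespace Pool.Agent.U190.SN

lemma prod_eq_resultant {k Ω : Type*} [Field k] [Field Ω] [IsAlgClosed Ω] [Algebra k Ω]
    (G : k[X]) (hm : G.Monic) (P : k[X]) (N : ℕ) (hN : P.natDegree ≤ N) :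
    ((G.map (algebraMap k Ω)).roots.map fun θ => aeval θ P).prod =
      algebraMap k Ω (resultant G P G.natDegree N) := by
  have h := resultant_eq_prod_eval (G.map (algebraMap k Ω)) (P.map (algebraMap k Ω)) N
    (natDegree_map_le.trans hN) (IsAlgClosed.splits _)
  rw [natDegree_map, resultant_map_map, (hm.map _).leadingCoeff, one_pow, one_mul] at h
  rw [h]
  congr 1
  refine Multiset.map_congr rfl fun θ _ => ?_
  rw [eval_map_algebraMap]

variable {k K : Type*} [Field k] [Field K] [Algebra k K]

/-- The map from `k` to the valuation ring. -/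
noncomputable def toO (O : ValuationSubring K) (hk : ∀ c : k, algebraMap k K c ∈ O) : k →+* O :=
  (algebraMap k K).codRestrict O hk

lemma toO_coe (O : ValuationSubring K) (hk : ∀ c : k, algebraMap k K c ∈ O) (c : k) :
    ((toO O hk c : O) : K) = algebraMap k K c := rfl

/-- The map from `k` to the residue field. -/
noncomputable def toRes (O : ValuationSubring K) (hk : ∀ c : k, algebraMap k K c ∈ O) :
    k →+* IsLocalRing.ResidueField O :=
  (IsLocalRing.residue O).comp (toO O hk)

lemma toRes_surj (O : ValuationSubring K) (hk : ∀ c : k, algebraMap k K c ∈ O)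
    (hres : ∀ x ∈ O, ∃ c : k, x - algebraMap k K c ∈ O.nonunits) :
    Function.Surjective (toRes O hk) := by
  intro y
  obtain ⟨x, rfl⟩ := IsLocalRing.residue_surjective y
  obtain ⟨c, hc⟩ := hres x x.2
  refine ⟨c, ?_⟩
  have h1 : x - toO O hk c ∈ IsLocalRing.maximalIdeal O := by
    obtain ⟨h0, h2⟩ := ValuationSubring.mem_nonunits_iff_exists_mem_maximalIdeal.1 hc
    exact h2
  have h2 := (IsLocalRing.residue_eq_zero_iff _).2 h1
  rw [map_sub, sub_eq_zero] at h2
  exact h2.symm

lemma irreducible_place (O : ValuationSubring K) (hk : ∀ c : k, algebraMap k K c ∈ O)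
    (hres : ∀ x ∈ O, ∃ c : k, x - algebraMap k K c ∈ O.nonunits) (G : k[X]) (hm : G.Monic)
    (hG : Irreducible G) : Irreducible (G.map (algebraMap k K)) := by
  have hb : Function.Bijective (toRes O hk) :=
    ⟨(toRes O hk).injective, toRes_surj O hk hres⟩
  have h1 : Irreducible (G.map (toRes O hk)) := by
    have e := MulEquiv.irreducible_iff (Polynomial.mapEquiv (RingEquiv.ofBijective _ hb)) (x := G)
    exact e.2 hG
  have h2 : Irreducible (G.map (toO O hk)) := by
    refine (hm.map _).irreducible_of_irreducible_map (IsLocalRing.residue O) _ ?_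
    rw [Polynomial.map_map]
    exact h1
  have h3 := (Polynomial.Monic.irreducible_iff_irreducible_map_fraction_map (K := K)
    (hm.map (toO O hk))).1 h2
  rw [Polynomial.map_map] at h3
  exact h3

lemma norm_place (O : ValuationSubring K) (hk : ∀ c : k, algebraMap k K c ∈ O)
    (hres : ∀ x ∈ O, ∃ c : k, x - algebraMap k K c ∈ O.nonunits) (G : k[X]) (hm : G.Monic)
    (hG : Irreducible G) (a : k) (ha : a ≠ 0) (P : K[X]) (hdeg : P.natDegree < G.natDegree)
    (hP : resultant (G.map (algebraMap k K)) P G.natDegree P.natDegree = algebraMap k K a) :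
    ∃ P' : k[X], P'.natDegree ≤ P.natDegree ∧ resultant G P' G.natDegree P.natDegree = a := by
  classical
  have hb : Function.Bijective (toRes O hk) :=
    ⟨(toRes O hk).injective, toRes_surj O hk hres⟩
  have hirr : Irreducible (G.map (toRes O hk)) := by
    have e := MulEquiv.irreducible_iff (Polynomial.mapEquiv (RingEquiv.ofBijective _ hb)) (x := G)
    exact e.2 hG
  have hm0 : G.natDegree ≠ 0 := by omega
  have ha' : algebraMap k K a ≠ 0 := by simpa using ha
  have hP0 : P ≠ 0 := by
    rintro rfl
    rw [resultant_zero_right, zero_pow hm0, zero_mul] at hP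
    exact ha' hP.symm
  obtain ⟨j, hj, hmax⟩ := P.support.exists_max_image (fun i => O.valuation (P.coeff i))
    (by simpa using hP0)
  have hp : P.coeff j ≠ 0 := by simpa using hj
  have hvp : O.valuation (P.coeff j) ≠ 0 := by simpa using hp
  have hle : ∀ i, O.valuation ((P.coeff j)⁻¹ * P.coeff i) ≤ 1 := by
    intro i
    by_cases hi : P.coeff i = 0
    · simp [hi]
    · have h1 := hmax i (by simpa using hi)
      rw [map_mul, map_inv₀]
      calc (O.valuation (P.coeff j))⁻¹ * O.valuation (P.coeff i)
          ≤ (O.valuation (P.coeff j))⁻¹ * O.valuation (P.coeff j) := mul_le_mul_right h1 _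
        _ = 1 := inv_mul_cancel₀ hvp
  have hlift : C (P.coeff j)⁻¹ * P ∈ lifts (algebraMap O K) := by
    rw [lifts_iff_coeff_lifts]
    intro i
    rw [coeff_C_mul]
    exact ⟨⟨_, (O.valuation_le_one_iff _).1 (hle i)⟩, rfl⟩
  obtain ⟨P1, hP1⟩ := (mem_lifts _).1 hlift
  have hinj : Function.Injective (algebraMap O K) := Subtype.val_injective
  have hd1 : P1.natDegree ≤ P.natDegree := by
    rw [← natDegree_map_eq_of_injective hinj, hP1]
    exact natDegree_C_mul_le _ _
  have hc1 : P1.coeff j = 1 := by
    apply hinj
    rw [← coeff_map, hP1, coeff_C_mul, inv_mul_cancel₀ hp, map_one]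
  have hGK : (G.map (toO O hk)).map (algebraMap O K) = G.map (algebraMap k K) := by
    rw [Polynomial.map_map]; rfl
  have hGR : (G.map (toO O hk)).map (IsLocalRing.residue O) = G.map (toRes O hk) := by
    rw [Polynomial.map_map]; rfl
  -- the resultant of the primitive polynomial is a unit
  have hR : algebraMap O K (resultant (G.map (toO O hk)) P1 G.natDegree P.natDegree) =
      (P.coeff j)⁻¹ ^ G.natDegree * algebraMap k K a := by
    rw [← resultant_map_map, hGK, hP1, resultant_C_mul_right, hP]
  have hu : IsLocalRing.residue O (resultant (G.map (toO O hk)) P1 G.natDegree P.natDegree) ≠ 0 := by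
    rw [← resultant_map_map, hGR]
    set Q := P1.map (IsLocalRing.residue O) with hQ
    have hQ0 : Q ≠ 0 := by
      intro h
      have h1 : Q.coeff j = 1 := by rw [hQ, coeff_map, hc1, map_one]
      rw [h, coeff_zero] at h1
      exact zero_ne_one h1
    have hdQ : Q.natDegree ≤ P.natDegree := natDegree_map_le.trans hd1
    obtain ⟨e, he⟩ := Nat.exists_eq_add_of_le hdQ
    rw [he, resultant_add_right_deg _ _ _ _ _ le_rfl]
    have hlc : (G.map (toRes O hk)).coeff G.natDegree = 1 := by
      rw [coeff_map, hm.coeff_natDegree, map_one]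
    rw [hlc, one_pow, one_mul]
    have hnd : (G.map (toRes O hk)).natDegree = G.natDegree := natDegree_map _
    have hcop : IsCoprime (G.map (toRes O hk)) Q := by
      rw [hirr.coprime_iff_not_dvd]
      apply not_dvd_of_natDegree_lt hQ0
      rw [hnd]
      omega
    have h1 := resultant_ne_zero _ _ hcop
    rwa [hnd] at h1
  have hu1 : IsUnit (resultant (G.map (toO O hk)) P1 G.natDegree P.natDegree) := by
    by_contra h
    exact hu ((IsLocalRing.residue_eq_zero_iff _).2 ((IsLocalRing.mem_maximalIdeal _).2 h))
  have hv1 := (O.valuation_eq_one_iff _).1 hu1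
  have hva : O.valuation (algebraMap k K a) = 1 := by
    have h1 : IsUnit (toO O hk a) := (isUnit_iff_ne_zero.2 ha).map _
    exact (O.valuation_eq_one_iff _).1 h1
  have hv2 : O.valuation (P.coeff j) = 1 := by
    have h1 : O.valuation (algebraMap O K
        (resultant (G.map (toO O hk)) P1 G.natDegree P.natDegree)) = 1 := hv1
    rw [hR, map_mul, map_pow, hva, mul_one, map_inv₀, inv_pow, inv_eq_one] at h1
    exact (pow_eq_one_iff_of_nonneg zero_le hm0).1 h1
  have hpO : P.coeff j ∈ O := (O.valuation_le_one_iff _).1 hv2.le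
  set P2 : O[X] := C ⟨P.coeff j, hpO⟩ * P1 with hP2
  have hP2K : P2.map (algebraMap O K) = P := by
    rw [hP2, Polynomial.map_mul, hP1, map_C, ← mul_assoc, ← C_mul]
    have : algebraMap O K ⟨P.coeff j, hpO⟩ * (P.coeff j)⁻¹ = 1 := mul_inv_cancel₀ hp
    rw [this, C_1, one_mul]
  have hO : resultant (G.map (toO O hk)) P2 G.natDegree P.natDegree = toO O hk a := by
    apply hinj
    rw [← resultant_map_map, hGK, hP2K, hP]
    rfl
  obtain ⟨P', hP'⟩ := Polynomial.map_surjective _ hb.2 (P2.map (IsLocalRing.residue O))
  refine ⟨P', ?_, hb.1 ?_⟩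
  · have h1 : P'.natDegree = (P'.map (toRes O hk)).natDegree := (natDegree_map _).symm
    rw [h1, hP']
    refine natDegree_map_le.trans ?_
    rw [← natDegree_map_eq_of_injective hinj, hP2K]
  · rw [← resultant_map_map, hP', ← hGR, resultant_map_map, hO]
    rfl

end Pool.Agent.U190.SN
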