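import Pool.Agent.U190.SN.Both

/-!
# Superelliptic curves given by norms
-/

set_option autoImplicit false

namespace Pool.Agent.U190.SN

open Pool.Agent.W620.SC Pool.Agent.W623.SecC Finset IntermediateField Polynomial

universe u v w y

/-- the value of `g ∈ k[T][x]` at `T = θ` and `x` -/
noncomputable def val1 {k B : Type*} [CommRing k] [CommRing B] (f : k →+* B) (θ x : B)
    (g : k[X][X]) : B :=
  g.eval₂ (eval₂RingHom f θ) x

lemma val1_map {k B B' : Type*} [CommRing k] [CommRing B] [CommRing B'] (j : B →+* B')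
    (f : k →+* B) (θ x : B) (g : k[X][X]) :
    j (val1 f θ x g) = val1 (j.comp f) (j θ) (j x) g := by
  unfold val1
  rw [Polynomial.hom_eval₂]
  congr 1
  apply Polynomial.ringHom_ext
  · intro a
    simp
  · simp

/-- as a polynomial in three variables -/
noncomputable def toMv {k : Type*} [CommRing k] (g : k[X][X]) : MvPolynomial (Fin 3) k[X] :=
  g.eval₂ MvPolynomial.C (MvPolynomial.X 0)

lemma val_toMv {k B : Type*} [CommRing k] [CommRing B] (f : k →+* B) (θ : B)
    (x : Fin 3 → B) (g : k[X][X]) : val f θ x (toMv g) = val1 f θ (x 0) g := by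
  unfold val toMv val1
  have h := Polynomial.hom_eval₂ g MvPolynomial.C
    (MvPolynomial.eval₂Hom (eval₂RingHom f θ) x) (MvPolynomial.X 0)
  rw [MvPolynomial.coe_eval₂Hom] at h
  have h2 : (MvPolynomial.eval₂Hom (eval₂RingHom f θ) x).comp MvPolynomial.C =
      eval₂RingHom f θ := RingHom.ext fun c => by simp
  rw [h, MvPolynomial.eval₂_X, h2]

lemma val1_mem {k Ω : Type*} [CommRing k] [Field Ω] (W : ValuationSubring Ω) (f : k →+* Ω)
    (hf : ∀ c, f c ∈ W) (θ : Ω) (hθ : θ ∈ W) (x : Ω) (hx : x ∈ W) (g : k[X][X]) :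
    val1 f θ x g ∈ W := by
  unfold val1
  rw [Polynomial.eval₂_eq_sum_range]
  refine sum_mem fun n _ => mul_mem ?_ (pow_mem hx _)
  rw [Polynomial.coe_eval₂RingHom, Polynomial.eval₂_eq_sum_range]
  exact sum_mem fun n _ => mul_mem (hf _) (pow_mem hθ _)

/-- at a place with `x = ∞` -/
lemma val1_inf {k Ω : Type*} [CommRing k] [Field Ω] (W : ValuationSubring Ω) (f : k →+* Ω)
    (hf : ∀ c, f c ∈ W) (θ : Ω) (hθ : θ ∈ W) (x : Ω) (hx : x ∉ W) (g : k[X][X])
    (hlc : IsU W (eval₂ f θ g.leadingCoeff)) : IsU W (val1 f θ x g / x ^ g.natDegree) := by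
  have hx0 : x ≠ 0 := by
    rintro rfl
    exact hx (zero_mem _)
  have hxi : x⁻¹ ∈ W.nonunits := by
    rw [ValuationSubring.mem_nonunits_iff_or]
    right
    rw [inv_inv]
    exact hx
  have hxW : x⁻¹ ∈ W := W.nonunits_subset hxi
  have hinv : Invertible x := invertibleOfNonzero hx0
  have h1 := Polynomial.eval₂_reverse_mul_pow (eval₂RingHom f θ) x g
  have h2 : val1 f θ x g / x ^ g.natDegree = val1 f θ x⁻¹ g.reverse := by
    unfold val1
    rw [← h1, mul_div_cancel_right₀ _ (pow_ne_zero _ hx0), invOf_eq_inv]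
  have h3 : val1 f θ x⁻¹ g.reverse =
      eval₂ f θ g.leadingCoeff + val1 f θ x⁻¹ g.reverse.divX * x⁻¹ := by
    unfold val1
    conv_lhs => rw [← Polynomial.divX_mul_X_add g.reverse]
    rw [Polynomial.eval₂_add, Polynomial.eval₂_mul, Polynomial.eval₂_X, Polynomial.eval₂_C,
      Polynomial.coeff_zero_reverse]
    rw [add_comm]
    rfl
  rw [h2, h3]
  exact isU_add_nonunit hlc (nonunit_mul (val1_mem W f hf θ hθ _ hxW _) hxi)

/-- ratios of the conjugates are powers up to units -/
theorem ratio_se {k Ω A : Type*} [CommRing k] [Field Ω] [Field A] [IsAlgClosed A]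
    [DecidableEq A] (f : k →+* A)
    (j : A →+* Ω) (W : ValuationSubring Ω) (hW : ∀ c, j c ∈ W) (R : Finset A)
    (g : k[X][X]) (hlc : ∀ θ ∈ R, eval₂ f θ g.leadingCoeff ≠ 0)
    (hT : ∀ θ ∈ R, ∀ θ' ∈ R, θ ≠ θ' → ∀ x : A, val1 f θ x g = 0 → val1 f θ' x g ≠ 0)
    (x y : Ω) (n : ℕ) (hn : 0 < n) (a : A) (ha : a ≠ 0)
    (hrel : ∏ θ ∈ R, val1 (j.comp f) (j θ) x g = j a * y ^ n)
    (θ θ' : A) (hθ : θ ∈ R) (hθ' : θ' ∈ R)
    (h0 : val1 (j.comp f) (j θ) x g ≠ 0) (h0' : val1 (j.comp f) (j θ') x g ≠ 0) :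
    ∃ m : ℤ, (y ^ m ≠ 0) ∧
      val1 (j.comp f) (j θ) x g / val1 (j.comp f) (j θ') x g / (y ^ m) ^ n ∈ W ∧
      (y ^ m) ^ n / (val1 (j.comp f) (j θ) x g / val1 (j.comp f) (j θ') x g) ∈ W := by
  have hconst : ∀ a : A, a ≠ 0 → IsU W (j a) := fun a ha =>
    ⟨(_root_.map_ne_zero j).2 ha, hW a, by rw [← map_inv₀]; exact hW _⟩
  by_cases hx : x ∈ W
  · have hΛW : ∀ t ∈ R, val1 (j.comp f) (j t) x g ∈ W := fun t _ =>
      val1_mem W (j.comp f) (fun c => hW _) _ (hW _) x hx g
    have hyW : y ∈ W := by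
      have h1 : y ^ n ∈ W := by
        have h2 : y ^ n = j a⁻¹ * ∏ θ ∈ R, val1 (j.comp f) (j θ) x g := by
          rw [hrel, map_inv₀, ← mul_assoc, inv_mul_cancel₀ (hconst a ha).1, one_mul]
        rw [h2]
        exact mul_mem (hW _) (prod_mem fun t ht => hΛW t ht)
      exact mem_of_pow_mem hn h1
    obtain ⟨m, hm, hU⟩ := ratio_abs W R (fun t => val1 (j.comp f) (j t) x g) hΛW y (j a) hyW
      (hconst a ha) n hn hrel.symm (by
        intro t ht t' ht' hne h1 h2 _
        let jW : A →+* W := j.codRestrict W.toSubring hW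
        let ρ : W →+* IsLocalRing.ResidueField W := IsLocalRing.residue W
        have hnon : ∀ x : W, (x : Ω) ∈ W.nonunits → ρ x = 0 := by
          intro x hx
          obtain ⟨hx1, hx2⟩ := (W.mem_nonunits_iff_exists_mem_maximalIdeal).1 hx
          exact (IsLocalRing.residue_eq_zero_iff x).2 hx2
        have hval : ∀ t, ((val1 (jW.comp f) (jW t) ⟨x, hx⟩ g : W) : Ω) =
            val1 (j.comp f) (j t) x g := by
          intro t
          exact val1_map W.subtype (jW.comp f) (jW t) ⟨x, hx⟩ g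
        have hρ : ∀ t, val1 (j.comp f) (j t) x g ∈ W.nonunits →
            val1 ((ρ.comp jW).comp f) ((ρ.comp jW) t) (ρ ⟨x, hx⟩) g = 0 := by
          intro t ht
          have e1 := val1_map ρ (jW.comp f) (jW t) ⟨x, hx⟩ g
          have e2 : ρ (val1 (jW.comp f) (jW t) ⟨x, hx⟩ g) = 0 := hnon _ (by rw [hval]; exact ht)
          rw [e2] at e1
          exact e1.symm
        -- coprimality
        have hcop : IsCoprime (g.map (eval₂RingHom f t)) (g.map (eval₂RingHom f t')) := by
          rw [← EuclideanDomain.gcd_isUnit_iff]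
          by_contra hcon
          have hne0 : g.map (eval₂RingHom f t) ≠ 0 := by
            intro h
            have h5 := congrArg (fun p : A[X] => p.coeff g.natDegree) h
            simp only [coeff_map, coeff_natDegree, coeff_zero] at h5
            exact hlc t ht h5
          have hgne : EuclideanDomain.gcd (g.map (eval₂RingHom f t))
              (g.map (eval₂RingHom f t')) ≠ 0 := by
            intro h
            rw [EuclideanDomain.gcd_eq_zero_iff] at h
            exact hne0 h.1
          have hdeg : (EuclideanDomain.gcd (g.map (eval₂RingHom f t))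
              (g.map (eval₂RingHom f t'))).degree ≠ 0 := by
            intro h
            exact hcon (Polynomial.isUnit_iff_degree_eq_zero.2 h)
          obtain ⟨r, hr⟩ := IsAlgClosed.exists_root _ hdeg
          have e1 := (hr.dvd (EuclideanDomain.gcd_dvd_left _ _))
          have e2 := (hr.dvd (EuclideanDomain.gcd_dvd_right _ _))
          rw [IsRoot, eval_map] at e1 e2
          exact hT t ht t' ht' hne r e1 e2
        obtain ⟨b, b', hbb⟩ := hcop
        have e3 := congrArg (fun p : A[X] => p.eval₂ (ρ.comp jW) (ρ ⟨x, hx⟩)) hbb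
        simp only [eval₂_add, eval₂_mul, eval₂_one, eval₂_map] at e3
        have e4 : ∀ t : A, eval₂ ((ρ.comp jW).comp (eval₂RingHom f t)) (ρ ⟨x, hx⟩) g =
            val1 ((ρ.comp jW).comp f) ((ρ.comp jW) t) (ρ ⟨x, hx⟩) g := by
          intro t
          unfold val1
          congr 1
          apply Polynomial.ringHom_ext
          · intro a
            simp
          · simp
        rw [e4, e4, hρ t h1, hρ t' h2, mul_zero, mul_zero, add_zero] at e3
        exact zero_ne_one e3) θ θ' hθ hθ' h0 h0'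
    refine ⟨m, ?_, hU.2.1, ?_⟩
    · rcases hm with rfl | hm
      · rw [zpow_zero]
        exact one_ne_zero
      · exact zpow_ne_zero _ hm
    · have := hU.2.2
      rwa [inv_div] at this
  · have hx0 : x ≠ 0 := by
      rintro rfl
      exact hx (zero_mem _)
    have hU : ∀ t ∈ R, IsU W (val1 (j.comp f) (j t) x g / x ^ g.natDegree) := by
      intro t ht
      refine val1_inf W (j.comp f) (fun c => hW _) _ (hW _) x hx g ?_
      have e1 : eval₂ (j.comp f) (j t) g.leadingCoeff = j (eval₂ f t g.leadingCoeff) :=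
        (Polynomial.hom_eval₂ _ f j t).symm
      rw [e1]
      exact hconst _ (hlc t ht)
    have hrat : val1 (j.comp f) (j θ) x g / val1 (j.comp f) (j θ') x g =
        (val1 (j.comp f) (j θ) x g / x ^ g.natDegree) /
          (val1 (j.comp f) (j θ') x g / x ^ g.natDegree) := by
      rw [div_div_div_cancel_right₀ (pow_ne_zero _ hx0)]
    have hUU := (hU θ hθ).div (hU θ' hθ')
    rw [← hrat] at hUU
    refine ⟨0, by rw [zpow_zero]; exact one_ne_zero, ?_, ?_⟩
    · rw [zpow_zero, one_pow, div_one]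
      exact hUU.2.1
    · rw [zpow_zero, one_pow, one_div]
      exact hUU.2.2

end Pool.Agent.U190.SN
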