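import Pool.Agent.U190.SN.SE

/-!
# No points and no sections on superelliptic curves given by norms
-/

set_option autoImplicit false

namespace Pool.Agent.U190.SN

open Pool.Agent.W620.SC Pool.Agent.W623.SecC Finset IntermediateField Polynomial

universe u v w y

section transfer

variable {K : Type u} {B : Type v} {C : Type w} [Field K] [Field B] [Field C] [Algebra K B]
  [Algebra K C] {G : K[X]}

/-- the leading coefficient is a unit -/
def LcIn (B : Type*) [Field B] [Algebra K B] (G : K[X]) (g : K[X][X]) : Prop :=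
  ∀ θ : B, aeval θ G = 0 → aeval θ g.leadingCoeff ≠ 0

/-- the conjugates are coprime -/
def CopIn (B : Type*) [Field B] [Algebra K B] (G : K[X]) (g : K[X][X]) : Prop :=
  ∀ θ θ' : B, aeval θ G = 0 → aeval θ' G = 0 → θ ≠ θ' → ∀ x : B,
    val1 (algebraMap K B) θ x g = 0 → val1 (algebraMap K B) θ' x g ≠ 0

lemma aeval_i (i : B →ₐ[K] C) (t : B) (P : K[X]) : aeval (i t) P = i (aeval t P) :=
  Polynomial.aeval_algHom_apply i t P

lemma LcIn.map (i : B →ₐ[K] C) {g : K[X][X]} (h : LcIn C G g) : LcIn B G g := by
  intro θ hθ h0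
  refine h (i θ) (by rw [aeval_i, hθ, map_zero]) ?_
  rw [aeval_i, h0, map_zero]

lemma CopIn.map (i : B →ₐ[K] C) {g : K[X][X]} (h : CopIn C G g) : CopIn B G g := by
  intro θ θ' h1 h2 hne x g1 g2
  have hi : (i : B →+* C).comp (algebraMap K B) = algebraMap K C := by
    ext c
    exact i.commutes c
  have e1 : ∀ t : B, val1 (algebraMap K C) (i t) (i x) g = i (val1 (algebraMap K B) t x g) := by
    intro t
    have := val1_map (i : B →+* C) (algebraMap K B) t x g
    rw [hi] at this
    exact this.symm
  exact h (i θ) (i θ') (by rw [aeval_i, h1, map_zero]) (by rw [aeval_i, h2, map_zero])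
    (fun h => hne (i.injective h)) (i x) (by rw [e1, g1, map_zero]) (by rw [e1, g2, map_zero])

lemma val1_base {L : Type y} [Field L] [Algebra K L] [Algebra L B] [IsScalarTower K L B]
    (θ x : B) (g : K[X][X]) :
    val1 (algebraMap L B) θ x (g.map (mapRingHom (algebraMap K L))) =
      val1 (algebraMap K B) θ x g := by
  unfold val1
  rw [Polynomial.eval₂_map]
  congr 1
  apply Polynomial.ringHom_ext
  · intro c
    simp [IsScalarTower.algebraMap_apply K L B]
  · simp

lemma lc_base {L : Type y} [Field L] [Algebra K L] [Algebra L B] [IsScalarTower K L B]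
    (θ : B) (g : K[X][X]) :
    eval₂ (algebraMap L B) θ (g.map (mapRingHom (algebraMap K L))).leadingCoeff =
      aeval θ g.leadingCoeff := by
  have hinj : Function.Injective (mapRingHom (algebraMap K L)) :=
    map_injective _ (algebraMap K L).injective
  rw [Polynomial.leadingCoeff_map_of_injective hinj, coe_mapRingHom, Polynomial.eval₂_map,
    ← IsScalarTower.algebraMap_eq K L B]
  rfl

end transfer

section main

variable {K : Type u} [Field K] [CharZero K] {n : ℕ} {G : K[X]} {L : Type y}
  [Field L] [Algebra K L] [FiniteDimensional K L]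

/-- `M` contains the constants and the `n`-th roots of the ratios of the conjugates -/
def Level1 (L : Type y) {F : Type v} {Ω : Type w} [Field L] [Field F] [Field Ω] [Algebra K Ω]
    [Algebra L Ω] [Algebra F Ω] (n : ℕ) (G : K[X]) (g : K[X][X]) (x : Ω)
    (M : IntermediateField F Ω) : Prop :=
  (∀ c ∈ algebraicClosure L Ω, c ∈ M) ∧ ∀ θ θ' β : Ω, aeval θ G = 0 → aeval θ' G = 0 →
    val1 (algebraMap K Ω) θ' x g ≠ 0 →
      β ^ n * val1 (algebraMap K Ω) θ' x g = val1 (algebraMap K Ω) θ x g → β ∈ M

lemma vec_ne {B : Type*} [Field B] (x y : B) : (![x, y, 1] : Fin 3 → B) ≠ 0 := by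
  intro h
  have h2 := congrFun h 2
  exact one_ne_zero h2

/-- **No points and no sections.** -/
theorem both1 (h1n : 1 < n) (hn : Odd n) (hL : Nat.Coprime n (Module.finrank K L))
    (hs : G.Separable) (hd : G.natDegree ≠ 0)
    (hfac : ∀ p : K[X], Irreducible p → p ∣ G → p.natDegree = n)
    (hcase : n.Prime ∨ ∀ p : K[X], Irreducible p → p ∣ G → IsCyclic p.Gal) (a : K)
    (ha : a ≠ 0) (hnot : ¬ NmIn (AlgebraicClosure K) G a) (g : K[X][X])
    (hlc : LcIn (AlgebraicClosure K) G g) (hT : CopIn (AlgebraicClosure K) G g) :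
    (∀ x y : L, ((G.map (algebraMap K (AlgebraicClosure L))).roots.map fun θ =>
        val1 (algebraMap K (AlgebraicClosure L)) θ (algebraMap L (AlgebraicClosure L) x) g).prod ≠
          algebraMap K (AlgebraicClosure L) a * algebraMap L (AlgebraicClosure L) y ^ n) ∧
    (∀ z : L, ((G.map (algebraMap K (AlgebraicClosure L))).roots.map fun θ =>
        aeval θ g.leadingCoeff).prod ≠
          algebraMap K (AlgebraicClosure L) a * algebraMap L (AlgebraicClosure L) z ^ n) ∧
    ∀ (F : Type v) (Ω : Type w) [Field F] [Field Ω] [Algebra L F] [Algebra F Ω] [Algebra L Ω]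
      [Algebra K Ω] [IsScalarTower L F Ω] [IsScalarTower K L Ω] [IsAlgClosure F Ω]
      (x y : F), ((G.map (algebraMap K Ω)).roots.map fun θ =>
        val1 (algebraMap K Ω) θ (algebraMap F Ω x) g).prod =
          algebraMap K Ω a * algebraMap F Ω y ^ n →
      (∀ M : IntermediateField F Ω, Level1 L n G g (algebraMap F Ω x) M →
        ∀ s : (algebraicClosure L Ω ≃ₐ[L] algebraicClosure L Ω) →* (M ≃ₐ[F] M), Continuous s →
        (∀ σ (x : algebraicClosure L Ω) (y : M), (y : Ω) = x → ((s σ y : M) : Ω) = σ x) →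
          False) ∧
      ∀ U : Set (ValuationSubring F), (∀ O ∈ U, ∀ c : L, algebraMap L F c ∈ O) →
        Level1 L n G g (algebraMap F Ω x) (unramified F Ω U) := by
  classical
  have hG0 : G ≠ 0 := hs.ne_zero
  have hczL : CharZero L := charZero_of_injective_algebraMap (algebraMap K L).injective
  have haL : algebraMap K L a ≠ 0 := (_root_.map_ne_zero _).2 ha
  set gL : L[X][X] := g.map (mapRingHom (algebraMap K L)) with hgL
  have halg : Algebra.IsAlgebraic K (AlgebraicClosure L) :=
    Algebra.IsAlgebraic.trans K L (AlgebraicClosure L)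
  have hTA : CopIn (AlgebraicClosure L) G g :=
    hT.map (IsAlgClosed.lift (R := K) (M := AlgebraicClosure K) (S := AlgebraicClosure L))
  have hlcA : LcIn (AlgebraicClosure L) G g :=
    hlc.map (IsAlgClosed.lift (R := K) (M := AlgebraicClosure K) (S := AlgebraicClosure L))
  have hcardA : ∀ θ ∈ (rts G : Finset (AlgebraicClosure L)), (cj L θ).card = n := by
    intro θ hθ
    rw [card_cj]
    exact deg_root' hL hfac ((mem_rts hG0).1 hθ)
  refine ⟨?_, ?_, ?_⟩
  · intro x y hon
    apply hnot
    have h1 : IsNm (⊤ : Subgroup (AlgebraicClosure L ≃ₐ[L] AlgebraicClosure L)) (rts G)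
        (algebraMap L (AlgebraicClosure L) (algebraMap K L a)) := by
      refine pt h1n (rts G) (rts_ne hs hd) (fun σ θ hθ => stable hG0 σ θ hθ) (cj L)
        (fun θ _ ρ => mem_cj) hcardA (toMv gL) (MvPolynomial.X 1) ?_ ![x, y, 1] (vec_ne _ _)
        (algebraMap K L a) haL ?_
      · intro θ hθ θ' hθ' hne x _ g1 g2
        rw [val_toMv, hgL, val1_base] at g1 g2
        exact absurd g2 (hTA θ θ' ((mem_rts hG0).1 hθ) ((mem_rts hG0).1 hθ') hne _ g1)
      · rw [prod_rts hs, ← IsScalarTower.algebraMap_apply, MvPolynomial.eval₂_X]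
        refine Eq.trans ?_ hon
        congr 1
        refine Multiset.map_congr rfl fun θ _ => ?_
        rw [val_toMv, hgL, val1_base]
        rfl
    refine nm_of (L := L) (A := AlgebraicClosure L) h1n hL hs hd hfac a ha ⊤ ?_ ?_
    · rw [Subgroup.index_top]
      exact Nat.coprime_one_right _
    · rw [← IsScalarTower.algebraMap_apply] at h1
      exact h1
  · intro z hon
    apply hnot
    refine nm_of (L := L) (A := AlgebraicClosure L) h1n hL hs hd hfac a ha ⊤ ?_ ?_
    · rw [Subgroup.index_top]
      exact Nat.coprime_one_right _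
    obtain ⟨θ0, hθ0⟩ := rts_ne (A := AlgebraicClosure L) hs hd
    have hst : ∀ σ ∈ (⊤ : Subgroup (AlgebraicClosure L ≃ₐ[L] AlgebraicClosure L)),
        ∀ ρ ∈ cj L θ0, σ ρ ∈ cj L θ0 := by
      intro σ _ ρ hρ
      obtain ⟨τ, rfl⟩ := mem_cj.1 hρ
      exact mem_cj.2 ⟨σ * τ, rfl⟩
    have hcR : cj L θ0 ⊆ (rts G : Finset (AlgebraicClosure L)) := by
      intro ρ hρ
      obtain ⟨σ, rfl⟩ := mem_cj.1 hρ
      exact stable hG0 σ θ0 hθ0
    have hne : ∀ θ ∈ (rts G : Finset (AlgebraicClosure L)), aeval θ g.leadingCoeff ≠ 0 :=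
      fun θ hθ => hlcA θ ((mem_rts hG0).1 hθ)
    rw [← prod_rts hs] at hon
    have hprod : ∏ θ ∈ (rts G : Finset (AlgebraicClosure L)), aeval θ g.leadingCoeff ≠ 0 :=
      Finset.prod_ne_zero_iff.2 hne
    have hz0 : algebraMap L (AlgebraicClosure L) z ≠ 0 := by
      intro h
      rw [h, zero_pow (by omega), mul_zero] at hon
      exact hprod hon
    have k1 : IsNm (⊤ : Subgroup (AlgebraicClosure L ≃ₐ[L] AlgebraicClosure L)) (rts G)
        (∏ θ ∈ (rts G : Finset (AlgebraicClosure L)), aeval θ g.leadingCoeff) := by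
      refine ⟨fun θ => aeval θ g.leadingCoeff, hne, ?_, rfl⟩
      intro σ _ θ _
      exact Polynomial.aeval_algHom_apply
        ((σ.restrictScalars K : AlgebraicClosure L ≃ₐ[K] AlgebraicClosure L) :
          AlgebraicClosure L →ₐ[K] AlgebraicClosure L) θ g.leadingCoeff
    have k2 : IsNm (⊤ : Subgroup (AlgebraicClosure L ≃ₐ[L] AlgebraicClosure L)) (rts G)
        (algebraMap L (AlgebraicClosure L) z ^ n) := by
      rw [← hcardA θ0 hθ0]
      exact IsNm.orbit hcR hst _ hz0 (fun σ _ => σ.commutes z)
    have h3 : algebraMap K (AlgebraicClosure L) a =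
        (∏ θ ∈ (rts G : Finset (AlgebraicClosure L)), aeval θ g.leadingCoeff) *
          (algebraMap L (AlgebraicClosure L) z ^ n)⁻¹ := by
      rw [hon, mul_inv_cancel_right₀ (pow_ne_zero _ hz0)]
    rw [h3]
    exact k1.mul k2.inv
  · intro F Ω _ _ _ _ _ _ _ _ _ x y hon
    have hcl : IsAlgClosed Ω := IsAlgClosure.isAlgClosed F
    have halgF : Algebra.IsAlgebraic F Ω := IsAlgClosure.isAlgebraic
    have hac : IsAlgClosure L (algebraicClosure L Ω) := inferInstance
    have hkb : IsAlgClosed (algebraicClosure L Ω) := hac.1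
    have halg : Algebra.IsAlgebraic K (algebraicClosure L Ω) :=
      Algebra.IsAlgebraic.trans K L (algebraicClosure L Ω)
    have hTA : CopIn (algebraicClosure L Ω) G g :=
      hT.map (IsAlgClosed.lift (R := K) (M := AlgebraicClosure K) (S := algebraicClosure L Ω))
    have hlcA : LcIn (algebraicClosure L Ω) G g :=
      hlc.map (IsAlgClosed.lift (R := K) (M := AlgebraicClosure K) (S := algebraicClosure L Ω))
    have hst : IsScalarTower K (algebraicClosure L Ω) Ω :=
      IsScalarTower.of_algebraMap_eq (fun _ => rfl)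
    have hcoe : ∀ θ : algebraicClosure L Ω, aeval (θ : Ω) G =
        ((aeval θ G : algebraicClosure L Ω) : Ω) :=
      fun θ => Polynomial.aeval_algHom_apply
        (IsScalarTower.toAlgHom K (algebraicClosure L Ω) Ω) θ G
    have hrel : ∏ θ ∈ (rts G : Finset (algebraicClosure L Ω)),
        val1 (algebraMap L Ω) (θ : Ω) (algebraMap F Ω x) gL =
        algebraMap L Ω (algebraMap K L a) * algebraMap F Ω y ^ n := by
      rw [prod_rts hs, ← IsScalarTower.algebraMap_apply, ← hon,
        roots_ext (algebraMap (algebraicClosure L Ω) Ω) (by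
          ext c
          rfl), Multiset.map_map]
      congr 1
      refine Multiset.map_congr rfl fun θ _ => ?_
      rw [hgL, val1_base]
      rfl
    refine ⟨?_, ?_⟩
    · intro M hM s hsc hcomp
      apply hnot
      obtain ⟨Γ, hΓ, hcyc⟩ := exists_group (K := K) (L := L) (A := algebraicClosure L Ω) h1n hL hs
        hfac hcase
      have hval : ∀ t : Ω, val (algebraMap L Ω) t
          (fun i => algebraMap F Ω ((![x, y, 1] : Fin 3 → F) i)) (toMv gL) =
          val1 (algebraMap K Ω) t (algebraMap F Ω x) g := by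
        intro t
        rw [val_toMv, hgL, val1_base]
        rfl
      have h1 := secM M hM.1 s hsc hcomp h1n hn (rts G) (rts_ne hs hd)
        (fun σ θ hθ => stable hG0 σ θ hθ) (cj L) (fun θ _ ρ => mem_cj) (by
          intro θ hθ
          rw [card_cj]
          exact deg_root' hL hfac ((mem_rts hG0).1 hθ)) Γ hcyc (toMv gL) (MvPolynomial.X 1) (by
          intro θ hθ θ' hθ' hne x _ g1 g2
          rw [val_toMv, hgL, val1_base] at g1 g2
          exact absurd g2 (hTA θ θ' ((mem_rts hG0).1 hθ) ((mem_rts hG0).1 hθ') hne _ g1))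
        ![x, y, 1] (vec_ne _ _)
        (algebraMap K L a) haL (by
          intro θ hθ θ' hθ' h0 h0' β hβ
          rw [hval] at h0 h0'
          rw [hval, hval] at hβ
          refine hM.2 θ θ' β ?_ ?_ h0' ?_
          · rw [hcoe, (mem_rts hG0).1 hθ]
            rfl
          · rw [hcoe, (mem_rts hG0).1 hθ']
            rfl
          · rw [hβ, div_mul_cancel₀ _ h0']) (by
          rw [MvPolynomial.eval₂_X]
          refine Eq.trans ?_ hrel
          refine Finset.prod_congr rfl fun θ _ => ?_
          rw [hval, hgL, val1_base])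
      rw [← IsScalarTower.algebraMap_apply] at h1
      exact nm_of h1n hL hs hd hfac a ha Γ hΓ h1
    · intro U hU
      have hWk : ∀ W : ValuationSubring Ω, W.comap (algebraMap F Ω) ∈ U →
          ∀ c : L, algebraMap L Ω c ∈ W := by
        intro W hW c
        rw [IsScalarTower.algebraMap_apply L F Ω]
        exact hU _ hW c
      refine ⟨fun c hc => const_unr U hU c hc, ?_⟩
      intro θ θ' β hθ hθ' h0' hβ
      have hmem : ∀ t : Ω, aeval t G = 0 → t ∈ algebraicClosure L Ω := by
        intro t ht
        have h1 : IsAlgebraic L t :=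
          IsAlgebraic.tower_top L (⟨G, hG0, ht⟩ : IsAlgebraic K t)
        exact mem_algebraicClosure_iff.2 h1
      have hr : ∀ t (ht : aeval t G = 0), (⟨t, hmem t ht⟩ : algebraicClosure L Ω) ∈
          (rts G : Finset (algebraicClosure L Ω)) := by
        intro t ht
        rw [mem_rts hG0]
        apply Subtype.ext
        rw [← hcoe]
        exact ht
      by_cases h0 : val1 (algebraMap K Ω) θ (algebraMap F Ω x) g = 0
      · rw [h0] at hβ
        have h1 : β = 0 := IsNilpotent.eq_zero ⟨n, (mul_eq_zero.1 hβ).resolve_right h0'⟩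
        rw [h1]
        exact zero_mem _
      have hβ0 : β ≠ 0 := by
        rintro rfl
        rw [zero_pow hn.pos.ne', zero_mul] at hβ
        exact h0 hβ.symm
      rw [mem_unramified]
      intro W hW σ hσ
      obtain ⟨m, ht0, h3, h4⟩ := ratio_se (algebraMap L (algebraicClosure L Ω))
        (algebraMap (algebraicClosure L Ω) Ω) W (fun c => const_mem (hWk W hW) c.2)
        (rts G) gL (by
          intro θ hθ
          rw [hgL, lc_base]
          exact hlcA θ ((mem_rts hG0).1 hθ)) (by
          intro θ hθ θ' hθ' hne x g1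
          rw [hgL, val1_base] at g1 ⊢
          exact hTA θ θ' ((mem_rts hG0).1 hθ) ((mem_rts hG0).1 hθ') hne x g1)
        (algebraMap F Ω x) (algebraMap F Ω y) n hn.pos
        (algebraMap L (algebraicClosure L Ω) (algebraMap K L a))
        ((_root_.map_ne_zero _).2 haL) hrel ⟨θ, hmem θ hθ⟩ ⟨θ', hmem θ' hθ'⟩ (hr θ hθ) (hr θ' hθ')
        (by
          change val1 (algebraMap L Ω) θ (algebraMap F Ω x) gL ≠ 0
          rw [hgL, val1_base]
          exact h0) (by
          change val1 (algebraMap L Ω) θ' (algebraMap F Ω x) gL ≠ 0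
          rw [hgL, val1_base]
          exact h0')
      change val1 (algebraMap L Ω) θ (algebraMap F Ω x) gL /
        val1 (algebraMap L Ω) θ' (algebraMap F Ω x) gL / (algebraMap F Ω y ^ m) ^ n ∈ W at h3
      change (algebraMap F Ω y ^ m) ^ n / (val1 (algebraMap L Ω) θ (algebraMap F Ω x) gL /
        val1 (algebraMap L Ω) θ' (algebraMap F Ω x) gL) ∈ W at h4
      rw [hgL, val1_base, val1_base] at h3 h4
      have hβ' : β ^ n = val1 (algebraMap K Ω) θ (algebraMap F Ω x) g /
          val1 (algebraMap K Ω) θ' (algebraMap F Ω x) g := eq_div_of_mul_eq h0' hβ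
      have hσt : ∀ t : Ω, aeval t G = 0 → σ (val1 (algebraMap K Ω) t (algebraMap F Ω x) g) =
          val1 (algebraMap K Ω) t (algebraMap F Ω x) g := by
        intro t ht
        have e1 := val1_map ((σ : Ω ≃+* Ω) : Ω →+* Ω) (algebraMap K Ω) t (algebraMap F Ω x) g
        have e2 : ((σ : Ω ≃+* Ω) : Ω →+* Ω).comp (algebraMap K Ω) = algebraMap K Ω := by
          ext c : 1
          change σ (algebraMap K Ω c) = algebraMap K Ω c
          rw [IsScalarTower.algebraMap_apply K L Ω, IsScalarTower.algebraMap_apply L F Ω]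
          exact σ.commutes _
        have e3 : ((σ : Ω ≃+* Ω) : Ω →+* Ω) (algebraMap F Ω x) = algebraMap F Ω x := σ.commutes x
        have e4 : ((σ : Ω ≃+* Ω) : Ω →+* Ω) t = t :=
          inertia_const (k := L) (hWk W hW) hσ (hmem t ht)
        rw [e2, e3, e4] at e1
        exact e1
      refine inertia_root (k := L) (hWk W hW) hσ hn.pos (t := algebraMap F Ω y ^ m) ?_ ?_ ht0 hβ0
        ?_ ?_
      · rw [hβ', map_div₀, hσt θ hθ, hσt θ' hθ']
      · rw [← map_zpow₀]
        exact σ.commutes _
      · rw [hβ']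
        exact h3
      · rw [hβ']
        exact h4

end main

section converse

variable {K : Type u} [Field K] [CharZero K] {G : K[X]}

/-- a curve with a rational point -/
theorem converse1 {n : ℕ} (hs : G.Separable) (a : K) (ha : a ≠ 0)
    (h : NmIn (AlgebraicClosure K) G a) :
    ∃ g : K[X][X], LcIn (AlgebraicClosure K) G g ∧ CopIn (AlgebraicClosure K) G g ∧
      ((G.map (algebraMap K (AlgebraicClosure K))).roots.map fun θ =>
        val1 (algebraMap K (AlgebraicClosure K)) θ
          (algebraMap K (AlgebraicClosure K) 0) g).prod =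
          algebraMap K (AlgebraicClosure K) a * algebraMap K (AlgebraicClosure K) 1 ^ n := by
  classical
  have hG0 : G ≠ 0 := hs.ne_zero
  obtain ⟨P, hP⟩ := h
  -- a constant different from all `-θ`
  obtain ⟨c, hc⟩ : ∃ c : K, ∀ θ : AlgebraicClosure K, aeval θ G = 0 →
      θ + algebraMap K (AlgebraicClosure K) c ≠ 0 := by
    by_contra hcon
    push Not at hcon
    choose f hf1 hf2 using hcon
    have hinj : Function.Injective f := by
      intro c d hcd
      have h1 := hf2 c
      have h2 := hf2 d
      rw [hcd] at h1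
      exact (algebraMap K (AlgebraicClosure K)).injective (add_left_cancel (h1.trans h2.symm))
    have hmaps : ∀ c, f c ∈ (rts G : Finset (AlgebraicClosure K)) := fun c =>
      (mem_rts hG0).2 (hf1 c)
    have hfin : Finite K := Finite.of_injective
      (fun c => (⟨f c, hmaps c⟩ : {x // x ∈ (rts G : Finset (AlgebraicClosure K))}))
      (fun c d h => hinj (congrArg Subtype.val h))
    exact not_finite K
  have hP0 : ∀ θ : AlgebraicClosure K, aeval θ G = 0 → aeval θ P ≠ 0 := by
    intro θ hθ h0
    rw [Multiset.prod_eq_zero (Multiset.mem_map.2 ⟨θ, ?_, h0⟩)] at hP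
    · exact (_root_.map_ne_zero (algebraMap K (AlgebraicClosure K))).2 ha hP.symm
    · rw [mem_roots_map hG0]
      exact hθ
  set g : K[X][X] := C P * (1 + C (X + C c) * X) with hg
  have hev : ∀ θ x : AlgebraicClosure K, val1 (algebraMap K (AlgebraicClosure K)) θ x g =
      aeval θ P * (1 + (θ + algebraMap K (AlgebraicClosure K) c) * x) := by
    intro θ x
    unfold val1
    rw [hg]
    simp [Polynomial.aeval_def]
  refine ⟨g, ?_, ?_, ?_⟩
  · intro θ hθ
    have hlin : (1 + C (X + C c) * X : K[X][X]).leadingCoeff = X + C c := by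
      rw [add_comm, ← C_1]
      exact leadingCoeff_linear (X_add_C_ne_zero c)
    have hlcg : g.leadingCoeff = P * (X + C c) := by
      rw [hg, leadingCoeff_mul, leadingCoeff_C, hlin]
    rw [hlcg, map_mul, map_add, aeval_X, aeval_C]
    exact mul_ne_zero (hP0 θ hθ) (hc θ hθ)
  · intro θ θ' hθ hθ' hne x h1 h2
    rw [hev] at h1 h2
    have h3 := (mul_eq_zero.1 h1).resolve_left (hP0 θ hθ)
    have h4 := (mul_eq_zero.1 h2).resolve_left (hP0 θ' hθ')
    have h5 : (θ - θ') * x = 0 := by linear_combination h3 - h4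
    rcases mul_eq_zero.1 h5 with h6 | h6
    · exact hne (sub_eq_zero.1 h6)
    · rw [h6, mul_zero, add_zero] at h3
      exact one_ne_zero h3
  · simp only [hev]
    rw [map_zero, map_one, one_pow, mul_one, ← hP]
    congr 1
    refine Multiset.map_congr rfl fun θ _ => ?_
    rw [mul_zero, add_zero, mul_one]

end converse

end Pool.Agent.U190.SN
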