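import Pool.Agent.U190.SN.Geo

/-!
# The norm principle for sections and for rational points
-/

set_option autoImplicit false

namespace Pool.Agent.U190.SN

open Pool.Agent.W620.SC Pool.Agent.W623.SecC Pool.Agent.TH120.Sec Finset IntermediateField

universe u v w

/-- the data attached to a section -/
noncomputable def mkM {k : Type u} {F : Type v} {Ω : Type w} [Field k] [Field F] [Field Ω]
    [Algebra k F] [Algebra F Ω] [Algebra k Ω] [Algebra.IsAlgebraic F Ω]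
    (M : IntermediateField F Ω) (hM : ∀ c ∈ algebraicClosure k Ω, c ∈ M)
    (s : (algebraicClosure k Ω ≃ₐ[k] algebraicClosure k Ω) →* (M ≃ₐ[F] M)) (hs : Continuous s)
    (hcomp : ∀ σ (x : algebraicClosure k Ω) (y : M), (y : Ω) = x → ((s σ y : M) : Ω) = σ x) :
    SDat k (algebraicClosure k Ω) M where
  s := (toRingAutHom F M).comp s
  ι := (algebraMap (algebraicClosure k Ω) Ω).codRestrict M (fun x => hM _ x.2)
  hι := fun σ x => Subtype.ext (hcomp σ x _ rfl)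
  cont := by
    intro w
    have h1 : {e : M ≃ₐ[F] M | e w = w} ∈ nhds (1 : M ≃ₐ[F] M) := by
      rw [krullTopology_mem_nhds_one_iff]
      refine ⟨F⟮w⟯, ?_, ?_⟩
      · exact adjoin.finiteDimensional (Algebra.IsIntegral.isIntegral _)
      · intro e he
        exact (mem_fixingSubgroup_iff _ _).1 he _ (mem_adjoin_simple_self F _)
    have h2 := hs.tendsto 1
    rw [map_one] at h2
    have h3 := h2 h1
    rw [Filter.mem_map, krullTopology_mem_nhds_one_iff] at h3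
    obtain ⟨E, hE, hE'⟩ := h3
    exact ⟨E, hE, fun σ hσ => hE' hσ⟩

/-- the value of the equation is not zero -/
lemma form_ne {k A κ : Type*} [Field k] [Field A] [Algebra k A] [IsAlgClosed A] [Field κ]
    (j : A →+* κ) {ℓ : ℕ} (hℓ : 1 < ℓ) (R : Finset A)
    (orb : A → Finset A) (horb : ∀ θ ∈ R, ∀ ρ, ρ ∈ orb θ ↔ ∃ σ : A ≃ₐ[k] A, σ θ = ρ)
    (horbR : ∀ θ ∈ R, orb θ ⊆ R) (hcard : ∀ θ ∈ R, (orb θ).card = ℓ)
    (P : MvPolynomial (Fin 3) (Polynomial k)) (Q : MvPolynomial (Fin 3) k)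
    (hT : ∀ θ ∈ R, ∀ θ' ∈ R, θ ≠ θ' → ∀ x : Fin 3 → A, x ≠ 0 → val (algebraMap k A) θ x P = 0 →
      val (algebraMap k A) θ' x P = 0 → MvPolynomial.eval₂ (algebraMap k A) x Q ≠ 0)
    (x : Fin 3 → κ) (hx : x ≠ 0) (a : A) (ha : a ≠ 0)
    (hrel : ∏ θ ∈ R, val (j.comp (algebraMap k A)) (j θ) x P =
      j a * MvPolynomial.eval₂ (j.comp (algebraMap k A)) x Q ^ ℓ)
    (hstep : ∀ θ ∈ R, val (j.comp (algebraMap k A)) (j θ) x P = 0 → ∀ σ : A ≃ₐ[k] A,
      val (j.comp (algebraMap k A)) (j (σ θ)) x P = 0) :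
    ∀ θ ∈ R, val (j.comp (algebraMap k A)) (j θ) x P ≠ 0 := by
  intro θ hθ h0
  have h2 : 1 < (orb θ).card := by
    rw [hcard θ hθ]
    exact hℓ
  have hself : θ ∈ orb θ := (horb θ hθ θ).2 ⟨1, rfl⟩
  obtain ⟨ρ, hρ, hne⟩ := Finset.exists_mem_ne h2 θ
  obtain ⟨σ, rfl⟩ := (horb θ hθ ρ).1 hρ
  have h3 := hstep θ hθ h0 σ
  have h4 := null_val (algebraMap k A) j P Q (σ θ) θ
    (hT (σ θ) (horbR θ hθ hρ) θ hθ hne) x hx h3 h0
  have h5 : ∏ θ ∈ R, val (j.comp (algebraMap k A)) (j θ) x P = 0 := Finset.prod_eq_zero hθ h0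
  rw [h5] at hrel
  exact mul_ne_zero ((_root_.map_ne_zero j).2 ha) (pow_ne_zero _ h4) hrel.symm

/-- **Sections.** -/
theorem secM {k : Type u} {F : Type v} {Ω : Type w} [Field k] [Field F] [Field Ω]
    [Algebra k F] [Algebra F Ω] [Algebra k Ω] [IsScalarTower k F Ω] [CharZero k] [IsAlgClosed Ω]
    [Algebra.IsAlgebraic F Ω]
    (M : IntermediateField F Ω) (hM : ∀ c ∈ algebraicClosure k Ω, c ∈ M)
    (s : (algebraicClosure k Ω ≃ₐ[k] algebraicClosure k Ω) →* (M ≃ₐ[F] M)) (hs : Continuous s)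
    (hcomp : ∀ σ (x : algebraicClosure k Ω) (y : M), (y : Ω) = x → ((s σ y : M) : Ω) = σ x)
    {ℓ : ℕ} (hℓ : 1 < ℓ) (hn : Odd ℓ)
    (R : Finset (algebraicClosure k Ω)) (hRne : R.Nonempty)
    (hR : ∀ σ : algebraicClosure k Ω ≃ₐ[k] algebraicClosure k Ω, ∀ θ ∈ R, σ θ ∈ R)
    (orb : algebraicClosure k Ω → Finset (algebraicClosure k Ω))
    (horb : ∀ θ ∈ R, ∀ ρ, ρ ∈ orb θ ↔
      ∃ σ : algebraicClosure k Ω ≃ₐ[k] algebraicClosure k Ω, σ θ = ρ)
    (hcard : ∀ θ ∈ R, (orb θ).card = ℓ)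
    (Γ : Subgroup (algebraicClosure k Ω ≃ₐ[k] algebraicClosure k Ω))
    (hcyc : ∀ θ ∈ R, ∃ τ, Cyc Γ (orb θ) θ τ ℓ)
    (P : MvPolynomial (Fin 3) (Polynomial k)) (Q : MvPolynomial (Fin 3) k)
    (hT : ∀ θ ∈ R, ∀ θ' ∈ R, θ ≠ θ' → ∀ x : Fin 3 → algebraicClosure k Ω, x ≠ 0 →
      val (algebraMap k (algebraicClosure k Ω)) θ x P = 0 →
      val (algebraMap k (algebraicClosure k Ω)) θ' x P = 0 →
        MvPolynomial.eval₂ (algebraMap k (algebraicClosure k Ω)) x Q ≠ 0)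
    (x : Fin 3 → F) (hx : x ≠ 0) (a : k) (ha : a ≠ 0)
    (hroot : ∀ θ ∈ R, ∀ θ' ∈ R,
      val (algebraMap k Ω) (θ : Ω) (fun i => algebraMap F Ω (x i)) P ≠ 0 →
      val (algebraMap k Ω) (θ' : Ω) (fun i => algebraMap F Ω (x i)) P ≠ 0 → ∀ β : Ω,
      β ^ ℓ = val (algebraMap k Ω) (θ : Ω) (fun i => algebraMap F Ω (x i)) P /
        val (algebraMap k Ω) (θ' : Ω) (fun i => algebraMap F Ω (x i)) P → β ∈ M)
    (hrel : ∏ θ ∈ R, val (algebraMap k Ω) (θ : Ω) (fun i => algebraMap F Ω (x i)) P =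
      algebraMap k Ω a *
        MvPolynomial.eval₂ (algebraMap k Ω) (fun i => algebraMap F Ω (x i)) Q ^ ℓ) :
    IsNm Γ R (algebraMap k (algebraicClosure k Ω) a) := by
  classical
  have hac : IsAlgClosure k (algebraicClosure k Ω) := inferInstance
  have hA : IsAlgClosed (algebraicClosure k Ω) := hac.1
  set j : algebraicClosure k Ω →+* Ω := algebraMap (algebraicClosure k Ω) Ω with hj
  set g : k →+* algebraicClosure k Ω := algebraMap k (algebraicClosure k Ω) with hg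
  have hjg : j.comp g = algebraMap k Ω := rfl
  set x' : Fin 3 → Ω := fun i => algebraMap F Ω (x i) with hx'
  have hx'0 : x' ≠ 0 := by
    intro h
    apply hx
    funext i
    exact (_root_.map_eq_zero _).1 (congrFun h i)
  have ha0 : g a ≠ 0 := (_root_.map_ne_zero _).2 ha
  have horbR : ∀ θ ∈ R, orb θ ⊆ R := by
    intro θ hθ ρ hρ
    obtain ⟨σ, rfl⟩ := (horb θ hθ ρ).1 hρ
    exact hR σ θ hθ
  set D := mkM M hM s hs hcomp with hD
  set jM : M →+* Ω := algebraMap M Ω with hjM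
  set xM : Fin 3 → M := fun i => algebraMap F M (x i) with hxM
  set lam : algebraicClosure k Ω → M := fun ρ => val (D.ι.comp g) (D.ι ρ) xM P with hlam
  have hval : ∀ ρ, jM (lam ρ) = val (j.comp g) (j ρ) x' P := fun ρ =>
    val_map jM (D.ι.comp g) (D.ι ρ) xM P
  have hfixF : ∀ (σ) (z : F), D.s σ (algebraMap F M z) = algebraMap F M z :=
    fun σ z => (s σ).commutes z
  have hact : ∀ σ ρ, D.s σ (lam ρ) = lam (σ ρ) := by
    intro σ ρ
    have e1 := val_map ((D.s σ : M ≃+* M) : M →+* M) (D.ι.comp g) (D.ι ρ) xM P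
    have e2 : ((D.s σ : M ≃+* M) : M →+* M).comp (D.ι.comp g) = D.ι.comp g := by
      ext c : 1
      change D.s σ (D.ι (g c)) = D.ι (g c)
      rw [D.hι, hg, σ.commutes]
    have e3 : (fun i => ((D.s σ : M ≃+* M) : M →+* M) (xM i)) = xM :=
      funext fun i => hfixF σ (x i)
    rw [e2, e3] at e1
    have e4 : ((D.s σ : M ≃+* M) : M →+* M) (D.ι ρ) = D.ι (σ ρ) := D.hι σ ρ
    rw [e4] at e1
    exact e1
  have hne' : ∀ θ ∈ R, val (j.comp g) (j θ) x' P ≠ 0 := by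
    refine form_ne j hℓ R orb horb horbR hcard P Q hT x' hx'0 (g a) ha0 hrel ?_
    intro θ _ h0 σ
    rw [← hval] at h0 ⊢
    rw [← hact]
    have h1 : lam θ = 0 := (_root_.map_eq_zero jM).1 h0
    rw [h1, map_zero, map_zero]
  have hne0 : ∀ θ ∈ R, lam θ ≠ 0 := by
    intro θ hθ h
    apply hne' θ hθ
    rw [← hval, h, map_zero]
  have hQ0 : MvPolynomial.eval₂ (j.comp g) x' Q ≠ 0 := by
    intro h
    have h1 : ∏ θ ∈ R, val (j.comp g) (j θ) x' P ≠ 0 := Finset.prod_ne_zero_iff.2 hne'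
    apply h1
    have h2 : ∏ θ ∈ R, val (j.comp g) (j θ) x' P = j (g a) *
      MvPolynomial.eval₂ (j.comp g) x' Q ^ ℓ := hrel
    rw [h2, h, zero_pow (by omega), mul_zero]
  have hQx : algebraMap F Ω (MvPolynomial.eval₂ (algebraMap k F) x Q) =
      MvPolynomial.eval₂ (j.comp g) x' Q := by
    rw [eval_map', ← IsScalarTower.algebraMap_eq k F Ω]
    rfl
  refine norm_principle' D hn R hRne hR orb horb hcard Γ hcyc lam hne0 (fun σ ρ _ => hact σ ρ) ?_
    (g a) ha0 (algebraMap F M (MvPolynomial.eval₂ (algebraMap k F) x Q)) ?_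
    (fun σ => hfixF σ _) ?_
  · intro ρ hρ ρ' hρ'
    obtain ⟨β, hβ⟩ := IsAlgClosed.exists_pow_nat_eq
      (val (j.comp g) (j ρ) x' P / val (j.comp g) (j ρ') x' P) hn.pos
    refine ⟨⟨β, hroot ρ hρ ρ' hρ' (hne' ρ hρ) (hne' ρ' hρ') β hβ⟩, ?_⟩
    apply jM.injective
    rw [map_pow, map_div₀, hval, hval]
    exact hβ
  · intro h
    apply hQ0
    rw [← hQx]
    rw [(_root_.map_eq_zero _).1 h, map_zero]
  · apply jM.injective
    rw [map_mul, map_pow, map_prod, Finset.prod_congr rfl fun ρ _ => hval ρ]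
    change _ = j (g a) * (algebraMap F Ω (MvPolynomial.eval₂ (algebraMap k F) x Q)) ^ ℓ
    rw [hQx]
    exact hrel

/-- the roots of the ratios are unramified -/
theorem root_unr {k : Type u} {F : Type v} {Ω : Type w} [Field k] [Field F] [Field Ω]
    [Algebra k F] [Algebra F Ω] [Algebra k Ω] [IsScalarTower k F Ω] [CharZero k] [IsAlgClosed Ω]
    (U : Set (ValuationSubring F)) (hU : ∀ O ∈ U, ∀ c : k, algebraMap k F c ∈ O)
    {ℓ : ℕ} (hℓ : 0 < ℓ) (R : Finset (algebraicClosure k Ω))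
    (P : MvPolynomial (Fin 3) (Polynomial k)) (e : ℕ) (hP : P.IsHomogeneous e)
    (Q : MvPolynomial (Fin 3) k) (q : ℕ) (hQ : Q.IsHomogeneous q)
    (hT : ∀ θ ∈ R, ∀ θ' ∈ R, θ ≠ θ' → ∀ x : Fin 3 → algebraicClosure k Ω, x ≠ 0 →
      val (algebraMap k (algebraicClosure k Ω)) θ x P = 0 →
      val (algebraMap k (algebraicClosure k Ω)) θ' x P = 0 →
        MvPolynomial.eval₂ (algebraMap k (algebraicClosure k Ω)) x Q ≠ 0)
    (x : Fin 3 → F) (hx : x ≠ 0) (hdeg : R.card * e = ℓ * q) (a : k) (ha : a ≠ 0)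
    (hrel : ∏ θ ∈ R, val (algebraMap k Ω) (θ : Ω) (fun i => algebraMap F Ω (x i)) P =
      algebraMap k Ω a *
        MvPolynomial.eval₂ (algebraMap k Ω) (fun i => algebraMap F Ω (x i)) Q ^ ℓ)
    (ρ ρ' : algebraicClosure k Ω) (hρ : ρ ∈ R) (hρ' : ρ' ∈ R)
    (h0 : val (algebraMap k Ω) (ρ : Ω) (fun i => algebraMap F Ω (x i)) P ≠ 0)
    (h0' : val (algebraMap k Ω) (ρ' : Ω) (fun i => algebraMap F Ω (x i)) P ≠ 0) (β : Ω)
    (hβ : β ^ ℓ = val (algebraMap k Ω) (ρ : Ω) (fun i => algebraMap F Ω (x i)) P /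
        val (algebraMap k Ω) (ρ' : Ω) (fun i => algebraMap F Ω (x i)) P) :
    β ∈ unramified F Ω U := by
  classical
  have hac : IsAlgClosure k (algebraicClosure k Ω) := inferInstance
  have hA : IsAlgClosed (algebraicClosure k Ω) := hac.1
  have hWk : ∀ W : ValuationSubring Ω, W.comap (algebraMap F Ω) ∈ U →
      ∀ c : k, algebraMap k Ω c ∈ W := by
    intro W hW c
    rw [IsScalarTower.algebraMap_apply k F Ω]
    exact hU _ hW c
  have hWA : ∀ W : ValuationSubring Ω, W.comap (algebraMap F Ω) ∈ U →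
      ∀ c : algebraicClosure k Ω, algebraMap (algebraicClosure k Ω) Ω c ∈ W := by
    intro W hW c
    exact const_mem (hWk W hW) c.2
  set j : algebraicClosure k Ω →+* Ω := algebraMap (algebraicClosure k Ω) Ω with hj
  set g : k →+* algebraicClosure k Ω := algebraMap k (algebraicClosure k Ω) with hg
  have hjg : j.comp g = algebraMap k Ω := rfl
  set x' : Fin 3 → Ω := fun i => algebraMap F Ω (x i) with hx'
  have hx'0 : x' ≠ 0 := by
    intro h
    apply hx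
    funext i
    exact (_root_.map_eq_zero _).1 (congrFun h i)
  have ha0 : g a ≠ 0 := (_root_.map_ne_zero _).2 ha
  have hQx : algebraMap F Ω (MvPolynomial.eval₂ (algebraMap k F) x Q) =
      MvPolynomial.eval₂ (j.comp g) x' Q := by
    rw [eval_map', ← IsScalarTower.algebraMap_eq k F Ω]
    rfl
  have hβ0 : β ≠ 0 := by
    rintro rfl
    rw [zero_pow hℓ.ne'] at hβ
    exact div_ne_zero h0 h0' hβ.symm
  rw [mem_unramified]
  intro W hW σ hσ
  obtain ⟨t, k0, n, ht, ht0, h3, h4⟩ := ratio_form g j W (hWA W hW) R P e hP Q q hQ hT x' hx'0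
    ℓ hℓ hdeg (g a) ha0 hrel ρ ρ' hρ hρ' h0 h0'
  have h5 : t = algebraMap F Ω ((MvPolynomial.eval₂ (algebraMap k F) x Q / x k0 ^ q) ^ n) := by
    rw [ht, map_zpow₀, map_div₀, map_pow, hQx]
  have hσρ : ∀ c : algebraicClosure k Ω, σ (j c) = j c := fun c =>
    inertia_const (k := k) (hWk W hW) hσ c.2
  have hσv : ∀ c : algebraicClosure k Ω, σ (val (j.comp g) (j c) x' P) =
      val (j.comp g) (j c) x' P := by
    intro c
    have e1 := val_map ((σ : Ω ≃+* Ω) : Ω →+* Ω) (j.comp g) (j c) x' P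
    have e2 : ((σ : Ω ≃+* Ω) : Ω →+* Ω).comp (j.comp g) = j.comp g := by
      ext c : 1
      exact hσρ (g c)
    have e3 : (fun i => ((σ : Ω ≃+* Ω) : Ω →+* Ω) (x' i)) = x' :=
      funext fun i => σ.commutes (x i)
    rw [e2, e3] at e1
    have e4 : ((σ : Ω ≃+* Ω) : Ω →+* Ω) (j c) = j c := hσρ c
    rw [e4] at e1
    exact e1
  refine inertia_root (k := k) (hWk W hW) hσ hℓ (t := t) ?_ ?_ ht0 hβ0 ?_ ?_
  · rw [hβ, map_div₀]
    congr 1
    · exact hσv ρ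
    · exact hσv ρ'
  · rw [h5]
    exact σ.commutes _
  · rw [hβ]
    exact h3
  · rw [hβ]
    exact h4

/-- the constants are unramified -/
lemma const_unr {k : Type u} {F : Type v} {Ω : Type w} [Field k] [Field F] [Field Ω]
    [Algebra k F] [Algebra F Ω] [Algebra k Ω] [IsScalarTower k F Ω]
    (U : Set (ValuationSubring F)) (hU : ∀ O ∈ U, ∀ c : k, algebraMap k F c ∈ O) (c : Ω)
    (hc : c ∈ algebraicClosure k Ω) : c ∈ unramified F Ω U := by
  rw [mem_unramified]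
  intro W hW σ hσ
  refine inertia_const (k := k) ?_ hσ hc
  intro c
  rw [IsScalarTower.algebraMap_apply k F Ω]
  exact hU _ hW c

/-- **Rational points.** -/
theorem pt {k : Type u} {A : Type w} [Field k] [Field A] [Algebra k A] [IsAlgClosed A]
    {ℓ : ℕ} (hℓ : 1 < ℓ)
    (R : Finset A) (hRne : R.Nonempty) (hR : ∀ σ : A ≃ₐ[k] A, ∀ θ ∈ R, σ θ ∈ R)
    (orb : A → Finset A) (horb : ∀ θ ∈ R, ∀ ρ, ρ ∈ orb θ ↔ ∃ σ : A ≃ₐ[k] A, σ θ = ρ)
    (hcard : ∀ θ ∈ R, (orb θ).card = ℓ)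
    (P : MvPolynomial (Fin 3) (Polynomial k)) (Q : MvPolynomial (Fin 3) k)
    (hT : ∀ θ ∈ R, ∀ θ' ∈ R, θ ≠ θ' → ∀ x : Fin 3 → A, x ≠ 0 → val (algebraMap k A) θ x P = 0 →
      val (algebraMap k A) θ' x P = 0 → MvPolynomial.eval₂ (algebraMap k A) x Q ≠ 0)
    (x : Fin 3 → k) (hx : x ≠ 0) (a : k) (ha : a ≠ 0)
    (hrel : ∏ θ ∈ R, val (algebraMap k A) θ (fun i => algebraMap k A (x i)) P =
      algebraMap k A a *
        MvPolynomial.eval₂ (algebraMap k A) (fun i => algebraMap k A (x i)) Q ^ ℓ) :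
    IsNm (⊤ : Subgroup (A ≃ₐ[k] A)) R (algebraMap k A a) := by
  classical
  set g : k →+* A := algebraMap k A with hg
  set x' : Fin 3 → A := fun i => g (x i) with hx'
  have hx'0 : x' ≠ 0 := by
    intro h
    apply hx
    funext i
    exact (_root_.map_eq_zero _).1 (congrFun h i)
  have ha0 : g a ≠ 0 := (_root_.map_ne_zero _).2 ha
  have horbR : ∀ θ ∈ R, orb θ ⊆ R := by
    intro θ hθ ρ hρ
    obtain ⟨σ, rfl⟩ := (horb θ hθ ρ).1 hρ
    exact hR σ θ hθ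
  have hact : ∀ (σ : A ≃ₐ[k] A) (ρ : A), σ (val g ρ x' P) = val g (σ ρ) x' P := by
    intro σ ρ
    have e1 := val_map ((σ : A ≃+* A) : A →+* A) g ρ x' P
    have e2 : ((σ : A ≃+* A) : A →+* A).comp g = g := by
      ext c : 1
      exact σ.commutes c
    have e3 : (fun i => ((σ : A ≃+* A) : A →+* A) (x' i)) = x' := funext fun i => σ.commutes (x i)
    rw [e2, e3] at e1
    exact e1
  have hne' : ∀ θ ∈ R, val g θ x' P ≠ 0 := by
    refine form_ne (RingHom.id A) hℓ R orb horb horbR hcard P Q hT x' hx'0 (g a) ha0 hrel ?_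
    intro θ _ h0 σ
    have h0' : val g θ x' P = 0 := h0
    change val g (σ θ) x' P = 0
    rw [← hact, h0', map_zero]
  set c : k := MvPolynomial.eval₂ (RingHom.id k) x Q with hc
  have hQx : MvPolynomial.eval₂ g x' Q = g c := by
    rw [hc, eval_map', RingHom.comp_id]
  rw [hQx] at hrel
  have hprod : ∏ θ ∈ R, val g θ x' P ≠ 0 := Finset.prod_ne_zero_iff.2 hne'
  have hc0 : g c ≠ 0 := by
    intro h
    rw [h, zero_pow (by omega), mul_zero] at hrel
    exact hprod hrel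
  have h1 : IsNm (⊤ : Subgroup (A ≃ₐ[k] A)) R (∏ θ ∈ R, val g θ x' P) :=
    ⟨fun θ => val g θ x' P, hne', fun σ _ θ _ => (hact σ θ).symm, rfl⟩
  obtain ⟨θ0, hθ0⟩ := hRne
  have hst : ∀ σ ∈ (⊤ : Subgroup (A ≃ₐ[k] A)), ∀ ρ ∈ orb θ0, σ ρ ∈ orb θ0 := by
    intro σ _ ρ hρ
    obtain ⟨τ, rfl⟩ := (horb θ0 hθ0 ρ).1 hρ
    exact (horb θ0 hθ0 _).2 ⟨σ * τ, rfl⟩
  have h2 : IsNm (⊤ : Subgroup (A ≃ₐ[k] A)) R ((g c) ^ ℓ) := by
    rw [← hcard θ0 hθ0]
    exact IsNm.orbit (horbR θ0 hθ0) hst (g c) hc0 (fun σ _ => σ.commutes c)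
  have h3 : g a = (∏ θ ∈ R, val g θ x' P) * ((g c) ^ ℓ)⁻¹ := by
    rw [hrel, mul_inv_cancel_right₀ (pow_ne_zero _ hc0)]
  rw [h3]
  exact h1.mul h2.inv

end Pool.Agent.U190.SN
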